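import Pool.Agent.K7.H91.SQ.Th3
import Pool.Agent.R836.RD.DEL
import Pool.Agent.R836.RD.GOOD
import Pool.Agent.R836.RD.STEP

set_option autoImplicit false

/-!
# Automorphisms act on the parts of `D` modulo powers of 2 by multiplication of the class by a square
-/

namespace Pool.Agent.K7.H91.SQ

open PowerSeries Pool.Agent.TH693.QQ Pool.Agent.H397R2.PP
open Pool.Agent.TH693.PP (S)
open Pool.Agent.R836.RD

/-- the coefficient of `th (2 ^ (k + 2)) c` at `c ^ 2` is 1 -/
theorem th_ne (k : ℕ) (c : ℤ) (hc : Odd c) : th (2 ^ (k + 2)) c ≠ 0 := by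
  classical
  intro h
  have h1 : coeff (c ^ 2).toNat (th (2 ^ (k + 2)) c) = 1 := by
    rw [D1.coeff_th _ _ _ _ le_rfl]
    have hs := sq_nonneg c
    have hn : (((c ^ 2).toNat : ℕ) : ℤ) = c ^ 2 := by omega
    have : (Finset.Icc (-(((c ^ 2).toNat : ℕ) : ℤ)) (((c ^ 2).toNat : ℕ) : ℤ)).filter
        (fun z : ℤ => z ^ 2 = (((c ^ 2).toNat : ℕ) : ℤ) ∧ ((2 ^ (k + 2) : ℕ) : ℤ) ∣ z - c) = {c} := by
      ext z
      simp only [Finset.mem_filter, Finset.mem_Icc, Finset.mem_singleton]
      constructor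
      · rintro ⟨-, h2, h3⟩
        rw [hn] at h2
        have h4 : (z - c) * (z + c) = 0 := by linear_combination h2
        rcases mul_eq_zero.1 h4 with h5 | h5
        · linarith
        · exfalso
          have h6 : z = -c := by linarith
          rw [h6] at h3
          have h7 : (4 : ℤ) ∣ -c - c := by
            refine dvd_trans ?_ h3
            push_cast
            exact ⟨2 ^ k, by ring⟩
          obtain ⟨d, hd⟩ := hc
          obtain ⟨e, he⟩ := h7
          omega
      · rintro rfl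
        exact ⟨D1.bound hn.symm.le, hn.symm, by simp⟩
    rw [this, Finset.sum_singleton]
  rw [h, map_zero] at h1
  exact zero_ne_one h1

/-- action on the theta functions -/
theorem act_th {K : Type*} [Field K] (φ φ' : S →+* K) (hφ' : Function.Injective φ')
    (U : K →+* K) (hU : U (φ Db) = φ' Db) (k : ℕ) :
    ∃ g : ℤ, Odd g ∧ ∀ c : ℤ, Odd c → U (φ (th (2 ^ (k + 2)) c)) = φ' (th (2 ^ (k + 2)) (g * c)) := by
  have hq := D1.qd1
  induction k with
  | zero =>
    refine ⟨1, odd_one, fun c hc => ?_⟩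
    have h1 := hq.four c hc
    have h2 := hq.four (1 * c) (by rwa [one_mul])
    norm_num at h1 h2 ⊢
    rw [h1, hU]
  | succ k ih =>
    obtain ⟨g, hg, ih⟩ := ih
    have e0 : k + 1 + 2 = k + 2 + 1 := by ring
    rw [e0]
    set M : ℤ := 2 ^ (k + 2) with hM
    have hMe : Even M := by
      rw [hM, pow_succ]
      exact even_two.mul_left _
    have hM2 : Even ((2 : ℤ) ^ (k + 2 - 1)) := by
      rw [show k + 2 - 1 = k + 1 by omega, pow_succ]
      exact even_two.mul_left _
    have hMM : M = 2 ^ (k + 2 - 1) * 2 := by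
      rw [hM, show k + 2 - 1 = k + 1 by omega, ← pow_succ]
    -- periodicity at both levels
    have per1 : ∀ b c : ℤ, M ∣ b - c → th (2 ^ (k + 2)) b = th (2 ^ (k + 2)) c := by
      intro b c h
      apply th_congr
      push_cast
      exact h
    have per2 : ∀ b c : ℤ, 2 * M ∣ b - c → th (2 ^ (k + 2 + 1)) b = th (2 ^ (k + 2 + 1)) c := by
      intro b c h
      apply th_congr
      push_cast
      rw [pow_succ]
      rw [mul_comm] at h
      exact h
    -- images of the lower level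
    have hb : ∀ g' : ℤ, M ∣ g' - g → ∀ c : ℤ, Odd c →
        U (φ (th (2 ^ (k + 2)) c)) = φ' (th (2 ^ (k + 2)) (g' * c)) := by
      intro g' hg' c hc
      rw [ih c hc]
      congr 1
      apply per1
      have : g * c - g' * c = -((g' - g) * c) := by ring
      rw [this, dvd_neg]
      exact hg'.mul_right _
    have hsplit : ∀ c : ℤ, Odd c → th (2 ^ (k + 2 + 1)) (c + M) =
        th (2 ^ (k + 2)) c - th (2 ^ (k + 2 + 1)) c := by
      intro c hc
      rw [← hq.split (k + 2) c hc]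
      ring
    have hprod : ∀ c : ℤ, Odd c → th (2 ^ (k + 2 + 1)) c * th (2 ^ (k + 2 + 1)) (c + M) =
        Db ^ 2 ^ (2 * (k + 2) - 1) * th (2 ^ (k + 2)) (c + 2 ^ (k + 2 - 1)) ^ 2 :=
      fun c hc => hq.prod (k + 2) c (by omega) hc
    -- the image of `th 1`
    obtain ⟨g', hg', hd, h1⟩ : ∃ g' : ℤ, Odd g' ∧ M ∣ g' - g ∧
        U (φ (th (2 ^ (k + 2 + 1)) 1)) = φ' (th (2 ^ (k + 2 + 1)) g') := by
      have s1 := congrArg (fun z => U (φ z)) (hsplit 1 odd_one)
      have s2 := congrArg φ' (hsplit g hg)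
      have p1 := congrArg (fun z => U (φ z)) (hprod 1 odd_one)
      have p2 := congrArg φ' (hprod g hg)
      simp only [map_mul, map_sub, map_pow, hU] at s1 s2 p1 p2
      have o1 : Odd (1 + (2 : ℤ) ^ (k + 2 - 1)) := odd_one.add_even hM2
      rw [ih _ o1] at p1
      rw [ih 1 odd_one, mul_one] at s1
      have e1 : th (2 ^ (k + 2)) (g * (1 + 2 ^ (k + 2 - 1))) =
          th (2 ^ (k + 2)) (g + 2 ^ (k + 2 - 1)) := by
        apply per1
        obtain ⟨d, hd⟩ := hg
        exact ⟨d, by rw [hMM, hd]; ring⟩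
      rw [e1] at p1
      have h3 : (U (φ (th (2 ^ (k + 2 + 1)) 1)) - φ' (th (2 ^ (k + 2 + 1)) g)) *
          (U (φ (th (2 ^ (k + 2 + 1)) 1)) - φ' (th (2 ^ (k + 2 + 1)) (g + M))) = 0 := by
        rw [s1] at p1
        rw [s2] at p2 ⊢
        linear_combination p2 - p1
      rcases mul_eq_zero.1 h3 with h4 | h4
      · exact ⟨g, hg, by simp, sub_eq_zero.1 h4⟩
      · exact ⟨g + M, hg.add_even hMe, by simp, sub_eq_zero.1 h4⟩
    refine ⟨g', hg', ?_⟩
    -- closure properties
    have c_add : ∀ c : ℤ, Odd c → U (φ (th (2 ^ (k + 2 + 1)) c)) =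
        φ' (th (2 ^ (k + 2 + 1)) (g' * c)) →
        U (φ (th (2 ^ (k + 2 + 1)) (c + M))) = φ' (th (2 ^ (k + 2 + 1)) (g' * (c + M))) := by
      intro c hc h
      rw [hsplit c hc, map_sub, map_sub, h, hb g' hd c hc]
      have e1 : th (2 ^ (k + 2 + 1)) (g' * (c + M)) = th (2 ^ (k + 2 + 1)) (g' * c + M) := by
        apply per2
        obtain ⟨d, hd⟩ := hg'
        exact ⟨d, by rw [hd]; ring⟩
      rw [e1, hsplit _ (hg'.mul hc), map_sub]
    have c_per : ∀ c c' : ℤ, 2 * M ∣ c - c' → U (φ (th (2 ^ (k + 2 + 1)) c')) =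
        φ' (th (2 ^ (k + 2 + 1)) (g' * c')) →
        U (φ (th (2 ^ (k + 2 + 1)) c)) = φ' (th (2 ^ (k + 2 + 1)) (g' * c)) := by
      intro c c' h h'
      rw [per2 c c' h, h']
      congr 1
      apply per2
      have : g' * c' - g' * c = -(g' * (c - c')) := by ring
      rw [this, dvd_neg]
      exact h.mul_left _
    have c_neg : ∀ c : ℤ, U (φ (th (2 ^ (k + 2 + 1)) c)) = φ' (th (2 ^ (k + 2 + 1)) (g' * c)) →
        U (φ (th (2 ^ (k + 2 + 1)) (-c))) = φ' (th (2 ^ (k + 2 + 1)) (g' * (-c))) := by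
      intro c h
      rw [th_neg, mul_neg, th_neg, h]
    have c_three : ∀ c : ℤ, Odd c → U (φ (th (2 ^ (k + 2 + 1)) c)) =
        φ' (th (2 ^ (k + 2 + 1)) (g' * c)) →
        U (φ (th (2 ^ (k + 2 + 1)) (3 * c))) = φ' (th (2 ^ (k + 2 + 1)) (g' * (3 * c))) := by
      intro c hc h
      have t1 := congrArg (fun z => U (φ z)) (triple (k + 2) c (by omega))
      have t2 := congrArg φ' (triple (k + 2) (g' * c) (by omega))
      have h5 := c_add c hc h
      have o2 : Odd (c + (2 : ℤ) ^ (k + 2 - 1)) := hc.add_even hM2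
      rw [← hM] at t1 t2
      simp only [map_mul, map_add, map_pow] at t1 t2
      rw [h, h5, hb g' hd c hc, hb g' hd _ o2] at t1
      have e1 : th (2 ^ (k + 2)) (g' * (c + 2 ^ (k + 2 - 1))) =
          th (2 ^ (k + 2)) (g' * c + 2 ^ (k + 2 - 1)) := by
        apply per1
        obtain ⟨d, hd⟩ := hg'
        exact ⟨d, by rw [hMM, hd]; ring⟩
      have e2 : th (2 ^ (k + 2 + 1)) (g' * (c + M)) = th (2 ^ (k + 2 + 1)) (g' * c + M) := by
        apply per2
        obtain ⟨d, hd⟩ := hg'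
        exact ⟨d, by rw [hd]; ring⟩
      rw [e1, e2] at t1
      have hne : φ' (th (2 ^ (k + 2 + 1)) (g' * c)) ≠ 0 := by
        rw [Ne, map_eq_zero_iff φ' hφ']
        exact th_ne (k + 1) _ (hg'.mul hc)
      apply mul_left_cancel₀ hne
      rw [t1, ← t2]
      congr 3
      ring
    have c_pow : ∀ j : ℕ, U (φ (th (2 ^ (k + 2 + 1)) (3 ^ j))) =
        φ' (th (2 ^ (k + 2 + 1)) (g' * 3 ^ j)) := by
      intro j
      induction j with
      | zero =>
        rw [pow_zero, mul_one, h1]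
      | succ j ihj =>
        have := c_three (3 ^ j) (Odd.pow (by decide)) ihj
        rw [pow_succ (3 : ℤ) j, mul_comm ((3 : ℤ) ^ j) 3]
        exact this
    intro c hc
    obtain ⟨j, hj⟩ := odd_gen (k + 2 + 1) c hc
    have e3 : (2 : ℤ) ^ (k + 2 + 1) = 2 * M := by rw [hM, pow_succ]; ring
    rw [e3] at hj
    rcases hj with hj | hj
    · exact c_per c (3 ^ j) hj (c_pow j)
    · refine c_per c (-3 ^ j) (by rw [sub_neg_eq_add]; exact hj) ?_
      exact c_neg _ (c_pow j)

end Pool.Agent.K7.H91.SQ
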