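import Pool.Agent.K7.H91.SQ.EtaW

set_option autoImplicit false

/-!
# The finite set, and the action on the sections of the eta-quotient
-/

namespace Pool.Agent.K7.H91.SQ

open PowerSeries Pool.Agent.TH693.QQ Pool.Agent.H397R2.PP Pool.Agent.Y627.PT
open Pool.Agent.TH693.PP (S E)
open Pool.Agent.R836.RD Pool.Agent.R836.RD.FINBaux

theorem Ie.of_pow {t x : OB} {n : ℕ} (hn : 0 < n) (h : Ie t (x ^ n)) : Ie t x := by
  letI : Algebra (Polynomial kk) OB := ((Polynomial.aeval t : Polynomial kk →ₐ[kk] OB) :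
    Polynomial kk →+* OB).toAlgebra
  exact IsIntegral.of_pow (R := Polynomial kk) hn h

/-- the values at the vertices -/
def XV (L : ℕ) : Set OB :=
  {x | ∃ (c : kk) (j k : ℕ), c ≠ 0 ∧ j * k = L ∧ c ^ k = 1 ∧ x = dB c j}

/-- the values of `e` -/
def XE (L : ℕ) : Set OB :=
  {x | ∃ (c : kk) (j k : ℕ), c ≠ 0 ∧ 3 * j * k = L ∧ (c ^ 3) ^ k = 1 ∧ x = io' (eO c j)}

/-- the parts of `D` modulo `2 ^ (b + 3)` -/
def XP (L b : ℕ) : Set OB :=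
  Set.range fun γ : ZMod (2 ^ (b + 3)) => io' (prO (b + 3) γ (dO 1 L))

theorem roots_finite {L : ℕ} (hL : 0 < L) : {c : kk | c ^ L = 1}.Finite := by
  classical
  refine ((Polynomial.nthRoots L (1 : kk)).toFinset.finite_toSet).subset fun c hc => ?_
  rw [Finset.mem_coe, Multiset.mem_toFinset, Polynomial.mem_nthRoots hL]
  exact hc

theorem XV_finite {L : ℕ} (hL : 0 < L) : (XV L).Finite := by
  refine (((roots_finite hL).prod (Finset.range (L + 1)).finite_toSet).image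
    fun p : kk × ℕ => dB p.1 p.2).subset ?_
  rintro x ⟨c, j, k, -, hjk, hck, rfl⟩
  refine ⟨(c, j), ⟨?_, ?_⟩, rfl⟩
  · show c ^ L = 1
    rw [← hjk, mul_comm, pow_mul, hck, one_pow]
  · rw [Finset.mem_coe, Finset.mem_range, Nat.lt_succ_iff, ← hjk]
    refine Nat.le_mul_of_pos_right _ (Nat.pos_of_ne_zero ?_)
    rintro rfl
    omega

theorem XE_finite {L : ℕ} (hL : 0 < L) : (XE L).Finite := by
  refine (((roots_finite hL).prod (Finset.range (L + 1)).finite_toSet).image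
    fun p : kk × ℕ => io' (eO p.1 p.2)).subset ?_
  rintro x ⟨c, j, k, -, hjk, hck, rfl⟩
  refine ⟨(c, j), ⟨?_, ?_⟩, rfl⟩
  · show c ^ L = 1
    have : c ^ L = ((c ^ 3) ^ k) ^ j := by
      rw [← pow_mul, ← pow_mul, ← hjk]
      congr 1
      ring
    rw [this, hck, one_pow]
  · rw [Finset.mem_coe, Finset.mem_range, Nat.lt_succ_iff, ← hjk]
    have hk : 0 < k := Nat.pos_of_ne_zero (by rintro rfl; omega)
    nlinarith [Nat.zero_le j, Nat.mul_le_mul_left j hk]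

theorem XP_finite (L b : ℕ) : (XP L b).Finite := Set.finite_range _

theorem XV_ie {L : ℕ} (hL : Odd L) {x : OB} (hx : x ∈ XV L) : Ie (dB 1 L) x := by
  obtain ⟨c, j, k, hc, hjk, hck, rfl⟩ := hx
  exact ie_vertex hL k c j hc hjk hck

theorem ie_eO {L : ℕ} (hL : Odd L) {c : kk} {j k : ℕ} (hc : c ≠ 0) (hjk : 3 * j * k = L)
    (hck : (c ^ 3) ^ k = 1) : Ie (dB 1 L) (io' (eO c j)) := by
  have hj : j ≠ 0 := by
    rintro rfl
    have := hL.pos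
    omega
  apply Ie.of_pow (n := 3) (by norm_num)
  rw [← map_pow, eim_cube ee.1 c j hj]
  exact ie_vertex hL k (c ^ 3) (3 * j) (pow_ne_zero _ hc) hjk hck

theorem XE_ie {L : ℕ} (hL : Odd L) {x : OB} (hx : x ∈ XE L) : Ie (dB 1 L) x := by
  obtain ⟨c, j, k, hc, hjk, hck, rfl⟩ := hx
  exact ie_eO hL hc hjk hck

theorem XP_ie {L b : ℕ} (hL : Odd L) {x : OB} (hx : x ∈ XP L b) : Ie (dB 1 L) x := by
  obtain ⟨γ, rfl⟩ := hx
  have h1 := ((gdd_D L hL.pos.ne' (b + 3)) γ).1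
  have h2 := h1.mul (ie_self (dB 1 L))
  have e1 : Xn (b + 3) γ (dO 1 L) * dB 1 L = io' (prO (b + 3) γ (dO 1 L)) := by
    unfold Xn
    exact div_mul_cancel₀ _ (dB_ne L hL.pos.ne')
  rw [e1] at h2
  exact h2

theorem X_finite {L : ℕ} (hL : 0 < L) (b : ℕ) : (XV L ∪ XE L ∪ XP L b).Finite :=
  ((XV_finite hL).union (XE_finite hL)).union (XP_finite L b)

theorem CompT.sum {κ : ℕ} {ρ : OB ≃ₐ[kk] OB} {u : ZMod (2 ^ κ)} {ι : Type} (s : Finset ι)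
    (f f' : ι → Om) (h : ∀ i ∈ s, CompT κ ρ u (f i) (f' i)) :
    CompT κ ρ u (∑ i ∈ s, f i) (∑ i ∈ s, f' i) := by
  intro γ
  rw [DEL813.prO_sum, DEL813.prO_sum, map_sum, map_sum, map_sum]
  exact Finset.sum_congr rfl fun i hi => h i hi γ

theorem CompT.C_mul {κ : ℕ} {ρ : OB ≃ₐ[kk] OB} {u : ZMod (2 ^ κ)} (a : kk) {f f' : Om}
    (h : CompT κ ρ u f f') : CompT κ ρ u (HahnSeries.C a * f) (HahnSeries.C a * f') := by
  intro γ
  rw [eim_prO_C, eim_prO_C, map_mul, map_mul, map_mul, fix_C, h γ]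

/-- the action of an automorphism that fixes the finite set -/
theorem act_all {L : ℕ} (hL : Odd L) {b m : ℕ} (hm : b ≤ m) {ρ : OB ≃ₐ[kk] OB}
    (hρ : ρ (dB 1 L) = dB 1 L) (hX : ∀ x ∈ XV L ∪ XE L ∪ XP L b, ρ x = x) :
    ∃ (g : ℤ) (u : (ZMod (2 ^ (m + 3)))ˣ), Odd g ∧ (u : ZMod (2 ^ (m + 3))) = (g : ZMod (2 ^ (m + 3))) ^ 2 ∧
      CompT (m + 3) ρ u (dO 1 L) (dO 1 L) ∧
      (∀ (c : kk) (j k : ℕ), c ≠ 0 → 3 * j * k = L → (c ^ 3) ^ k = 1 →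
        CompT (m + 3) ρ u (eO c j) (eO c j)) ∧
      ∀ x : ℤ, (2 : ℤ) ^ (b + 3) ∣ g ^ 2 * x - x := by
  obtain ⟨g, hg, hact⟩ := act_part 1 hL.pos.ne' 1 m ρ one_ne_zero hρ
  obtain ⟨u, hu⟩ := (isUnit_odd (m + 3) hg).pow 2
  rw [← hu] at hact
  have hD := link_D hL hact (fun c j k hc hjk hck =>
    hX _ (Or.inl (Or.inl ⟨c, j, k, hc, hjk, hck, rfl⟩)))
  refine ⟨g, u, hg, hu, hact, ?_, ?_⟩
  · intro c j k hc hjk hck
    have hj : j ≠ 0 := by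
      rintro rfl
      have := hL.pos
      omega
    exact link_E hc hj (hD k (c ^ 3) (3 * j) (pow_ne_zero _ hc) hjk hck)
      (hX _ (Or.inl (Or.inr ⟨c, j, k, hc, hjk, hck, rfl⟩)))
  · intro x
    have h1 := hact.coarse (show b + 3 ≤ m + 3 by omega)
    have h2 := mult_one hL h1 (hX _ (Or.inr ⟨_, rfl⟩))
    rw [hu, map_pow, map_intCast] at h2
    have h3 : ((x : ℤ) : ZMod (2 ^ (b + 3))) = ((g ^ 2 * x : ℤ) : ZMod (2 ^ (b + 3))) := by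
      push_cast
      rw [h2, one_mul]
    rw [cast_eq_iff] at h3
    exact h3

theorem comp_W {L : ℕ} {κ : ℕ} {ρ : OB ≃ₐ[kk] OB} {u : (ZMod (2 ^ κ))ˣ} {D : Finset ℕ} {j : ℕ → ℕ}
    (hj : ∀ d ∈ D, j d ≠ 0)
    (hE : ∀ (c : kk) (j k : ℕ), c ≠ 0 → 3 * j * k = L → (c ^ 3) ^ k = 1 →
        CompT κ ρ u (eO c j) (eO c j)) (z : ℕ → ℤ) {m0 : ℕ} (hLm : L = 3 * m0 * ∏ d ∈ D, j d)
    {c : kk} (hc : c ≠ 0) (hcm : c ^ m0 = 1) : CompT κ ρ u (Wf D j z c) (Wf D j z c) := by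
  classical
  unfold Wf
  refine CompT.prod D _ _ fun d hd => ?_
  refine CompT.zpow ?_ (GabP.eO_ne _ (pow_ne_zero _ hc) _ (hj d hd)) _
  have hk : 3 * j d * (m0 * ∏ e ∈ D.erase d, j e) = L := by
    rw [hLm, ← Finset.mul_prod_erase D j hd]
    ring
  refine hE _ _ (m0 * ∏ e ∈ D.erase d, j e) (pow_ne_zero _ hc) hk ?_
  have e1 : (((c ^ j d) ^ 3) ^ (m0 * ∏ e ∈ D.erase d, j e)) =
      (c ^ m0) ^ (j d * 3 * ∏ e ∈ D.erase d, j e) := by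
    rw [← pow_mul, ← pow_mul, ← pow_mul]
    congr 1
    ring
  rw [e1, hcm, one_pow]

theorem comp_V {L : ℕ} {κ : ℕ} {ρ : OB ≃ₐ[kk] OB} {u : (ZMod (2 ^ κ))ˣ} {D : Finset ℕ} {j : ℕ → ℕ}
    (hj : ∀ d ∈ D, j d ≠ 0)
    (hE : ∀ (c : kk) (j k : ℕ), c ≠ 0 → 3 * j * k = L → (c ^ 3) ^ k = 1 →
        CompT κ ρ u (eO c j) (eO c j)) (z : ℕ → ℤ) {m0 : ℕ} (hLm : L = 3 * m0 * ∏ d ∈ D, j d)
    {ζ : kk} (hζ0 : ζ ≠ 0) (hζ : ζ ^ m0 = 1) (N0 : ℤ) :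
    CompT κ ρ u (Vf D j z ζ m0 N0) (Vf D j z ζ m0 N0) := by
  unfold Vf
  refine CompT.sum _ _ _ fun i _ => CompT.C_mul _ ?_
  refine comp_W hj hE z hLm (pow_ne_zero _ hζ0) ?_
  rw [← pow_mul, mul_comm, pow_mul, hζ, one_pow]

/-- degrees of the sections -/
theorem deg_V {L : ℕ} (hL : Odd L) {D : Finset ℕ} {j : ℕ → ℕ} (hj : ∀ d ∈ D, j d ≠ 0) (z : ℕ → ℤ)
    {m0 : ℕ} (hLm : L = 3 * m0 * ∏ d ∈ D, j d) {ζ : kk} (hζ0 : ζ ≠ 0) (hζ : ζ ^ m0 = 1) :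
    ∃ (A : Polynomial kk) (C : ℕ), A ≠ 0 ∧ ∀ (N0 : ℤ) (κ : ℕ) (γ : ZMod (2 ^ κ)),
      Ie (dB 1 L) (io' (prO κ γ (Vf D j z ζ m0 N0)) / io' (Wf D j z 1) *
        Polynomial.aeval (dB 1 L) A) ∧
      Ie (dB 1 L)⁻¹ (io' (prO κ γ (Vf D j z ζ m0 N0)) / io' (Wf D j z 1) *
        Polynomial.aeval (dB 1 L) A * (dB 1 L)⁻¹ ^ (C * 4 ^ κ)) := by
  classical
  set t := dB 1 L with ht
  have hL0 : L ≠ 0 := hL.pos.ne'
  have ht0 : t ≠ 0 := dB_ne L hL0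
  have htr : Transcendental kk t := EX0Aux.trans_D L hL0
  -- the vertices
  have hvert : ∀ (c : kk), c ^ m0 = 1 → ∀ d ∈ D,
      3 * j d * (m0 * ∏ e ∈ D.erase d, j e) = L ∧
      ((c ^ j d) ^ 3) ^ (m0 * ∏ e ∈ D.erase d, j e) = 1 := by
    intro c hcm d hd
    refine ⟨by rw [hLm, ← Finset.mul_prod_erase D j hd]; ring, ?_⟩
    have e1 : (((c ^ j d) ^ 3) ^ (m0 * ∏ e ∈ D.erase d, j e)) =
        (c ^ m0) ^ (j d * 3 * ∏ e ∈ D.erase d, j e) := by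
      rw [← pow_mul, ← pow_mul, ← pow_mul]
      congr 1
      ring
    rw [e1, hcm, one_pow]
  have hWne : ∀ c : kk, c ≠ 0 → io' (Wf D j z c) ≠ 0 := by
    intro c hc
    rw [Ne, _root_.map_eq_zero]
    unfold Wf
    exact Finset.prod_ne_zero_iff.2 fun d hd =>
      zpow_ne_zero _ (GabP.eO_ne _ (pow_ne_zero _ hc) _ (hj d hd))
  -- the functions at one point
  have hG : ∀ c : kk, c ≠ 0 → c ^ m0 = 1 → ∃ C : ℕ, ∀ κ, Gdd t κ (Wf D j z c) (C * 4 ^ κ) := by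
    intro c hc hcm
    have h1 : ∀ d ∈ D, ∃ C : ℕ, ∀ κ, Gdd t κ (eO (c ^ j d) (j d) ^ z d) (C * 4 ^ κ) := by
      intro d hd
      obtain ⟨h2, h3⟩ := hvert c hcm d hd
      have h4 : Ie t (dB ((c ^ j d) ^ 3) (3 * j d)) :=
        ie_vertex hL _ _ _ (pow_ne_zero _ (pow_ne_zero _ hc)) h2 h3
      obtain ⟨C, hC⟩ := ie_inv ht0 h4
      refine ⟨C, fun κ => ?_⟩
      exact (gdd_E ht0 (pow_ne_zero _ hc) (hj d hd) h4 hC κ (z d)).mono
        (Nat.mul_le_mul_left _ (dl_le κ))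
    choose! C hC using h1
    refine ⟨∑ d ∈ D, C d, fun κ => ?_⟩
    rw [Finset.sum_mul]
    exact gdd_prod D _ _ fun d hd => hC d hd κ
  have hA : ∀ c : kk, c ≠ 0 → c ^ m0 = 1 → Al t (io' (Wf D j z c) / io' (Wf D j z 1)) := by
    intro c hc hcm
    have e1 : io' (Wf D j z c) / io' (Wf D j z 1) =
        (∏ d ∈ D, io' (eO (c ^ j d) (j d)) ^ z d) *
        ∏ d ∈ D, io' (eO ((1 : kk) ^ j d) (j d)) ^ (-z d) := by
      unfold Wf
      rw [map_prod, map_prod, div_eq_mul_inv, ← Finset.prod_inv_distrib]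
      congr 1
      · exact Finset.prod_congr rfl fun d _ => map_zpow₀ io' _ _
      · refine Finset.prod_congr rfl fun d _ => ?_
        rw [map_zpow₀, zpow_neg]
    rw [e1]
    refine Al.mul (Al.prod _ _ fun d hd => ?_) (Al.prod _ _ fun d hd => ?_)
    · obtain ⟨h2, h3⟩ := hvert c hcm d hd
      exact al_zpow htr (ie_eO hL (pow_ne_zero _ hc) h2 h3) _
    · obtain ⟨h2, h3⟩ := hvert 1 (one_pow _) d hd
      exact al_zpow htr (ie_eO hL (pow_ne_zero _ one_ne_zero) h2 h3) _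
  have hpow : ∀ i : ℕ, (ζ ^ i) ≠ 0 ∧ (ζ ^ i) ^ m0 = 1 := fun i =>
    ⟨pow_ne_zero _ hζ0, by rw [← pow_mul, mul_comm, pow_mul, hζ, one_pow]⟩
  choose C1 hC1 using fun i : ℕ => hG (ζ ^ i) (hpow i).1 (hpow i).2
  choose A hA0 hA1 using fun i : ℕ => hA (ζ ^ i) (hpow i).1 (hpow i).2
  choose C2 hC2 using fun i : ℕ => ie_inv ht0 (hA1 i)
  -- the product of the polynomials
  set A0 := ∏ i ∈ Finset.range m0, A i with hA0'
  have hsplit : ∀ i ∈ Finset.range m0, A0 = A i * ∏ k ∈ (Finset.range m0).erase i, A k := by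
    intro i hi
    rw [hA0', Finset.mul_prod_erase _ _ hi]
  set DD := fun i : ℕ => (∏ k ∈ (Finset.range m0).erase i, A k).natDegree with hDD
  set Cm := ∑ i ∈ Finset.range m0, (C1 i + C2 i + DD i) with hCm
  refine ⟨A0, Cm, Finset.prod_ne_zero_iff.2 fun i _ => hA0 i, fun N0 κ γ => ?_⟩
  have hsum : io' (prO κ γ (Vf D j z ζ m0 N0)) / io' (Wf D j z 1) * Polynomial.aeval t A0 =
      ∑ i ∈ Finset.range m0, algebraMap kk OB ((ζ ^ i) ^ (-N0)) *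
        (Xn κ γ (Wf D j z (ζ ^ i)) *
          (Polynomial.aeval t (A i) * (io' (Wf D j z (ζ ^ i)) / io' (Wf D j z 1))) *
          Polynomial.aeval t (∏ k ∈ (Finset.range m0).erase i, A k)) := by
    unfold Vf
    rw [DEL813.prO_sum, map_sum, Finset.sum_div, Finset.sum_mul]
    refine Finset.sum_congr rfl fun i hi => ?_
    rw [eim_prO_C, map_mul, hsplit i hi, map_mul]
    have e1 : io' (HahnSeries.C ((ζ ^ i) ^ (-N0))) = algebraMap kk OB ((ζ ^ i) ^ (-N0)) := by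
      rw [EX0Aux.algMap, EX0Aux.algMap_Om]
      rfl
    have h0 := hWne (ζ ^ i) (hpow i).1
    have h1 := hWne 1 one_ne_zero
    rw [e1]
    unfold Xn
    field_simp
  rw [hsum]
  constructor
  · refine Ie.sum _ _ fun i _ => ?_
    exact (ie_C _ _).mul ((((hC1 i κ) γ).1.mul (hA1 i)).mul (ie_aeval _ _))
  · rw [Finset.sum_mul]
    refine Ie.sum _ _ fun i hi => ?_
    have hle : C1 i * 4 ^ κ + C2 i + DD i ≤ Cm * 4 ^ κ := by
      have h1 : C1 i + C2 i + DD i ≤ Cm :=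
        Finset.single_le_sum (f := fun i => C1 i + C2 i + DD i) (fun _ _ => Nat.zero_le _) hi
      have h4 : 1 ≤ 4 ^ κ := Nat.one_le_pow _ _ (by norm_num)
      calc C1 i * 4 ^ κ + C2 i + DD i ≤ C1 i * 4 ^ κ + C2 i * 4 ^ κ + DD i * 4 ^ κ := by
            have := Nat.mul_le_mul_left (C2 i) h4
            have := Nat.mul_le_mul_left (DD i) h4
            omega
        _ = (C1 i + C2 i + DD i) * 4 ^ κ := by ring
        _ ≤ Cm * 4 ^ κ := Nat.mul_le_mul_right _ h1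
    obtain ⟨r, hr⟩ := Nat.exists_eq_add_of_le hle
    have e1 : algebraMap kk OB ((ζ ^ i) ^ (-N0)) *
        (Xn κ γ (Wf D j z (ζ ^ i)) *
          (Polynomial.aeval t (A i) * (io' (Wf D j z (ζ ^ i)) / io' (Wf D j z 1))) *
          Polynomial.aeval t (∏ k ∈ (Finset.range m0).erase i, A k)) * t⁻¹ ^ (Cm * 4 ^ κ) =
        algebraMap kk OB ((ζ ^ i) ^ (-N0)) *
        ((Xn κ γ (Wf D j z (ζ ^ i)) * t⁻¹ ^ (C1 i * 4 ^ κ)) *
          (Polynomial.aeval t (A i) * (io' (Wf D j z (ζ ^ i)) / io' (Wf D j z 1)) * t⁻¹ ^ C2 i) *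
          (Polynomial.aeval t (∏ k ∈ (Finset.range m0).erase i, A k) * t⁻¹ ^ DD i)) * t⁻¹ ^ r := by
      rw [hr, pow_add, pow_add, pow_add]
      ring
    rw [e1]
    exact ((ie_C _ _).mul ((((hC1 i κ) γ).2.mul (hC2 i)).mul (ie_poly_inv ht0 _ le_rfl))).mul
      ((ie_self _).pow _)

end Pool.Agent.K7.H91.SQ
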