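import Mathlib

set_option autoImplicit false

/-!
# Counting from the sum of the least elements of the classes
-/

namespace Pool.Agent.K7.H91.SQ

open Finset

/-- if `n ρ ≡ ρ` modulo `2 ^ b` and the sum of the `n ρ` is at most `K`, then many `n ρ` in a class
modulo `2 ^ a` are at most `x` -/
theorem count_ge (A : ℕ → Prop) [DecidablePred A] (a b ρ0 x : ℕ) (hab : a ≤ b) (n : ℕ → ℕ)
    (h1 : ∀ ρ < 2 ^ b, n ρ ≡ ρ [MOD 2 ^ b]) (h2 : ∀ ρ < 2 ^ b, A (n ρ)) :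
    2 ^ (b - a) * (x + 1) ≤ ((range (x + 1)).filter fun n => n % 2 ^ a = ρ0 % 2 ^ a ∧ A n).card *
      (x + 1) + ∑ ρ ∈ range (2 ^ b), n ρ := by
  classical
  set R := (range (2 ^ b)).filter fun ρ => ρ % 2 ^ a = ρ0 % 2 ^ a with hR
  have hRc : R.card = 2 ^ (b - a) := by
    have hr : ρ0 % 2 ^ a < 2 ^ a := Nat.mod_lt _ (by positivity)
    have : R = (range (2 ^ (b - a))).image fun i => ρ0 % 2 ^ a + 2 ^ a * i := by
      ext ρ
      simp only [hR, mem_filter, mem_range, mem_image]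
      have e : 2 ^ b = 2 ^ a * 2 ^ (b - a) := by rw [← pow_add]; congr 1; omega
      constructor
      · rintro ⟨h3, h4⟩
        refine ⟨ρ / 2 ^ a, ?_, ?_⟩
        · rw [e] at h3
          exact Nat.div_lt_of_lt_mul h3
        · rw [← h4]
          exact Nat.mod_add_div ρ (2 ^ a)
      · rintro ⟨i, hi, rfl⟩
        refine ⟨?_, ?_⟩
        · rw [e]
          calc ρ0 % 2 ^ a + 2 ^ a * i < 2 ^ a + 2 ^ a * i := by omega
            _ = 2 ^ a * (i + 1) := by ring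
            _ ≤ 2 ^ a * 2 ^ (b - a) := Nat.mul_le_mul_left _ hi
        · rw [Nat.add_mul_mod_self_left, Nat.mod_mod]
    rw [this, card_image_of_injective, card_range]
    intro i j hij
    have hp : 0 < 2 ^ a := by positivity
    have h5 : 2 ^ a * i = 2 ^ a * j := by
      have : ρ0 % 2 ^ a + 2 ^ a * i = ρ0 % 2 ^ a + 2 ^ a * j := hij
      omega
    exact Nat.eq_of_mul_eq_mul_left hp h5
  have hRs : R ⊆ range (2 ^ b) := filter_subset _ _
  -- small and large elements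
  have h3 : (R.filter fun ρ => n ρ ≤ x).card ≤
      ((range (x + 1)).filter fun n => n % 2 ^ a = ρ0 % 2 ^ a ∧ A n).card := by
    apply card_le_card_of_injOn n
    · intro ρ hρ
      rw [mem_coe, mem_filter] at hρ
      obtain ⟨hρR, hρx⟩ := hρ
      rw [hR, mem_filter, mem_range] at hρR
      rw [mem_coe, mem_filter, mem_range]
      refine ⟨by omega, ?_, h2 ρ hρR.1⟩
      have h6 : n ρ ≡ ρ [MOD 2 ^ a] := (h1 ρ hρR.1).of_dvd (pow_dvd_pow 2 hab)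
      exact h6.trans hρR.2
    · intro ρ hρ ρ' hρ' h
      rw [mem_coe, mem_filter] at hρ hρ'
      have e1 := mem_range.1 (hRs hρ.1)
      have e2 := mem_range.1 (hRs hρ'.1)
      exact Nat.ModEq.eq_of_lt_of_lt ((h1 ρ e1).symm.trans (by rw [h]; exact h1 ρ' e2)) e1 e2
  have h4 : (R.filter fun ρ => ¬ n ρ ≤ x).card * (x + 1) ≤ ∑ ρ ∈ range (2 ^ b), n ρ := by
    calc (R.filter fun ρ => ¬ n ρ ≤ x).card * (x + 1)
        = ∑ _ρ ∈ R.filter fun ρ => ¬ n ρ ≤ x, (x + 1) := by rw [sum_const, smul_eq_mul]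
      _ ≤ ∑ ρ ∈ R.filter fun ρ => ¬ n ρ ≤ x, n ρ := by
          apply sum_le_sum
          intro ρ hρ
          rw [mem_filter] at hρ
          omega
      _ ≤ ∑ ρ ∈ range (2 ^ b), n ρ :=
          sum_le_sum_of_subset ((filter_subset _ _).trans hRs)
  have h5 := card_filter_add_card_filter_not (s := R) (fun ρ => n ρ ≤ x)
  rw [hRc] at h5
  calc 2 ^ (b - a) * (x + 1) = ((R.filter fun ρ => n ρ ≤ x).card +
        (R.filter fun ρ => ¬ n ρ ≤ x).card) * (x + 1) := by rw [h5]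
    _ = (R.filter fun ρ => n ρ ≤ x).card * (x + 1) +
        (R.filter fun ρ => ¬ n ρ ≤ x).card * (x + 1) := by ring
    _ ≤ _ := Nat.add_le_add (Nat.mul_le_mul_right _ h3) h4

/-- a power of 2 in a dyadic interval -/
theorem exists_pow {y : ℝ} (hy : 1 ≤ y) : ∃ b : ℕ, (2 : ℝ) ^ b ≤ y ∧ y < 2 * 2 ^ b := by
  obtain ⟨n, h1, h2⟩ := exists_nat_pow_near hy (by norm_num : (1 : ℝ) < 2)
  exact ⟨n, h1, by rw [pow_succ] at h2; linarith⟩

/-- the count in a class modulo `2 ^ a` -/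
theorem cnt_class (A : ℕ → Prop) [DecidablePred A]
    (h : ∀ b : ℕ, ∃ n : ℕ → ℕ, (∀ ρ < 2 ^ b, n ρ ≡ ρ [MOD 2 ^ b]) ∧ (∀ ρ < 2 ^ b, A (n ρ)) ∧
      3 * ∑ ρ ∈ range (2 ^ b), n ρ ≤ (2 ^ b) ^ 3) (a ρ0 x : ℕ) (hx : 8 ^ a ≤ x) :
    √((x : ℝ) / 8 ^ a) / 2 ≤
      (((range (x + 1)).filter fun n => n % 2 ^ a = ρ0 % 2 ^ a ∧ A n).card : ℝ) := by
  set s := √((x : ℝ) / 8 ^ a) with hs
  have h8 : (0 : ℝ) < 8 ^ a := by positivity
  have hx' : (8 : ℝ) ^ a ≤ x := by exact_mod_cast hx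
  have hs1 : 1 ≤ s := Real.one_le_sqrt.2 ((one_le_div h8).2 hx')
  have hs2 : s ^ 2 = x / 8 ^ a := Real.sq_sqrt (by positivity)
  -- `Q = 2 ^ (a + c)`, `2 ^ c ≤ (6 / 5) s < 2 ^ (c + 1)`
  obtain ⟨c, hc1, hc2⟩ := exists_pow (y := 6 / 5 * s) (by linarith)
  obtain ⟨n, h1, h2, h3⟩ := h (a + c)
  have h4 := count_ge A a (a + c) ρ0 x (Nat.le_add_right _ _) n h1 h2
  rw [Nat.add_sub_cancel_left] at h4
  set C := ((range (x + 1)).filter fun n => n % 2 ^ a = ρ0 % 2 ^ a ∧ A n).card with hC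
  set T := ∑ ρ ∈ range (2 ^ (a + c)), n ρ with hT
  have h5 : (2 : ℝ) ^ c * (x + 1) ≤ C * (x + 1) + T := by exact_mod_cast h4
  have h6 : 3 * (T : ℝ) ≤ (2 ^ (a + c)) ^ 3 := by exact_mod_cast h3
  have e1 : ((2 : ℝ) ^ (a + c)) ^ 3 = 8 ^ a * (2 ^ c) ^ 3 := by
    rw [pow_add, mul_pow, ← pow_mul, mul_comm a 3, pow_mul]
    norm_num
  rw [e1] at h6
  set q := (2 : ℝ) ^ c with hq
  have hq0 : 0 < q := by positivity
  have hxs : (x : ℝ) = 8 ^ a * s ^ 2 := by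
    rw [hs2]
    field_simp
  have h7 : q * (3 * (x + 1)) - 8 ^ a * q ^ 3 ≤ C * (3 * (x + 1)) := by linarith
  have h9 : 6 * q * s ^ 2 - 2 * q ^ 3 - 3 * s ^ 3 ≥ 0 := by
    have u : 0 ≤ q - 3 / 5 * s := by linarith
    have v : 0 ≤ 6 / 5 * s - q := by linarith
    have p1 : 0 ≤ (q - 3 / 5 * s) * (6 / 5 * s - q) * (q + 9 / 5 * s) := by positivity
    have p2 : 0 ≤ s ^ 3 := by positivity
    have p3 : 0 ≤ s ^ 2 * (q - 3 / 5 * s) := by positivity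
    nlinarith
  by_contra hcon
  push Not at hcon
  have h10 : (C : ℝ) * (3 * (x + 1)) < s / 2 * (3 * (x + 1)) := by
    apply mul_lt_mul_of_pos_right hcon
    positivity
  have h11 : s / 2 ≤ q := by linarith
  have h12 : 0 ≤ 8 ^ a * (6 * q * s ^ 2 - 2 * q ^ 3 - 3 * s ^ 3) := mul_nonneg h8.le h9
  rw [hxs] at h7 h10
  nlinarith

end Pool.Agent.K7.H91.SQ
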