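import Mathlib

set_option autoImplicit false

/-!
# Counting from sets with small sums
-/

namespace Pool.Agent.K7.H91.SQ

open Finset

/-- if for all large `κ` there are at least `2 ^ κ / c1` places with average at most `c2 4 ^ κ`, then
there are at least `c √x` places up to `x` -/
theorem count_abs (A : ℕ → Prop) [DecidablePred A] (c1 c2 κ0 : ℕ)
    (h : ∀ κ, κ0 ≤ κ → ∃ T : Finset ℕ, (∀ n ∈ T, A n) ∧ 2 ^ κ ≤ c1 * T.card ∧
      ∑ n ∈ T, n ≤ c2 * 4 ^ κ * T.card) :
    ∃ c : ℝ, 0 < c ∧ ∃ x₀ : ℕ, ∀ x : ℕ, x₀ ≤ x → c * √(x : ℝ) ≤ (((range (x + 1)).filter A).card : ℝ) := by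
  classical
  have hc1 : 0 < c1 := by
    obtain ⟨T, -, h1, -⟩ := h κ0 le_rfl
    rcases Nat.eq_zero_or_pos c1 with h0 | h0
    · rw [h0, zero_mul] at h1
      have : 0 < 2 ^ κ0 := by positivity
      omega
    · exact h0
  set B : ℕ := 2 * (c2 + 1) with hB
  have hB0 : (0 : ℝ) < B := by rw [hB]; positivity
  have hs0 : 0 < √(B : ℝ) := Real.sqrt_pos.2 hB0
  have hc1' : (0 : ℝ) < c1 := by exact_mod_cast hc1
  refine ⟨1 / (4 * c1 * √(B : ℝ)), by positivity, B * 4 ^ κ0, fun x hx => ?_⟩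
  have hy : (1 : ℝ) ≤ x / (B * 4 ^ κ0) := by
    rw [one_le_div (by positivity)]
    exact_mod_cast hx
  obtain ⟨n, h1, h2⟩ := exists_nat_pow_near hy (by norm_num : (1 : ℝ) < 4)
  rw [le_div_iff₀ (by positivity)] at h1
  rw [div_lt_iff₀ (by positivity)] at h2
  obtain ⟨T, hT1, hT2, hT3⟩ := h (κ0 + n) (Nat.le_add_right _ _)
  set q : ℕ := 2 ^ (κ0 + n) with hq
  have hq4 : 4 ^ (κ0 + n) = q * q := by rw [hq, ← pow_two, ← pow_mul, mul_comm (κ0 + n) 2, pow_mul]; norm_num
  have hxB : B * (q * q) ≤ x := by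
    rw [← hq4, pow_add]
    have : (B : ℝ) * (4 ^ κ0 * 4 ^ n) ≤ x := by
      calc (B : ℝ) * (4 ^ κ0 * 4 ^ n) = 4 ^ n * (B * 4 ^ κ0) := by ring
        _ ≤ x := h1
    exact_mod_cast this
  have hxB' : (x : ℝ) < B * (2 * q) ^ 2 := by
    have e1 : (q : ℝ) * q = 4 ^ κ0 * 4 ^ n := by
      rw [← pow_add]
      exact_mod_cast hq4.symm
    calc (x : ℝ) < 4 ^ (n + 1) * (B * 4 ^ κ0) := h2
      _ = B * (4 * (4 ^ κ0 * 4 ^ n)) := by ring
      _ = B * (2 * q) ^ 2 := by rw [← e1]; ring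
  -- small elements
  set T' := T.filter fun n => n ≤ x with hT'
  have h3 : T'.card ≤ ((range (x + 1)).filter A).card := by
    apply card_le_card
    intro n hn
    rw [hT', mem_filter] at hn
    rw [mem_filter, mem_range]
    exact ⟨by omega, hT1 n hn.1⟩
  have h4 : (T.filter fun n => ¬ n ≤ x).card * x ≤ ∑ n ∈ T, n := by
    calc (T.filter fun n => ¬ n ≤ x).card * x
        = ∑ _n ∈ T.filter fun n => ¬ n ≤ x, x := by rw [sum_const, smul_eq_mul]
      _ ≤ ∑ n ∈ T.filter fun n => ¬ n ≤ x, n := by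
          apply sum_le_sum
          intro n hn
          rw [mem_filter] at hn
          omega
      _ ≤ ∑ n ∈ T, n := sum_le_sum_of_subset (filter_subset _ _)
  have h5 := card_filter_add_card_filter_not (s := T) (fun n => n ≤ x)
  rw [← hT'] at h5
  set T2 := (T.filter fun n => ¬ n ≤ x).card with hT2'
  have hq0 : 0 < q := by positivity
  have h6 : T2 * (2 * (q * q)) ≤ T.card * (q * q) := by
    have h7 : T2 * (B * (q * q)) ≤ c2 * (q * q) * T.card := by
      rw [← hq4] at hxB ⊢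
      exact (Nat.mul_le_mul_left _ hxB).trans (h4.trans hT3)
    have h8 : (c2 + 1) * (T2 * (2 * (q * q))) ≤ (c2 + 1) * (T.card * (q * q)) := by
      calc (c2 + 1) * (T2 * (2 * (q * q))) = T2 * (B * (q * q)) := by rw [hB]; ring
        _ ≤ c2 * (q * q) * T.card := h7
        _ ≤ (c2 + 1) * (T.card * (q * q)) := by
            have : c2 * (q * q) * T.card = c2 * (T.card * (q * q)) := by ring
            rw [this]
            exact Nat.mul_le_mul_right _ (Nat.le_succ _)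
    exact Nat.le_of_mul_le_mul_left h8 (Nat.succ_pos _)
  have h9 : 2 * T2 ≤ T.card := by
    have : (2 * T2) * (q * q) ≤ T.card * (q * q) := by
      calc (2 * T2) * (q * q) = T2 * (2 * (q * q)) := by ring
        _ ≤ _ := h6
    exact Nat.le_of_mul_le_mul_right this (Nat.mul_pos hq0 hq0)
  have h10 : T.card ≤ 2 * T'.card := by omega
  have h11 : q ≤ 2 * c1 * ((range (x + 1)).filter A).card := by
    calc q ≤ c1 * T.card := hT2
      _ ≤ c1 * (2 * ((range (x + 1)).filter A).card) := Nat.mul_le_mul_left _ (by omega)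
      _ = _ := by ring
  have h12 : √(x : ℝ) ≤ √(B : ℝ) * (2 * q) := by
    rw [← Real.sqrt_sq (show (0 : ℝ) ≤ 2 * q by positivity), ← Real.sqrt_mul hB0.le]
    exact Real.sqrt_le_sqrt hxB'.le
  have h13 : (q : ℝ) ≤ 2 * c1 * ((range (x + 1)).filter A).card := by exact_mod_cast h11
  rw [one_div, inv_mul_le_iff₀ (by positivity)]
  calc √(x : ℝ) ≤ √(B : ℝ) * (2 * q) := h12
    _ ≤ √(B : ℝ) * (2 * (2 * c1 * ((range (x + 1)).filter A).card)) := by gcongr
    _ = 4 * c1 * √(B : ℝ) * ((range (x + 1)).filter A).card := by ring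

end Pool.Agent.K7.H91.SQ
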