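import Pool.Agent.K7.H91.SQ.Norm
import Pool.Agent.R836.RD.EX0

set_option autoImplicit false

/-!
# The parts of a power of `D`, divided by the power: integrality, and the degree at infinity
-/

namespace Pool.Agent.K7.H91.SQ

open PowerSeries Pool.Agent.TH693.QQ Pool.Agent.H397R2.PP
open Pool.Agent.TH693.PP (S)
open Pool.Agent.R836.RD

/-- the normalised part of class `γ` -/
noncomputable def Xn (κ : ℕ) (γ : ZMod (2 ^ κ)) (f : Om) : OB := io' (prO κ γ f) / io' f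

/-- the normalised parts are integral over `kk[t]` and have degree at most `d` at `t = ∞` -/
def Gdd (t : OB) (κ : ℕ) (f : Om) (d : ℕ) : Prop :=
  ∀ γ : ZMod (2 ^ κ), Ie t (Xn κ γ f) ∧ Ie t⁻¹ (Xn κ γ f * t⁻¹ ^ d)

theorem Gdd.mono {t : OB} {κ : ℕ} {f : Om} {d d' : ℕ} (h : Gdd t κ f d) (hd : d ≤ d') :
    Gdd t κ f d' := by
  intro γ
  refine ⟨(h γ).1, ?_⟩
  obtain ⟨a, rfl⟩ := Nat.exists_eq_add_of_le hd
  rw [pow_add, ← mul_assoc]
  exact (h γ).2.mul ((ie_self _).pow a)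

theorem Gdd.mul {t : OB} {κ : ℕ} {f g : Om} {d d' : ℕ} (h : Gdd t κ f d) (h' : Gdd t κ g d') :
    Gdd t κ (f * g) (d + d') := by
  intro γ
  have e1 : Xn κ γ (f * g) = ∑ α : ZMod (2 ^ κ), ∑ β : ZMod (2 ^ κ),
      if α + β = γ then Xn κ α f * Xn κ β g else 0 := by
    unfold Xn
    rw [DEL813.prO_mul, map_sum, Finset.sum_div]
    refine Finset.sum_congr rfl fun α _ => ?_
    rw [map_sum, Finset.sum_div]
    refine Finset.sum_congr rfl fun β _ => ?_
    split_ifs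
    · rw [map_mul, map_mul, mul_div_mul_comm]
    · rw [map_zero, zero_div]
  rw [e1]
  constructor
  · refine Ie.sum _ _ fun α _ => Ie.sum _ _ fun β _ => ?_
    split_ifs
    · exact (h α).1.mul (h' β).1
    · exact ie_zero t
  · rw [Finset.sum_mul]
    refine Ie.sum _ _ fun α _ => ?_
    rw [Finset.sum_mul]
    refine Ie.sum _ _ fun β _ => ?_
    split_ifs
    · have e2 : Xn κ α f * Xn κ β g * t⁻¹ ^ (d + d') =
          (Xn κ α f * t⁻¹ ^ d) * (Xn κ β g * t⁻¹ ^ d') := by ring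
      rw [e2]
      exact (h α).2.mul (h' β).2
    · rw [zero_mul]
      exact ie_zero _

/-- homogeneous series -/
theorem gdd_hom {t : OB} {κ : ℕ} {f : Om} (hf : f ≠ 0) (β : ZMod (2 ^ κ))
    (h : ∀ n : ℤ, f.coeff n ≠ 0 → (n : ZMod (2 ^ κ)) = β) : Gdd t κ f 0 := by
  intro γ
  have e1 : Xn κ γ f = if β = γ then 1 else 0 := by
    unfold Xn
    rw [prO_single_class κ γ β f h]
    have h0 : io' f ≠ 0 := by
      rw [Ne, _root_.map_eq_zero]
      exact hf
    split_ifs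
    · rw [div_self h0]
    · rw [map_zero, zero_div]
  rw [e1, pow_zero, mul_one]
  split_ifs
  · exact ⟨ie_one _, ie_one _⟩
  · exact ⟨ie_zero _, ie_zero _⟩

theorem om_two (f : Om) : f + f = 0 := by
  ext n
  rw [HahnSeries.coeff_add, HahnSeries.coeff_zero]
  exact CharTwo.add_self_eq_zero _

/-- coefficients of a square -/
theorem coeff_sq (f : Om) (n : ℤ) :
    (f ^ 2).coeff n = if 2 ∣ n then f.coeff (n / 2) ^ 2 else 0 := by
  rw [sq, HahnSeries.coeff_mul]
  have hne : ∀ ij ∈ Finset.antidiagonal f.isPWO_support f.isPWO_support n,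
      (Prod.swap ij) ∈ Finset.antidiagonal f.isPWO_support f.isPWO_support n := by
    intro ij hij
    rw [Finset.mem_antidiagonal] at hij ⊢
    exact ⟨hij.2.1, hij.1, by rw [Prod.fst_swap, Prod.snd_swap, add_comm]; exact hij.2.2⟩
  have hinv : ∑ ij ∈ (Finset.antidiagonal f.isPWO_support f.isPWO_support n).filter
      (fun ij => ij.1 ≠ ij.2), f.coeff ij.1 * f.coeff ij.2 = 0 := by
    refine Finset.sum_involution (fun ij _ => Prod.swap ij) ?_ ?_ ?_ ?_
    · intro ij _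
      rw [Prod.fst_swap, Prod.snd_swap, mul_comm (f.coeff ij.2)]
      exact CharTwo.add_self_eq_zero _
    · intro ij hij _ h
      rw [Finset.mem_filter] at hij
      apply hij.2
      have := congrArg Prod.fst h
      rw [Prod.fst_swap] at this
      exact this.symm
    · intro ij hij
      rw [Finset.mem_filter] at hij ⊢
      exact ⟨hne _ hij.1, fun h => hij.2 (by rw [Prod.fst_swap, Prod.snd_swap] at h; exact h.symm)⟩
    · intro ij _
      exact Prod.swap_swap ij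
  rw [← Finset.sum_filter_add_sum_filter_not _ (fun ij : ℤ × ℤ => ij.1 ≠ ij.2), hinv, zero_add]
  split_ifs with h2
  · obtain ⟨m, rfl⟩ := h2
    rw [Int.mul_ediv_cancel_left _ (by norm_num)]
    by_cases h0 : f.coeff m = 0
    · rw [h0, zero_pow (by norm_num)]
      apply Finset.sum_eq_zero
      rintro ⟨i, j⟩ hij
      simp only [Finset.mem_filter, Finset.mem_antidiagonal, not_not] at hij
      obtain ⟨⟨-, -, h3⟩, h4⟩ := hij
      have : i = m := by omega
      rw [this, h0, zero_mul]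
    · rw [Finset.sum_eq_single (m, m)]
      · rw [sq]
      · rintro ⟨i, j⟩ hij hne'
        simp only [Finset.mem_filter, Finset.mem_antidiagonal, not_not] at hij
        obtain ⟨⟨-, -, h3⟩, h4⟩ := hij
        exact absurd (Prod.ext (by simp only; omega) (by simp only; omega)) hne'
      · intro h
        exfalso
        apply h
        simp only [Finset.mem_filter, Finset.mem_antidiagonal, not_not, and_true,
          HahnSeries.mem_support]
        exact ⟨h0, h0, by ring⟩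
  · apply Finset.sum_eq_zero
    rintro ⟨i, j⟩ hij
    simp only [Finset.mem_filter, Finset.mem_antidiagonal, not_not] at hij
    obtain ⟨⟨-, -, h3⟩, h4⟩ := hij
    exact absurd ⟨i, by omega⟩ h2

theorem cast_eq_iff (κ : ℕ) (a b : ℤ) : ((a : ℤ) : ZMod (2 ^ κ)) = (b : ZMod (2 ^ κ)) ↔
    (2 ^ κ : ℤ) ∣ b - a := by
  rw [ZMod.intCast_eq_intCast_iff_dvd_sub]
  push_cast
  rfl

/-- the parts of a square -/
theorem prO_sq (κ : ℕ) (a : ℤ) (f : Om) :
    prO (κ + 1) ((a : ℤ) : ZMod (2 ^ (κ + 1))) (f ^ 2) =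
      if 2 ∣ a then (prO κ ((a / 2 : ℤ) : ZMod (2 ^ κ)) f) ^ 2 else 0 := by
  ext n
  have e1 : (prO (κ + 1) ((a : ℤ) : ZMod (2 ^ (κ + 1))) (f ^ 2)).coeff n =
    if (n : ZMod (2 ^ (κ + 1))) = ((a : ℤ) : ZMod (2 ^ (κ + 1))) then (f ^ 2).coeff n else 0 := rfl
  rw [e1, coeff_sq]
  by_cases ha : 2 ∣ a
  · rw [if_pos ha, coeff_sq]
    obtain ⟨b, rfl⟩ := ha
    rw [Int.mul_ediv_cancel_left _ (by norm_num)]
    by_cases hn : 2 ∣ n
    · obtain ⟨m, rfl⟩ := hn
      rw [if_pos (Dvd.intro _ rfl), if_pos (Dvd.intro _ rfl), Int.mul_ediv_cancel_left _ (by norm_num)]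
      have e2 : (prO κ ((b : ℤ) : ZMod (2 ^ κ)) f).coeff m =
        if (m : ZMod (2 ^ κ)) = ((b : ℤ) : ZMod (2 ^ κ)) then f.coeff m else 0 := rfl
      rw [e2]
      have h1 : ((2 * m : ℤ) : ZMod (2 ^ (κ + 1))) = ((2 * b : ℤ) : ZMod (2 ^ (κ + 1))) ↔
          ((m : ℤ) : ZMod (2 ^ κ)) = ((b : ℤ) : ZMod (2 ^ κ)) := by
        rw [cast_eq_iff, cast_eq_iff, pow_succ, mul_comm ((2 : ℤ) ^ κ) 2, ← mul_sub,
          mul_dvd_mul_iff_left (by norm_num)]
      by_cases h2 : ((m : ℤ) : ZMod (2 ^ κ)) = ((b : ℤ) : ZMod (2 ^ κ))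
      · rw [if_pos h2, if_pos (h1.2 h2)]
      · rw [if_neg h2, if_neg (fun h => h2 (h1.1 h)), zero_pow (by norm_num)]
    · rw [if_neg hn, if_neg hn, ite_self]
  · rw [if_neg ha, HahnSeries.coeff_zero]
    by_cases hn : 2 ∣ n
    · rw [if_neg]
      intro h
      rw [cast_eq_iff] at h
      apply ha
      have : (2 : ℤ) ∣ a - n := dvd_trans ⟨2 ^ κ, by ring⟩ h
      have := dvd_add this hn
      rwa [sub_add_cancel] at this
    · rw [if_neg hn, ite_self]

theorem Gdd.sq {t : OB} {κ : ℕ} {f : Om} {d : ℕ} (h : Gdd t κ f d) :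
    Gdd t (κ + 1) (f ^ 2) (2 * d) := by
  intro γ
  obtain ⟨a, rfl⟩ := ZMod.intCast_surjective γ
  unfold Xn
  rw [prO_sq]
  split_ifs with ha
  · have e1 : io' (prO κ ((a / 2 : ℤ) : ZMod (2 ^ κ)) f ^ 2) / io' (f ^ 2) =
        Xn κ ((a / 2 : ℤ) : ZMod (2 ^ κ)) f ^ 2 := by
      unfold Xn
      rw [map_pow, map_pow, div_pow]
    rw [e1]
    refine ⟨(h _).1.pow 2, ?_⟩
    have e2 : Xn κ ((a / 2 : ℤ) : ZMod (2 ^ κ)) f ^ 2 * t⁻¹ ^ (2 * d) =
        (Xn κ ((a / 2 : ℤ) : ZMod (2 ^ κ)) f * t⁻¹ ^ d) ^ 2 := by ring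
    rw [e2]
    exact (h _).2.pow 2
  · rw [map_zero, zero_div, zero_mul]
    exact ⟨ie_zero _, ie_zero _⟩

/-- the degrees of the powers -/
def dl (q : ℕ → ℕ) : ℕ → ℕ
  | 0 => 0
  | κ + 1 => 2 * dl q κ + q (κ + 1)

theorem gdd_pow {t : OB} {f : Om} (hf : f ≠ 0) (q : ℕ → ℕ) (h : ∀ κ, Gdd t κ f (q κ)) (κ n : ℕ) :
    Gdd t κ (f ^ n) (dl q κ) := by
  induction κ generalizing n with
  | zero =>
    have : Subsingleton (ZMod (2 ^ 0)) := by
      rw [pow_zero]
      infer_instance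
    exact gdd_hom (pow_ne_zero _ hf) 0 fun n _ => Subsingleton.elim _ _
  | succ κ ih =>
    rcases Nat.even_or_odd' n with ⟨m, hm | hm⟩
    · have e1 : f ^ n = (f ^ m) ^ 2 := by rw [hm]; ring
      rw [e1]
      exact (ih m).sq.mono (Nat.le_add_right _ _)
    · have e1 : f ^ n = (f ^ m) ^ 2 * f := by rw [hm]; ring
      rw [e1]
      exact (ih m).sq.mul (h (κ + 1))

/-- the degree of the theta functions -/
def pp : ℕ → ℕ
  | 0 => 0
  | m + 1 => pp m + 4 ^ (m + 1)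

theorem th_deg (φ : S →+* OB) (ht : φ Db ≠ 0) (m : ℕ) : ∀ b : ℤ, Odd b →
    Ie (φ Db) (φ (th (2 ^ (m + 2)) b) / φ Db) ∧
      Ie (φ Db)⁻¹ (φ (th (2 ^ (m + 2)) b) / φ Db * (φ Db)⁻¹ ^ pp m) := by
  have hq := D1.qd1
  induction m with
  | zero =>
    intro b hb
    have h1 := hq.four b hb
    norm_num at h1 ⊢
    rw [h1, div_self ht]
    have : pp 0 = 0 := rfl
    rw [this, pow_zero, inv_one, mul_one]
    exact ⟨ie_one _, ie_one _⟩
  | succ m ih =>
    intro b hb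
    have e0 : m + 1 + 2 = m + 2 + 1 := by ring
    rw [e0]
    set t := φ Db with ht'
    have h1 := congrArg φ (hq.split (m + 2) b hb)
    have h2 := congrArg φ (hq.prod (m + 2) b (by omega) hb)
    have hb' : Odd (b + (2 : ℤ) ^ (m + 2 - 1)) := by
      apply hb.add_even
      rw [show m + 2 - 1 = m + 1 by omega, pow_succ]
      exact (even_two).mul_left _
    rw [map_add] at h1
    rw [map_mul, map_mul, map_pow, map_pow, ← ht'] at h2
    obtain ⟨i1, i2⟩ := ih b hb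
    obtain ⟨i3, i4⟩ := ih _ hb'
    set x := φ (th (2 ^ (m + 2 + 1)) b) with hx
    set x' := φ (th (2 ^ (m + 2 + 1)) (b + 2 ^ (m + 2))) with hx'
    set y := φ (th (2 ^ (m + 2)) b) with hy
    set y' := φ (th (2 ^ (m + 2)) (b + 2 ^ (m + 2 - 1))) with hy'
    have e4 : 2 ^ (2 * (m + 2) - 1) = 2 * 4 ^ (m + 1) := by
      have : 2 * (m + 2) - 1 = 2 * (m + 1) + 1 := by omega
      rw [this, pow_succ, pow_mul]
      norm_num
      ring
    rw [e4] at h2
    constructor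
    · refine Ie.quad (y' := x' / t) ?_ ?_
      · rw [← add_div, h1]
        exact i1
      · have : x / t * (x' / t) = t ^ (2 * 4 ^ (m + 1)) * (y' / t) ^ 2 := by
          rw [div_mul_div_comm, h2]
          field_simp
        rw [this]
        exact ((ie_self _).pow _).mul (i3.pow 2)
    · refine Ie.quad (y' := x' / t * t⁻¹ ^ pp (m + 1)) ?_ ?_
      · have : x / t * t⁻¹ ^ pp (m + 1) + x' / t * t⁻¹ ^ pp (m + 1) =
            y / t * t⁻¹ ^ pp m * t⁻¹ ^ (4 ^ (m + 1)) := by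
          rw [← add_mul, ← add_div, h1]
          have : pp (m + 1) = pp m + 4 ^ (m + 1) := rfl
          rw [this, pow_add]
          ring
        rw [this]
        exact i2.mul ((ie_self _).pow _)
      · have : x / t * t⁻¹ ^ pp (m + 1) * (x' / t * t⁻¹ ^ pp (m + 1)) =
            (y' / t * t⁻¹ ^ pp m) ^ 2 := by
          have e5 : pp (m + 1) = pp m + 4 ^ (m + 1) := rfl
          have e6 : t ^ (2 * 4 ^ (m + 1)) * (t⁻¹) ^ (2 * 4 ^ (m + 1)) = 1 := by
            rw [← mul_pow, mul_inv_cancel₀ ht, one_pow]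
          calc x / t * t⁻¹ ^ pp (m + 1) * (x' / t * t⁻¹ ^ pp (m + 1))
              = (x * x') * t⁻¹ ^ 2 * t⁻¹ ^ (2 * pp (m + 1)) := by ring
            _ = (t ^ (2 * 4 ^ (m + 1)) * (t⁻¹) ^ (2 * 4 ^ (m + 1))) *
                (y' ^ 2 * t⁻¹ ^ 2 * t⁻¹ ^ (2 * pp m)) := by rw [h2, e5]; ring
            _ = (y' / t * t⁻¹ ^ pp m) ^ 2 := by rw [e6]; ring
        rw [this]
        exact i4.pow 2

/-- degrees of the parts of `D` at the level `κ` -/
def qq (κ : ℕ) : ℕ := pp (κ - 3)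

theorem dB_ne (L : ℕ) (hL : L ≠ 0) : dB 1 L ≠ 0 := by
  intro h
  have h1 := EX0Aux.trans_D L hL
  rw [h] at h1
  exact h1 isAlgebraic_zero

theorem gdd_D (L : ℕ) (hL : L ≠ 0) (κ : ℕ) : Gdd (dB 1 L) κ (dO 1 L) (qq κ) := by
  have hne := dB_ne L hL
  rcases Nat.lt_or_ge κ 3 with hκ | hκ
  · have e1 : qq κ = 0 := by
      unfold qq
      rw [show κ - 3 = 0 by omega]
      rfl
    rw [e1]
    refine gdd_hom (fun h => hne (by unfold dB; rw [h, map_zero])) (L : ZMod (2 ^ κ)) fun n hn => ?_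
    have h1 : dO 1 L = ev 1 L (th (2 ^ (0 + 2)) 1) := by
      unfold dO
      have := D1.qd1.four 1 odd_one
      norm_num
      rw [this]
    rw [h1] at hn
    have h2 := ev_th_supp 1 hL 0 1 n hn
    have h3 : (2 ^ 3 : ℤ) ∣ (L : ℤ) - n := by
      rw [← cast_eq_iff]
      push_cast at h2 ⊢
      rw [h2]
      ring
    have h4 : ((n : ℤ) : ZMod (2 ^ κ)) = (((L : ℤ) : ℤ) : ZMod (2 ^ κ)) := by
      rw [cast_eq_iff]
      exact (pow_dvd_pow 2 (by omega)).trans h3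
    rw [h4]
    push_cast
    rfl
  · obtain ⟨m, rfl⟩ : ∃ m, κ = m + 3 := ⟨κ - 3, by omega⟩
    have e1 : qq (m + 3) = pp m := by
      unfold qq
      rw [Nat.add_sub_cancel]
    rw [e1]
    intro γ
    have e2 : Xn (m + 3) γ (dO 1 L) = ∑ i ∈ Finset.range (2 ^ m),
        if (L : ZMod (2 ^ (m + 3))) * ((1 + 4 * (i : ℤ) : ℤ) : ZMod (2 ^ (m + 3))) ^ 2 = γ then
          GoodAux.fi L (th (2 ^ (m + 2)) (1 + 4 * (i : ℤ))) / dB 1 L else 0 := by
      unfold Xn
      rw [show io' (dO 1 L) = dB 1 L from rfl]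
      unfold dO
      rw [QD.Db_sum D1.qd1 m, map_sum, DEL813.prO_sum, map_sum, Finset.sum_div]
      refine Finset.sum_congr rfl fun i _ => ?_
      rw [prO_single_class _ _ _ _ (ev_th_supp 1 hL m _)]
      split_ifs
      · rfl
      · rw [map_zero, zero_div]
    rw [e2]
    have h1 := th_deg (GoodAux.fi L) hne m
    constructor
    · refine Ie.sum _ _ fun i _ => ?_
      split_ifs
      · exact (h1 _ ⟨2 * i, by ring⟩).1
      · exact ie_zero _
    · rw [Finset.sum_mul]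
      refine Ie.sum _ _ fun i _ => ?_
      split_ifs
      · exact (h1 _ ⟨2 * i, by ring⟩).2
      · rw [zero_mul]
        exact ie_zero _

end Pool.Agent.K7.H91.SQ
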