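import Pool.Agent.K7.H91.SQ.Ineq
import Pool.Agent.R836.RD.Main
import Pool.Agent.H413R3.Part.Pt

set_option autoImplicit false

/-!
# Odd values of `p_t` in the classes modulo `2 ^ b`
-/

namespace Pool.Agent.K7.H91.SQ

open PowerSeries Pool.Agent.TH693.QQ Pool.Agent.H397R2.PP
open Pool.Agent.TH693.PP (S P)
open Pool.Agent.R836.RD Pool.Agent.R836.RD.FINBaux

theorem pp_val (m : ℕ) : 3 * pp m + 4 = 4 * 4 ^ m := by
  induction m with
  | zero => rfl
  | succ m ih =>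
    have : pp (m + 1) = pp m + 4 ^ (m + 1) := rfl
    rw [this]
    rw [pow_succ]
    omega

theorem dl_val (b : ℕ) : 3 * dl qq (b + 3) + 12 * 2 ^ b = 8 * 4 ^ b + 4 := by
  induction b with
  | zero => rfl
  | succ b ih =>
    have e1 : dl qq (b + 1 + 3) = 2 * dl qq (b + 3) + pp (b + 1) := by
      have : dl qq (b + 3 + 1) = 2 * dl qq (b + 3) + qq (b + 3 + 1) := rfl
      rw [show b + 1 + 3 = b + 3 + 1 by ring, this]
      unfold qq
      rw [show b + 3 + 1 - 3 = b + 1 by omega]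
    have e2 := pp_val (b + 1)
    rw [e1]
    rw [pow_succ] at e2
    rw [pow_succ, pow_succ]
    omega

/-- the sum of the least odd places in the classes modulo `2 ^ b` -/
theorem sum_least (t : ℕ) (ht : Odd t) (b : ℕ) (n : ℕ → ℕ)
    (h1 : ∀ ρ < 2 ^ b, n ρ ≡ ρ [MOD 2 ^ b]) (h2 : ∀ ρ < 2 ^ b, coeff (n ρ) (P ^ t) ≠ 0)
    (h3 : ∀ ρ < 2 ^ b, ∀ n' : ℕ, n' < n ρ → n' ≡ ρ [MOD 2 ^ b] → coeff n' (P ^ t) = 0) :
    24 * (∑ ρ ∈ Finset.range (2 ^ b), n ρ) ≤ 3 * (2 ^ b * dl qq (b + 3)) := by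
  classical
  set W : Om := (eO 1 1)⁻¹ ^ t with hW
  have hWc : ∀ z : ℤ, W.coeff z = if 24 ∣ z + t ∧ 0 ≤ z + t then
      algebraMap (ZMod 2) kk (coeff ((z + t) / 24).toNat (P ^ t)) else 0 := by
    intro z
    rw [hW, gabp t 1 one_ne_zero z, one_zpow, one_mul]
    have e1 : z - -(t : ℤ) = z + t := by ring
    rw [e1]
    have e2 : (-(t : ℤ) ≤ z) ↔ (0 ≤ z + t) := by omega
    simp only [e2]
  have hWl : Lead W (-(t : ℤ)) := by
    have h := Lead_pow (Lead_inv (lead_eO 1 one_ne_zero 1 one_pos)) t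
    rw [← hW] at h
    push_cast at h
    rw [mul_neg, mul_one] at h
    exact h
  set cl : ℕ → ZMod (2 ^ (b + 3)) := fun ρ => ((24 * (ρ : ℤ) - t : ℤ) : ZMod (2 ^ (b + 3))) with hcl
  -- equality of classes
  have hcl' : ∀ x y : ℤ, ((24 * x - t : ℤ) : ZMod (2 ^ (b + 3))) =
      ((24 * y - t : ℤ) : ZMod (2 ^ (b + 3))) ↔ (2 ^ b : ℤ) ∣ y - x := by
    intro x y
    rw [cast_eq_iff]
    have e1 : (24 * y - t) - (24 * x - t) = 8 * (3 * (y - x)) := by ring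
    have e2 : (2 : ℤ) ^ (b + 3) = 8 * 2 ^ b := by ring
    rw [e1, e2, mul_dvd_mul_iff_left (by norm_num)]
    constructor
    · intro h
      have hco : IsCoprime ((2 : ℤ) ^ b) 3 := IsCoprime.pow_left ⟨-1, 1, by norm_num⟩
      exact hco.dvd_of_dvd_mul_left h
    · intro h
      exact h.mul_left 3
  have hlead : ∀ ρ < 2 ^ b, Lead (prO (b + 3) (cl ρ) W) (24 * (n ρ : ℤ) - t) := by
    intro ρ hρ
    have hpr : ∀ z : ℤ, (prO (b + 3) (cl ρ) W).coeff z =
      if (z : ZMod (2 ^ (b + 3))) = cl ρ then W.coeff z else 0 := fun z => rfl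
    apply lead_of
    · rw [hpr, if_pos, hWc, if_pos]
      · have e1 : (24 * (n ρ : ℤ) - t + t) / 24 = n ρ := by omega
        rw [e1, Int.toNat_natCast, Ne, _root_.map_eq_zero]
        exact h2 ρ hρ
      · exact ⟨⟨n ρ, by ring⟩, by omega⟩
      · rw [hcl, hcl']
        have := (Nat.modEq_iff_dvd.1 (h1 ρ hρ))
        push_cast at this
        exact this
    · intro z hz
      rw [hpr]
      split_ifs with h4
      · rw [hWc]
        split_ifs with h5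
        · obtain ⟨⟨y, hy⟩, h6⟩ := h5
          have hy0 : 0 ≤ y := by omega
          have e1 : (z + t) / 24 = y := by omega
          rw [e1]
          have ez : z = 24 * y - t := by omega
          rw [ez, hcl, hcl'] at h4
          rw [h3 ρ hρ y.toNat (by omega) ?_, map_zero]
          rw [Nat.modEq_iff_dvd]
          push_cast
          rw [Int.toNat_of_nonneg hy0]
          exact h4
        · rfl
      · rfl
  -- representation of `W`
  have h3dvd : 3 ∣ t * 4 ^ (b + 3) - t := by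
    have h4 : 4 ^ (b + 3) ≡ 1 [MOD 3] := by
      have := (show 4 ≡ 1 [MOD 3] by decide).pow (b + 3)
      rwa [one_pow] at this
    have h5 : 1 ≤ 4 ^ (b + 3) := Nat.one_le_pow _ _ (by norm_num)
    have e : t * 4 ^ (b + 3) - t = t * (4 ^ (b + 3) - 1) := by rw [Nat.mul_sub, mul_one]
    rw [e]
    exact ((Nat.modEq_iff_dvd' h5).1 h4.symm).mul_left t
  obtain ⟨m, hm⟩ := h3dvd
  have hm' : 3 * m + t = t * 2 ^ (b + 3) * 2 ^ (b + 3) := by
    have h5 : t * 1 ≤ t * 4 ^ (b + 3) := Nat.mul_le_mul_left _ (Nat.one_le_pow _ _ (by norm_num))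
    have e : t * 2 ^ (b + 3) * 2 ^ (b + 3) = t * 4 ^ (b + 3) := by
      rw [mul_assoc, ← mul_pow]
      norm_num
    rw [e]
    omega
  have he0 : eO 1 1 ≠ 0 := GabP.eO_ne 1 one_ne_zero 1 one_ne_zero
  have hrep : W = dO 1 3 ^ m * ((eO 1 1)⁻¹ ^ (t * 2 ^ (b + 3))) ^ 2 ^ (b + 3) := by
    have h6 : dO 1 3 = eO 1 1 ^ 3 := by
      have := eim_cube ee.1 1 1 one_ne_zero
      rw [one_pow, mul_one] at this
      exact this.symm
    rw [h6, ← pow_mul, ← pow_mul, ← hm', pow_add, ← mul_assoc, ← mul_pow,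
      mul_inv_cancel₀ he0, one_pow, one_mul]
  have hinj : Set.InjOn cl (Finset.range (2 ^ b)) := by
    intro x hx y hy hxy
    rw [Finset.coe_range, Set.mem_Iio] at hx hy
    rw [hcl] at hxy
    have h7 := (hcl' x y).1 hxy
    have h8 : (x : ℕ) ≡ y [MOD 2 ^ b] := by
      rw [Nat.modEq_iff_dvd]
      push_cast
      exact h7
    have h9 := Nat.ModEq.eq_of_lt_of_lt h8 hx hy
    exact h9
  have key := ineq (L := 3) (by norm_num) m b ((eO 1 1)⁻¹ ^ (t * 2 ^ (b + 3)))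
    (pow_ne_zero _ (inv_ne_zero he0)) W hrep ((Finset.range (2 ^ b)).image cl)
    (by
      intro g hg γ hγ
      rw [Finset.mem_image] at hγ ⊢
      obtain ⟨ρ, hρ, rfl⟩ := hγ
      obtain ⟨d, hd⟩ := hg
      obtain ⟨s, hs⟩ : ∃ s : ℤ, g ^ 2 = 1 + 8 * s := by
        rcases Int.even_or_odd' d with ⟨e, he | he⟩
        · exact ⟨e * (2 * e + 1), by rw [hd, he]; ring⟩
        · exact ⟨(2 * e + 1) * (e + 1), by rw [hd, he]; ring⟩
      obtain ⟨a, a', haa⟩ : IsCoprime (3 : ℤ) ((2 : ℤ) ^ b) :=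
        IsCoprime.pow_right ⟨1, -1, by norm_num⟩
      have hp : (0 : ℤ) < 2 ^ b := by positivity
      have hm0 := Int.emod_nonneg ((ρ : ℤ) + a * s * (24 * ρ - t)) hp.ne'
      have hm1 := Int.emod_lt_of_pos ((ρ : ℤ) + a * s * (24 * ρ - t)) hp
      refine ⟨(((ρ : ℤ) + a * s * (24 * ρ - t)) % 2 ^ b).toNat, ?_, ?_⟩
      · rw [Finset.mem_range]
        zify
        rw [Int.toNat_of_nonneg hm0]
        exact hm1
      · rw [hcl]
        simp only
        have e1 : ((g : ZMod (2 ^ (b + 3))) ^ 2 * ((24 * (ρ : ℤ) - t : ℤ) : ZMod (2 ^ (b + 3)))) =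
            ((g ^ 2 * (24 * (ρ : ℤ) - t) : ℤ) : ZMod (2 ^ (b + 3))) := by push_cast; ring
        rw [e1, cast_eq_iff, Int.toNat_of_nonneg hm0, hs]
        have e2 := Int.emod_add_mul_ediv ((ρ : ℤ) + a * s * (24 * ρ - t)) (2 ^ b)
        set r := ((ρ : ℤ) + a * s * (24 * ρ - t)) % 2 ^ b
        set q := ((ρ : ℤ) + a * s * (24 * ρ - t)) / 2 ^ b
        refine ⟨3 * q + a' * s * (24 * ρ - t), ?_⟩
        have e3 : (2 : ℤ) ^ (b + 3) = 8 * 2 ^ b := by ring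
        rw [e3]
        linear_combination (-24) * e2 - 8 * s * (24 * ρ - t) * haa)
    (by
      intro γ hγ
      rw [Finset.mem_image] at hγ
      obtain ⟨ρ, hρ, rfl⟩ := hγ
      exact (hlead ρ (Finset.mem_range.1 hρ)).1)
  rw [Finset.sum_image hinj, Finset.card_image_of_injOn hinj, Finset.card_range] at key
  have e3 : ∑ ρ ∈ Finset.range (2 ^ b), ((prO (b + 3) (cl ρ) W).order - W.order) =
      ∑ ρ ∈ Finset.range (2 ^ b), (24 * (n ρ : ℤ)) := by
    refine Finset.sum_congr rfl fun ρ hρ => ?_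
    rw [(hlead ρ (Finset.mem_range.1 hρ)).2, hWl.2]
    ring
  rw [e3, ← Finset.mul_sum] at key
  exact_mod_cast key

/-- the least `n` in the class with an odd value -/
theorem least_exists (t : ℕ) (ht : Odd t) (b : ℕ) :
    ∃ n : ℕ → ℕ, (∀ ρ < 2 ^ b, n ρ ≡ ρ [MOD 2 ^ b]) ∧ (∀ ρ < 2 ^ b, coeff (n ρ) (P ^ t) ≠ 0) ∧
    (∀ ρ < 2 ^ b, ∀ n' : ℕ, n' < n ρ → n' ≡ ρ [MOD 2 ^ b] → coeff n' (P ^ t) = 0) := by
  classical
  have hex : ∀ ρ : ℕ, ∃ n : ℕ, n ≡ ρ [MOD 2 ^ b] ∧ coeff n (P ^ t) ≠ 0 := by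
    intro ρ
    obtain ⟨n, -, hn⟩ := full_P t ht (2 ^ b) ρ (by positivity) 0
    refine ⟨2 ^ b * n + ρ, ?_, by rw [hn]; exact one_ne_zero⟩
    exact (Nat.modEq_iff_dvd' (Nat.le_add_left _ _)).2 (by
      rw [Nat.add_sub_cancel]; exact Dvd.intro _ rfl) |>.symm
  refine ⟨fun ρ => Nat.find (hex ρ), fun ρ _ => (Nat.find_spec (hex ρ)).1,
    fun ρ _ => (Nat.find_spec (hex ρ)).2, fun ρ _ n' hn' hm => ?_⟩
  have := Nat.find_min (hex ρ) hn'
  by_contra h0
  exact this ⟨hm, h0⟩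

end Pool.Agent.K7.H91.SQ
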