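import Pool.Agent.K7.H91.SQ.GT
import Pool.Agent.K7.H91.SQ.Fin1

set_option autoImplicit false

/-!
# Degrees at infinity of the parts at the other vertices
-/

namespace Pool.Agent.K7.H91.SQ

open PowerSeries Pool.Agent.TH693.QQ Pool.Agent.H397R2.PP
open Pool.Agent.TH693.PP (S)
open Pool.Agent.R836.RD Pool.Agent.R836.RD.FINBaux

/-- roots of monic polynomials with integral coefficients -/
theorem ie_root {t y : OB} (P : Polynomial OB) (hP : P.Monic) (h : ∀ i, Ie t (P.coeff i))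
    (hy : P.eval y = 0) : Ie t y := by
  letI : Algebra (Polynomial kk) OB := ((Polynomial.aeval t : Polynomial kk →ₐ[kk] OB) :
    Polynomial kk →+* OB).toAlgebra
  have hsub : (↑P.coeffs : Set OB) ⊆ (integralClosure (Polynomial kk) OB).toSubring := by
    intro x hx
    rw [Finset.mem_coe, Polynomial.mem_coeffs_iff] at hx
    obtain ⟨i, -, rfl⟩ := hx
    exact h i
  have h1 : IsIntegral (integralClosure (Polynomial kk) OB) y := by
    refine ⟨P.toSubring (integralClosure (Polynomial kk) OB).toSubring hsub,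
      (Polynomial.monic_toSubring _ _ _).2 hP, ?_⟩
    have h2 := Polynomial.map_toSubring P (integralClosure (Polynomial kk) OB).toSubring hsub
    have h3 : Polynomial.eval₂ (Subring.subtype (integralClosure (Polynomial kk) OB).toSubring) y
        (P.toSubring (integralClosure (Polynomial kk) OB).toSubring hsub) = 0 := by
      rw [Polynomial.eval₂_eq_eval_map, h2, hy]
    exact h3
  exact isIntegral_trans y h1

theorem ie_C (t : OB) (a : kk) : Ie t (algebraMap kk OB a) := by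
  have := ie_aeval t (Polynomial.C a)
  rwa [Polynomial.aeval_C] at this

theorem ie_poly_inv {t : OB} (ht : t ≠ 0) (A : Polynomial kk) {C : ℕ} (hA : A.natDegree ≤ C) :
    Ie t⁻¹ (Polynomial.aeval t A * t⁻¹ ^ C) := by
  rw [Polynomial.aeval_eq_sum_range, Finset.sum_mul]
  refine Ie.sum _ _ fun i hi => ?_
  rw [Finset.mem_range] at hi
  rw [Algebra.smul_def]
  have e1 : algebraMap kk OB (A.coeff i) * t ^ i * t⁻¹ ^ C =
      algebraMap kk OB (A.coeff i) * t⁻¹ ^ (C - i) := by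
    have e2 : C = i + (C - i) := by omega
    conv_lhs => rw [e2, pow_add]
    have e3 : t ^ i * t⁻¹ ^ i = 1 := by rw [← mul_pow, mul_inv_cancel₀ ht, one_pow]
    calc algebraMap kk OB (A.coeff i) * t ^ i * (t⁻¹ ^ i * t⁻¹ ^ (C - i))
        = algebraMap kk OB (A.coeff i) * (t ^ i * t⁻¹ ^ i) * t⁻¹ ^ (C - i) := by ring
      _ = _ := by rw [e3, mul_one]
  rw [e1]
  exact (ie_C _ _).mul ((ie_self _).pow _)

/-- integral elements have finite degree at infinity -/
theorem ie_inv {t Z : OB} (ht : t ≠ 0) (hZ : Ie t Z) : ∃ C : ℕ, Ie t⁻¹ (Z * t⁻¹ ^ C) := by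
  obtain ⟨p, hp, h0⟩ := hZ
  set C := (Finset.range (p.natDegree + 1)).sup (fun i => (p.coeff i).natDegree) with hC
  have hCi : ∀ i, (p.coeff i).natDegree ≤ C := by
    intro i
    rcases Nat.lt_or_ge p.natDegree i with h | h
    · rw [Polynomial.coeff_eq_zero_of_natDegree_lt h, Polynomial.natDegree_zero]
      exact Nat.zero_le _
    · exact Finset.le_sup (f := fun i => (p.coeff i).natDegree) (Finset.mem_range.2 (by omega))
  refine ⟨C, ?_⟩
  set f : Polynomial kk →+* OB := ((Polynomial.aeval t : Polynomial kk →ₐ[kk] OB) :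
    Polynomial kk →+* OB) with hf
  set P := p.map f with hP
  have hPm : P.Monic := hp.map _
  have hdeg : P.natDegree = p.natDegree := hp.natDegree_map f
  refine ie_root (P.scaleRoots (t⁻¹ ^ C)) ((Polynomial.monic_scaleRoots_iff _).2 hPm) ?_ ?_
  · intro i
    rw [Polynomial.coeff_scaleRoots]
    rcases lt_trichotomy i P.natDegree with h | h | h
    · obtain ⟨k, hk⟩ : ∃ k, P.natDegree - i = k + 1 := ⟨P.natDegree - i - 1, by omega⟩
      rw [hk, pow_succ, hP, Polynomial.coeff_map]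
      have e1 : f (p.coeff i) * ((t⁻¹ ^ C) ^ k * t⁻¹ ^ C) =
          (Polynomial.aeval t (p.coeff i) * t⁻¹ ^ C) * (t⁻¹ ^ C) ^ k := by
        change Polynomial.aeval t (p.coeff i) * _ = _
        ring
      rw [e1]
      exact (ie_poly_inv ht _ (hCi i)).mul (((ie_self _).pow _).pow _)
    · rw [h, Nat.sub_self, pow_zero, mul_one, hPm.coeff_natDegree]
      exact ie_one _
    · rw [Polynomial.coeff_eq_zero_of_natDegree_lt h, zero_mul]
      exact ie_zero _
  · have h1 : Polynomial.eval₂ (RingHom.id OB) Z P = 0 := by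
      rw [hP, Polynomial.eval₂_map, RingHom.id_comp]
      exact h0
    have h2 := Polynomial.scaleRoots_eval₂_eq_zero (RingHom.id OB) (s := t⁻¹ ^ C) h1
    rw [RingHom.id_apply, mul_comm] at h2
    exact h2

/-- the theta functions, with degrees relative to `t` -/
theorem th_deg' {t : OB} (ht0 : t ≠ 0) (φ : S →+* OB) (hφ : φ Db ≠ 0) {C : ℕ}
    (hi : Ie t (φ Db)) (hi' : Ie t⁻¹ (φ Db * t⁻¹ ^ C)) (m : ℕ) : ∀ b : ℤ, Odd b →
    Ie t (φ (th (2 ^ (m + 2)) b) / φ Db) ∧
      Ie t⁻¹ (φ (th (2 ^ (m + 2)) b) / φ Db * t⁻¹ ^ (C * pp m)) := by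
  have hq := D1.qd1
  induction m with
  | zero =>
    intro b hb
    have h1 := hq.four b hb
    norm_num at h1 ⊢
    rw [h1, div_self hφ]
    have : pp 0 = 0 := rfl
    rw [this, mul_zero, pow_zero, inv_one, mul_one]
    exact ⟨ie_one _, ie_one _⟩
  | succ m ih =>
    intro b hb
    have e0 : m + 1 + 2 = m + 2 + 1 := by ring
    rw [e0]
    set y0 := φ Db with hy0
    have h1 := congrArg φ (hq.split (m + 2) b hb)
    have h2 := congrArg φ (hq.prod (m + 2) b (by omega) hb)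
    have hb' : Odd (b + (2 : ℤ) ^ (m + 2 - 1)) := by
      apply hb.add_even
      rw [show m + 2 - 1 = m + 1 by omega, pow_succ]
      exact (even_two).mul_left _
    rw [map_add] at h1
    rw [map_mul, map_mul, map_pow, map_pow, ← hy0] at h2
    obtain ⟨i1, i2⟩ := ih b hb
    obtain ⟨i3, i4⟩ := ih _ hb'
    set x := φ (th (2 ^ (m + 2 + 1)) b) with hx
    set x' := φ (th (2 ^ (m + 2 + 1)) (b + 2 ^ (m + 2))) with hx'
    set y := φ (th (2 ^ (m + 2)) b) with hy
    set y' := φ (th (2 ^ (m + 2)) (b + 2 ^ (m + 2 - 1))) with hy'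
    have e4 : 2 ^ (2 * (m + 2) - 1) = 2 * 4 ^ (m + 1) := by
      have : 2 * (m + 2) - 1 = 2 * (m + 1) + 1 := by omega
      rw [this, pow_succ, pow_mul]
      norm_num
      ring
    rw [e4] at h2
    have h3 : x / y0 * (x' / y0) = y0 ^ (2 * 4 ^ (m + 1)) * (y' / y0) ^ 2 := by
      rw [div_mul_div_comm, h2]
      field_simp
    have e5 : pp (m + 1) = pp m + 4 ^ (m + 1) := rfl
    constructor
    · refine Ie.quad (y' := x' / y0) ?_ ?_
      · rw [← add_div, h1]
        exact i1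
      · rw [h3]
        exact (hi.pow _).mul (i3.pow 2)
    · refine Ie.quad (y' := x' / y0 * t⁻¹ ^ (C * pp (m + 1))) ?_ ?_
      · have : x / y0 * t⁻¹ ^ (C * pp (m + 1)) + x' / y0 * t⁻¹ ^ (C * pp (m + 1)) =
            y / y0 * t⁻¹ ^ (C * pp m) * t⁻¹ ^ (C * 4 ^ (m + 1)) := by
          rw [← add_mul, ← add_div, h1, e5, mul_add, pow_add]
          ring
        rw [this]
        exact i2.mul ((ie_self _).pow _)
      · have : x / y0 * t⁻¹ ^ (C * pp (m + 1)) * (x' / y0 * t⁻¹ ^ (C * pp (m + 1))) =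
            (y0 * t⁻¹ ^ C) ^ (2 * 4 ^ (m + 1)) * (y' / y0 * t⁻¹ ^ (C * pp m)) ^ 2 := by
          calc x / y0 * t⁻¹ ^ (C * pp (m + 1)) * (x' / y0 * t⁻¹ ^ (C * pp (m + 1)))
              = (x / y0 * (x' / y0)) * (t⁻¹ ^ (C * pp (m + 1))) ^ 2 := by ring
            _ = _ := by
              rw [h3, e5]
              generalize 4 ^ (m + 1) = q
              generalize y' / y0 = y1
              ring
        rw [this]
        exact (hi'.pow _).mul (i4.pow 2)

/-- the parts of `D` at a vertex -/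
theorem gdd_D' {t : OB} (ht0 : t ≠ 0) {c : kk} (hc : c ≠ 0) {j : ℕ} (hj : j ≠ 0) {C : ℕ}
    (hi : Ie t (dB c j)) (hi' : Ie t⁻¹ (dB c j * t⁻¹ ^ C)) (κ : ℕ) :
    Gdd t κ (dO c j) (C * qq κ) := by
  have hO : dO c j ≠ 0 := eim_dO_ne c j hc hj
  have hne : dB c j ≠ 0 := by
    unfold dB
    rw [Ne, _root_.map_eq_zero]
    exact hO
  rcases Nat.lt_or_ge κ 3 with hκ | hκ
  · have e1 : qq κ = 0 := by
      unfold qq
      rw [show κ - 3 = 0 by omega]
      rfl
    rw [e1, mul_zero]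
    refine gdd_hom hO (j : ZMod (2 ^ κ)) fun n hn => ?_
    have h1 : dO c j = ev c j (th (2 ^ (0 + 2)) 1) := by
      unfold dO
      have := D1.qd1.four 1 odd_one
      norm_num
      rw [this]
    rw [h1] at hn
    have h2 := ev_th_supp c hj 0 1 n hn
    have h3 : (2 ^ 3 : ℤ) ∣ (j : ℤ) - n := by
      rw [← cast_eq_iff]
      push_cast at h2 ⊢
      rw [h2]
      ring
    have h4 : ((n : ℤ) : ZMod (2 ^ κ)) = (((j : ℤ) : ℤ) : ZMod (2 ^ κ)) := by
      rw [cast_eq_iff]
      exact (pow_dvd_pow 2 (by omega)).trans h3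
    rw [h4]
    push_cast
    rfl
  · obtain ⟨m, rfl⟩ : ∃ m, κ = m + 3 := ⟨κ - 3, by omega⟩
    have e1 : qq (m + 3) = pp m := by
      unfold qq
      rw [Nat.add_sub_cancel]
    rw [e1]
    intro γ
    set φ : S →+* OB := io'.comp (ev c j) with hφ
    have hφD : φ Db = dB c j := rfl
    have e2 : Xn (m + 3) γ (dO c j) = ∑ i ∈ Finset.range (2 ^ m),
        if (j : ZMod (2 ^ (m + 3))) * ((1 + 4 * (i : ℤ) : ℤ) : ZMod (2 ^ (m + 3))) ^ 2 = γ then
          φ (th (2 ^ (m + 2)) (1 + 4 * (i : ℤ))) / φ Db else 0 := by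
      unfold Xn
      rw [show io' (dO c j) = φ Db from rfl]
      unfold dO
      rw [QD.Db_sum D1.qd1 m, map_sum, DEL813.prO_sum, map_sum, Finset.sum_div]
      refine Finset.sum_congr rfl fun i _ => ?_
      rw [prO_single_class _ _ _ _ (ev_th_supp c hj m _)]
      split_ifs
      · rw [← QD.Db_sum D1.qd1 m]
        rfl
      · rw [map_zero, zero_div]
    rw [e2]
    have h1 := th_deg' ht0 φ (by rw [hφD]; exact hne) (by rw [hφD]; exact hi)
      (by rw [hφD]; exact hi') m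
    constructor
    · refine Ie.sum _ _ fun i _ => ?_
      split_ifs
      · exact (h1 _ ⟨2 * i, by ring⟩).1
      · exact ie_zero _
    · rw [Finset.sum_mul]
      refine Ie.sum _ _ fun i _ => ?_
      split_ifs
      · exact (h1 _ ⟨2 * i, by ring⟩).2
      · rw [zero_mul]
        exact ie_zero _

theorem dl_mul (C κ : ℕ) : dl (fun κ => C * qq κ) κ = C * dl qq κ := by
  induction κ with
  | zero => rfl
  | succ κ ih =>
    change 2 * dl (fun κ => C * qq κ) κ + C * qq (κ + 1) = C * (2 * dl qq κ + qq (κ + 1))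
    rw [ih]
    ring

theorem dl_le (κ : ℕ) : dl qq κ ≤ 4 ^ κ := by
  have h0 : ∀ m, pp m ≤ 2 * 4 ^ m := fun m => by
    have := pp_val m
    omega
  induction κ with
  | zero => exact Nat.zero_le _
  | succ κ ih =>
    have e1 : dl qq (κ + 1) = 2 * dl qq κ + qq (κ + 1) := rfl
    have e2 : qq (κ + 1) ≤ 2 * 4 ^ κ := by
      unfold qq
      refine (h0 _).trans ?_
      exact Nat.mul_le_mul_left 2 (Nat.pow_le_pow_right (by norm_num) (by omega))
    rw [e1, pow_succ]
    omega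

/-- multiplication by a `2 ^ κ`-th power does not change the normalised parts -/
theorem gdd_mul_pow {t : OB} {κ : ℕ} {f g : Om} {d : ℕ} (hg : g ≠ 0) (h : Gdd t κ f d) :
    Gdd t κ (f * g ^ 2 ^ κ) d := by
  intro γ
  have e1 : Xn κ γ (f * g ^ 2 ^ κ) = Xn κ γ f := by
    unfold Xn
    rw [prO_mul_pow, map_mul, map_mul, mul_div_mul_right]
    rw [Ne, _root_.map_eq_zero]
    exact pow_ne_zero _ hg
  rw [e1]
  exact h γ

/-- integer powers of `e` -/
theorem gdd_E {t : OB} (ht0 : t ≠ 0) {c : kk} (hc : c ≠ 0) {j : ℕ} (hj : j ≠ 0) {C : ℕ}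
    (hi : Ie t (dB (c ^ 3) (3 * j))) (hi' : Ie t⁻¹ (dB (c ^ 3) (3 * j) * t⁻¹ ^ C)) (κ : ℕ) (z : ℤ) :
    Gdd t κ (eO c j ^ z) (C * dl qq κ) := by
  have he : eO c j ≠ 0 := GabP.eO_ne c hc j hj
  have hO : dO (c ^ 3) (3 * j) ≠ 0 := eim_dO_ne _ _ (pow_ne_zero _ hc) (by omega)
  obtain ⟨q, hq⟩ : ∃ q : ℤ, (4 : ℤ) ^ κ = 1 + 3 * q := by
    have h4 : (4 : ℤ) ^ κ ≡ 1 ^ κ [ZMOD 3] := (show (4 : ℤ) ≡ 1 [ZMOD 3] by decide).pow κ
    rw [one_pow] at h4
    obtain ⟨q, hq⟩ := (Int.modEq_iff_dvd.1 h4.symm)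
    exact ⟨q, by linear_combination hq⟩
  set z' : ℤ := z * 2 ^ κ - 3 * |z| * 2 ^ κ with hz'
  have h24 : (2 : ℤ) ^ κ * 2 ^ κ = 4 ^ κ := by rw [← mul_pow]; norm_num
  have hn0 : 0 ≤ |z| * 4 ^ κ - z * q := by
    have h1 : z * q ≤ |z| * q := by
      have : 0 ≤ q := by
        have : (1 : ℤ) ≤ 4 ^ κ := one_le_pow₀ (by norm_num)
        omega
      exact mul_le_mul_of_nonneg_right (le_abs_self z) this
    have h2 : |z| * q ≤ |z| * 4 ^ κ := by
      apply mul_le_mul_of_nonneg_left _ (abs_nonneg z)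
      have : 0 ≤ q := by
        have : (1 : ℤ) ≤ 4 ^ κ := one_le_pow₀ (by norm_num)
        omega
      omega
    linarith
  obtain ⟨n, hn⟩ := Int.eq_ofNat_of_zero_le hn0
  have hsum : z = 3 * (n : ℤ) + z' * ((2 ^ κ : ℕ) : ℤ) := by
    rw [← hn, hz']
    push_cast
    linear_combination (-z + 3 * |z|) * h24 - z * hq
  have e1 : eO c j ^ z = dO (c ^ 3) (3 * j) ^ n * (eO c j ^ z') ^ 2 ^ κ := by
    rw [← eim_cube ee.1 c j hj, ← pow_mul, ← zpow_natCast, ← zpow_natCast (eO c j ^ z'),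
      ← zpow_mul, ← zpow_add₀ he]
    exact congrArg (fun y : ℤ => eO c j ^ y) hsum
  rw [e1]
  apply gdd_mul_pow (zpow_ne_zero _ he)
  have h3 := gdd_pow hO (fun κ => C * qq κ)
    (fun κ => gdd_D' ht0 (pow_ne_zero 3 hc) (by omega) hi hi' κ) κ n
  rw [dl_mul] at h3
  exact h3

theorem gdd_prod {t : OB} {κ : ℕ} {ι : Type*} (s : Finset ι) (f : ι → Om) (d : ι → ℕ)
    (h : ∀ i ∈ s, Gdd t κ (f i) (d i)) : Gdd t κ (∏ i ∈ s, f i) (∑ i ∈ s, d i) := by
  classical
  induction s using Finset.induction_on with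
  | empty =>
    rw [Finset.prod_empty, Finset.sum_empty]
    refine gdd_hom one_ne_zero 0 fun n hn => ?_
    rw [HahnSeries.coeff_one] at hn
    split_ifs at hn with h0
    · rw [h0, Int.cast_zero]
    · exact absurd rfl hn
  | insert a s ha ih =>
    rw [Finset.prod_insert ha, Finset.sum_insert ha]
    exact (h a (Finset.mem_insert_self _ _)).mul (ih fun i hi => h i (Finset.mem_insert_of_mem hi))

/-- `x` has a multiple by a nonzero polynomial in `t` that is integral -/
def Al (t x : OB) : Prop := ∃ A : Polynomial kk, A ≠ 0 ∧ Ie t (Polynomial.aeval t A * x)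

theorem Ie.al {t x : OB} (h : Ie t x) : Al t x :=
  ⟨1, one_ne_zero, by rw [map_one, one_mul]; exact h⟩

theorem Al.mul {t x y : OB} (hx : Al t x) (hy : Al t y) : Al t (x * y) := by
  obtain ⟨A, hA, h1⟩ := hx
  obtain ⟨B, hB, h2⟩ := hy
  refine ⟨A * B, mul_ne_zero hA hB, ?_⟩
  have : Polynomial.aeval t (A * B) * (x * y) =
      (Polynomial.aeval t A * x) * (Polynomial.aeval t B * y) := by
    rw [map_mul]
    ring
  rw [this]
  exact h1.mul h2

theorem Al.pow {t x : OB} (hx : Al t x) (n : ℕ) : Al t (x ^ n) := by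
  induction n with
  | zero => rw [pow_zero]; exact (ie_one t).al
  | succ n ih => rw [pow_succ]; exact ih.mul hx

theorem Al.prod {t : OB} {ι : Type*} (s : Finset ι) (f : ι → OB) (h : ∀ i ∈ s, Al t (f i)) :
    Al t (∏ i ∈ s, f i) := by
  classical
  induction s using Finset.induction_on with
  | empty => rw [Finset.prod_empty]; exact (ie_one t).al
  | insert a s ha ih =>
    rw [Finset.prod_insert ha]
    exact (h a (Finset.mem_insert_self _ _)).mul (ih fun i hi => h i (Finset.mem_insert_of_mem hi))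

theorem al_inv {t y : OB} (ht : Transcendental kk t) (hy : Ie t y) : Al t y⁻¹ := by
  letI : Algebra (Polynomial kk) OB := ((Polynomial.aeval t : Polynomial kk →ₐ[kk] OB) :
    Polynomial kk →+* OB).toAlgebra
  have hinj : Function.Injective (algebraMap (Polynomial kk) OB) :=
    transcendental_iff_injective.1 ht
  have h1 : IsIntegral (Polynomial kk) y := hy
  have h2 : IsAlgebraic (Polynomial kk) y⁻¹ := h1.isAlgebraic.inv
  obtain ⟨A, hA, h3⟩ := h2.exists_integral_multiple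
  refine ⟨A, hA, ?_⟩
  rw [Algebra.smul_def] at h3
  exact h3

theorem al_zpow {t y : OB} (ht : Transcendental kk t) (hy : Ie t y) (z : ℤ) : Al t (y ^ z) := by
  cases z with
  | ofNat n => rw [Int.ofNat_eq_natCast, zpow_natCast]; exact hy.al.pow n
  | negSucc n => rw [zpow_negSucc, ← inv_pow]; exact (al_inv ht hy).pow _

end Pool.Agent.K7.H91.SQ
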