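import Pool.Agent.K7.H91.SQ.DegE
import Pool.Agent.Y627.PT.Eta

set_option autoImplicit false

/-!
# Eta-quotients at the vertices
-/

namespace Pool.Agent.K7.H91.SQ

open PowerSeries Pool.Agent.TH693.QQ Pool.Agent.H397R2.PP Pool.Agent.Y627.PT
open Pool.Agent.TH693.PP (S E)
open Pool.Agent.R836.RD Pool.Agent.R836.RD.FINBaux

/-- the eta-quotient at the point `c w` -/
noncomputable def Wf (D : Finset ℕ) (j : ℕ → ℕ) (z : ℕ → ℤ) (c : kk) : Om :=
  ∏ d ∈ D, eO (c ^ j d) (j d) ^ z d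

theorem ev_ex (c : kk) (j l : ℕ) (hj : j ≠ 0) (hl : l ≠ 0) (f : S) :
    ev c j (ex l hl f) = ev (c ^ l) (l * j) f := by
  unfold ev
  change HahnSeries.ofPowerSeries ℤ kk (pt c j (ik (ex l hl f))) =
    HahnSeries.ofPowerSeries ℤ kk (pt (c ^ l) (l * j) (ik f))
  rw [eim_pt_ex c j l hj hl]

theorem eO_two (c : kk) (j : ℕ) (hj : j ≠ 0) : eO (c ^ 2) (2 * j) = eO c j ^ 2 := by
  unfold eO
  rw [← map_pow, ← ev_ex c j 2 hj (by norm_num)]
  congr 1
  exact (pow_eq_expand' 2 1 (by norm_num) (by norm_num) Ee).symm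

theorem eO_two_pow (c : kk) (j : ℕ) (hj : j ≠ 0) (a : ℕ) :
    eO (c ^ 2 ^ a) (2 ^ a * j) = eO c j ^ 2 ^ a := by
  induction a with
  | zero => rw [pow_zero, pow_one, one_mul, pow_one]
  | succ a ih =>
    have e1 : c ^ 2 ^ (a + 1) = (c ^ 2 ^ a) ^ 2 := by rw [pow_succ 2 a, pow_mul]
    have e2 : 2 ^ (a + 1) * j = 2 * (2 ^ a * j) := by rw [pow_succ]; ring
    rw [e1, e2, eO_two _ _ (Nat.mul_ne_zero (by positivity) hj), ih, ← pow_mul, ← pow_succ]

theorem ex_comm (a b : ℕ) (ha : a ≠ 0) (hb : b ≠ 0) (f : S) :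
    ex a ha (ex b hb f) = ex b hb (ex a ha f) := by
  unfold ex
  rw [← PowerSeries.expand_mul a ha b hb, ← PowerSeries.expand_mul b hb a ha]
  congr 2
  exact mul_comm a b

theorem ex_Ee {d : ℕ} (hd : d ≠ 0) : ex d hd Ee = X ^ d * ex 24 (by norm_num) (ex d hd E) := by
  unfold Ee
  rw [map_mul, ee_ex_X, ex_comm]

/-- the value of the eta-quotient -/
theorem Wf_eq (D : Finset ℕ) (u v : ℕ → ℕ) (hD : 0 ∉ D) (F : ℤ⟦X⟧)
    (hF : F * ∏ d ∈ D, eul d ^ v d = ∏ d ∈ D, eul d ^ u d) (a j : ℕ → ℕ)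
    (ha : ∀ d ∈ D, d = 2 ^ a d * j d) (c : kk) (hc : c ≠ 0) :
    Wf D j (fun d => 2 ^ a d * ((u d : ℤ) - v d)) c =
      HahnSeries.single (1 : ℤ) c ^ (∑ d ∈ D, (d : ℤ) * ((u d : ℤ) - v d)) *
        ev c 1 (ex 24 (by norm_num) (F.map (Int.castRingHom (ZMod 2)))) := by
  classical
  set G := F.map (Int.castRingHom (ZMod 2)) with hG
  have hne : ∀ d ∈ D, d ≠ 0 := fun d hd h => hD (h ▸ hd)
  have hj : ∀ d ∈ D, j d ≠ 0 := fun d hd h => hne d hd (by rw [ha d hd, h, mul_zero])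
  have h1 := congrArg (PowerSeries.map (Int.castRingHom (ZMod 2))) hF
  rw [map_mul, map_prod, map_prod, ← hG] at h1
  have h2 := congrArg (fun f => ev c 1 (ex 24 (by norm_num) f)) h1
  rw [map_mul, map_prod, map_prod, map_mul, map_prod, map_prod] at h2
  -- the values of `e`
  have h3 : ∀ d ∈ D, eO (c ^ d) d = HahnSeries.single (1 : ℤ) c ^ d *
      ev c 1 (ex 24 (by norm_num) ((eul d).map (Int.castRingHom (ZMod 2)))) := by
    intro d hd
    rw [map_eul (hne d hd), ← GabP.ev_X, ← map_pow, ← map_mul, ← ex_Ee (hne d hd),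
      ev_ex c 1 d one_ne_zero (hne d hd), mul_one]
    rfl
  set B : ℕ → Om := fun d => ev c 1 (ex 24 (by norm_num) ((eul d).map (Int.castRingHom (ZMod 2))))
    with hB
  set s0 : Om := HahnSeries.single (1 : ℤ) c with hs0
  have hs00 : s0 ≠ 0 := by
    rw [hs0]
    exact HahnSeries.single_ne_zero hc
  have hcd : ∀ d ∈ D, eO (c ^ d) d ≠ 0 := fun d hd =>
    GabP.eO_ne _ (pow_ne_zero _ hc) d (hne d hd)
  have hB0 : ∀ d ∈ D, B d ≠ 0 := by
    intro d hd h0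
    apply hcd d hd
    rw [h3 d hd]
    change s0 ^ d * B d = 0
    rw [h0, mul_zero]
  have h4 : ev c 1 (ex 24 (by norm_num) G) * ∏ d ∈ D, B d ^ v d = ∏ d ∈ D, B d ^ u d := by
    refine Eq.trans ?_ (h2.trans ?_)
    · congr 1
      refine Finset.prod_congr rfl fun d _ => ?_
      rw [map_pow, map_pow, map_pow]
    · refine Finset.prod_congr rfl fun d _ => ?_
      rw [map_pow, map_pow, map_pow]
  have h5 : ev c 1 (ex 24 (by norm_num) G) = ∏ d ∈ D, B d ^ ((u d : ℤ) - v d) := by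
    have h6 : ∏ d ∈ D, B d ^ v d ≠ 0 :=
      Finset.prod_ne_zero_iff.2 fun d hd => pow_ne_zero _ (hB0 d hd)
    rw [eq_div_of_mul_eq h6 h4, ← Finset.prod_div_distrib]
    refine Finset.prod_congr rfl fun d hd => ?_
    rw [zpow_sub₀ (hB0 d hd), zpow_natCast, zpow_natCast]
  have h7 : s0 ^ (∑ d ∈ D, (d : ℤ) * ((u d : ℤ) - v d)) = ∏ d ∈ D, (s0 ^ d) ^ ((u d : ℤ) - v d) := by
    clear h5 h4 h2 h1 h3 hcd hB0 hj ha
    clear hF
    induction D using Finset.induction_on with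
    | empty => rw [Finset.sum_empty, Finset.prod_empty, zpow_zero]
    | insert x s hx ih =>
      rw [Finset.sum_insert hx, Finset.prod_insert hx, zpow_add₀ hs00,
        ih (fun h => hD (Finset.mem_insert_of_mem h)) (fun d hd => hne d (Finset.mem_insert_of_mem hd)),
        zpow_mul, zpow_natCast]
  rw [h7, h5, ← Finset.prod_mul_distrib]
  unfold Wf
  refine Finset.prod_congr rfl fun d hd => ?_
  have e1 := eO_two_pow (c ^ j d) (j d) (hj d hd) (a d)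
  rw [← pow_mul, mul_comm (j d), ← ha d hd] at e1
  rw [zpow_mul]
  have e2 : eO (c ^ j d) (j d) ^ ((2 : ℤ) ^ a d) = eO (c ^ d) d := by
    have e3 : ((2 : ℤ) ^ a d) = ((2 ^ a d : ℕ) : ℤ) := by push_cast; rfl
    rw [e1, e3, zpow_natCast]
  rw [e2, h3 d hd, mul_zpow]

/-- the coefficients -/
theorem Wf_coeff (D : Finset ℕ) (u v : ℕ → ℕ) (hD : 0 ∉ D) (F : ℤ⟦X⟧)
    (hF : F * ∏ d ∈ D, eul d ^ v d = ∏ d ∈ D, eul d ^ u d) (a j : ℕ → ℕ)
    (ha : ∀ d ∈ D, d = 2 ^ a d * j d) (c : kk) (hc : c ≠ 0) (s : ℤ)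
    (hs : s = ∑ d ∈ D, (d : ℤ) * ((u d : ℤ) - v d)) (n : ℤ) :
    (Wf D j (fun d => 2 ^ a d * ((u d : ℤ) - v d)) c).coeff n =
      if 24 ∣ n - s ∧ s ≤ n then c ^ n * algebraMap (ZMod 2) kk
        (coeff ((n - s) / 24).toNat (F.map (Int.castRingHom (ZMod 2)))) else 0 := by
  rw [Wf_eq D u v hD F hF a j ha c hc, ← hs]
  have hsz : (HahnSeries.single (1 : ℤ) c : Om) ^ s = HahnSeries.single s (c ^ s) := by
    have h0 : (HahnSeries.single (1 : ℤ) c : Om) ≠ 0 := HahnSeries.single_ne_zero hc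
    have hnat : ∀ m : ℕ, (HahnSeries.single (1 : ℤ) c : Om) ^ m = HahnSeries.single (m : ℤ) (c ^ m) := by
      intro m
      rw [HahnSeries.single_pow]
      congr 1
      simp
    cases s with
    | ofNat m =>
      rw [Int.ofNat_eq_natCast, zpow_natCast, zpow_natCast, hnat]
    | negSucc m =>
      rw [zpow_negSucc, zpow_negSucc, hnat]
      have h1 : (HahnSeries.single (((m + 1 : ℕ) : ℤ)) (c ^ (m + 1)) : Om) *
          HahnSeries.single (Int.negSucc m) ((c ^ (m + 1))⁻¹) = 1 := by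
        rw [HahnSeries.single_mul_single, mul_inv_cancel₀ (pow_ne_zero _ hc)]
        have : ((m + 1 : ℕ) : ℤ) + Int.negSucc m = 0 := by omega
        rw [this]
        rfl
      exact inv_eq_of_mul_eq_one_right h1
  rw [hsz]
  have h6 : n = (n - s) + s := by ring
  conv_lhs => rw [h6]
  rw [HahnSeries.coeff_single_mul_add, GabP.ev_ex24]
  by_cases h : 24 ∣ n - s ∧ 0 ≤ n - s
  · rw [if_pos h, if_pos ⟨h.1, by omega⟩, ← mul_assoc, ← zpow_add₀ hc]
    congr 2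
    ring
  · rw [if_neg h, if_neg (fun h' => h ⟨h'.1, by omega⟩), mul_zero]

/-- the section of the eta-quotient -/
noncomputable def Vf (D : Finset ℕ) (j : ℕ → ℕ) (z : ℕ → ℤ) (ζ : kk) (m0 : ℕ) (N0 : ℤ) : Om :=
  ∑ i ∈ Finset.range m0, HahnSeries.C ((ζ ^ i) ^ (-N0)) * Wf D j z (ζ ^ i)

theorem Vf_coeff (D : Finset ℕ) (u v : ℕ → ℕ) (hD : 0 ∉ D) (F : ℤ⟦X⟧)
    (hF : F * ∏ d ∈ D, eul d ^ v d = ∏ d ∈ D, eul d ^ u d) (a j : ℕ → ℕ)
    (ha : ∀ d ∈ D, d = 2 ^ a d * j d) (s : ℤ)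
    (hs : s = ∑ d ∈ D, (d : ℤ) * ((u d : ℤ) - v d)) {m0 : ℕ} (hm0 : Odd m0) {ζ : kk}
    (hζ : IsPrimitiveRoot ζ m0) (N0 n : ℤ) :
    (Vf D j (fun d => 2 ^ a d * ((u d : ℤ) - v d)) ζ m0 N0).coeff n =
      if (m0 : ℤ) ∣ n - N0 then
        (Wf D j (fun d => 2 ^ a d * ((u d : ℤ) - v d)) 1).coeff n else 0 := by
  have hζ0 : ζ ≠ 0 := hζ.ne_zero hm0.pos.ne'
  unfold Vf
  rw [HahnSeries.coeff_sum]
  simp only [coeff_CC]
  rw [Finset.sum_congr rfl fun i _ => by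
    rw [Wf_coeff D u v hD F hF a j ha (ζ ^ i) (pow_ne_zero _ hζ0) s hs]]
  rw [Wf_coeff D u v hD F hF a j ha 1 one_ne_zero s hs]
  by_cases h : 24 ∣ n - s ∧ s ≤ n
  · simp only [if_pos h, one_zpow, one_mul]
    set A := algebraMap (ZMod 2) kk (coeff ((n - s) / 24).toNat (F.map (Int.castRingHom (ZMod 2))))
      with hA
    have e1 : ∀ i ∈ Finset.range m0, (ζ ^ i) ^ (-N0) * ((ζ ^ i) ^ n * A) = (ζ ^ (n - N0)) ^ i * A := by
      intro i _
      rw [← mul_assoc, ← zpow_add₀ (pow_ne_zero _ hζ0), ← zpow_natCast, ← zpow_natCast, ← zpow_mul,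
        ← zpow_mul]
      congr 2
      ring
    rw [Finset.sum_congr rfl e1, ← Finset.sum_mul]
    set x : kk := ζ ^ (n - N0) with hx
    by_cases hd : (m0 : ℤ) ∣ n - N0
    · have hx1 : x = 1 := by rw [hx, hζ.zpow_eq_one_iff_dvd]; exact hd
      rw [if_pos hd, hx1]
      simp only [one_pow, Finset.sum_const, Finset.card_range, nsmul_eq_mul, mul_one]
      obtain ⟨q, hq⟩ := hm0
      rw [hq]
      push_cast
      rw [show (2 : kk) = 0 from CharTwo.two_eq_zero, zero_mul, zero_add, one_mul]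
    · rw [if_neg hd]
      have hx1 : x ≠ 1 := by rw [hx, Ne, hζ.zpow_eq_one_iff_dvd]; exact hd
      have hxM : x ^ m0 = 1 := by
        rw [hx, ← zpow_natCast, ← zpow_mul, mul_comm, zpow_mul, zpow_natCast, hζ.pow_eq_one, one_zpow]
      have hg := geom_sum_mul x m0
      rw [hxM, sub_self] at hg
      rw [(mul_eq_zero.1 hg).resolve_right (sub_ne_zero.2 hx1), zero_mul]
  · simp only [if_neg h, mul_zero, Finset.sum_const_zero, ite_self]

end Pool.Agent.K7.H91.SQ
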