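import Pool.Agent.K7.H91.SQ.Sig

set_option autoImplicit false

/-!
# The order of an element of bounded degree fixed by the automorphisms that fix a finite set
-/

namespace Pool.Agent.K7.H91.SQ

open PowerSeries Pool.Agent.TH693.QQ Pool.Agent.H397R2.PP
open Pool.Agent.TH693.PP (S)
open Pool.Agent.R836.RD Pool.Agent.R836.RD.FINBaux

theorem Ie.map {t x : OB} (hx : Ie t x) (ρ : OB ≃ₐ[kk] OB) : Ie (ρ t) (ρ x) := by
  obtain ⟨p, hp, h0⟩ := hx
  refine ⟨p, hp, ?_⟩
  have h1 := congrArg ρ h0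
  rw [map_zero] at h1
  change (ρ : OB →+* OB) _ = 0 at h1
  rw [Polynomial.hom_eval₂] at h1
  rw [← h1]
  congr 1
  ext x
  · simp
  · simp

theorem conj_finite {t x : OB} (hx : Ie t x) :
    {y : OB | ∃ ρ : OB ≃ₐ[kk] OB, ρ t = t ∧ ρ x = y}.Finite := by
  classical
  obtain ⟨p, hp, h0⟩ := hx
  set P := p.map ((Polynomial.aeval t : Polynomial kk →ₐ[kk] OB) : Polynomial kk →+* OB) with hP
  refine (P.roots.toFinset.finite_toSet).subset ?_
  rintro y ⟨ρ, h1, rfl⟩
  rw [Finset.mem_coe, Multiset.mem_toFinset, Polynomial.mem_roots (hp.map _).ne_zero,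
    Polynomial.IsRoot.def, Polynomial.eval_map]
  have h2 := congrArg ρ h0
  rw [map_zero] at h2
  change (ρ : OB →+* OB) _ = 0 at h2
  rw [Polynomial.hom_eval₂] at h2
  rw [← h2]
  congr 1
  ext x
  · simp
  · simp [h1]

theorem order_nonneg {L : ℕ} {q : Om} (h : Ie (dB 1 L) (io' q)) : 0 ≤ q.order := by
  obtain ⟨p, hp, h0⟩ := h
  let s : Sk := pt 1 L (ik Db)
  have hs : algebraMap Sk Om s = dO 1 L := rfl
  have h1 : IsIntegral Sk q := by
    refine ⟨p.map ((Polynomial.aeval s : Polynomial kk →ₐ[kk] Sk) : Polynomial kk →+* Sk),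
      hp.map _, ?_⟩
    apply (algebraMap Om OB).injective
    rw [map_zero, Polynomial.eval₂_map]
    rw [Polynomial.hom_eval₂, ← h0]
    congr 1
    ext x
    · simp only [RingHom.coe_comp, Function.comp_apply, RingHom.coe_coe, Polynomial.aeval_C]
      rfl
    · simp only [RingHom.coe_comp, Function.comp_apply, RingHom.coe_coe, Polynomial.aeval_X]
      rfl
  obtain ⟨y, hy⟩ := IsIntegrallyClosed.isIntegral_iff.1 h1
  by_cases hq : q = 0
  · rw [hq, HahnSeries.order_zero]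
  · by_contra hneg
    push Not at hneg
    have h2 : q.coeff q.order ≠ 0 := HahnSeries.coeff_order_eq_zero.not.2 hq
    apply h2
    rw [← hy]
    have h3 := PowerSeries.coeff_coe (R := kk) (f := y) ((algebraMap Sk Om y).order)
    refine h3.trans ?_
    rw [if_pos]
    rw [hy]
    exact hneg

/-- the automorphisms that fix `t`, restricted to a finite set -/
def tup (t : OB) (X : Finset OB) : Set (X → OB) :=
  {τ | ∃ ρ : OB ≃ₐ[kk] OB, ρ t = t ∧ ∀ x : X, ρ x = τ x}

theorem tup_finite {t : OB} {X : Finset OB} (hX : ∀ x ∈ X, Ie t x) : (tup t X).Finite := by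
  have h1 : (Set.pi Set.univ fun x : X =>
      {y : OB | ∃ ρ : OB ≃ₐ[kk] OB, ρ t = t ∧ ρ (x : OB) = y}).Finite :=
    Set.Finite.pi fun x => conj_finite (hX x x.2)
  refine h1.subset ?_
  rintro τ ⟨ρ, h2, h3⟩ x _
  exact ⟨ρ, h2, h3 x⟩

theorem pow_fix {t : OB} {ρ : OB ≃ₐ[kk] OB} (h : ρ t = t) (n : ℕ) : (ρ ^ n) t = t := by
  induction n with
  | zero => rfl
  | succ n ih => rw [pow_succ, AlgEquiv.mul_apply, h, ih]

/-- a power of bounded exponent fixes the finite set -/
theorem exists_power {t : OB} {X : Finset OB} (hX : ∀ x ∈ X, Ie t x) {ρ : OB ≃ₐ[kk] OB}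
    (hρ : ρ t = t) : ∃ r : ℕ, 1 ≤ r ∧ r ≤ (tup t X).ncard ∧ (ρ ^ r) t = t ∧
      ∀ x ∈ X, (ρ ^ r) x = x := by
  classical
  have hfin := tup_finite hX
  set T : Finset (X → OB) := hfin.toFinset with hT
  have hcard : (tup t X).ncard = T.card := Set.ncard_eq_toFinset_card _ hfin
  have hmaps : Set.MapsTo (fun n : ℕ => fun x : X => (ρ ^ n) (x : OB))
      (Finset.range (T.card + 1)) T := by
    intro n _
    rw [hT, Set.Finite.coe_toFinset]
    exact ⟨ρ ^ n, pow_fix hρ n, fun x => rfl⟩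
  obtain ⟨i, hi, j, hj, hij, heq⟩ := Finset.exists_ne_map_eq_of_card_lt_of_maps_to
    (by rw [Finset.card_range]; omega) hmaps
  have key : ∀ i j : ℕ, i < j → j ≤ T.card →
      ((fun x : X => (ρ ^ i) (x : OB)) = fun x : X => (ρ ^ j) (x : OB)) →
      ∃ r : ℕ, 1 ≤ r ∧ r ≤ T.card ∧ (ρ ^ r) t = t ∧ ∀ x ∈ X, (ρ ^ r) x = x := by
    intro i j hij hj h
    refine ⟨j - i, by omega, by omega, pow_fix hρ _, fun x hx => ?_⟩
    have h1 := congrFun h ⟨x, hx⟩
    simp only at h1
    have e1 : ρ ^ j = ρ ^ i * ρ ^ (j - i) := by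
      rw [← pow_add]
      congr 1
      omega
    rw [e1, AlgEquiv.mul_apply] at h1
    exact ((ρ ^ i).injective h1).symm
  rw [hcard]
  rw [Finset.mem_range] at hi hj
  rcases Nat.lt_or_gt_of_ne hij with h | h
  · exact key i j h (by omega) heq
  · exact key j i h (by omega) heq.symm

/-- the bound for the order -/
theorem order_bound {L : ℕ} (hL : L ≠ 0) {X : Finset OB} (hX : ∀ x ∈ X, Ie (dB 1 L) x) {B : ℕ}
    {h : Om} (hh : h ≠ 0) (h1 : Ie (dB 1 L) (io' h)) (h2 : Ie (dB 1 L)⁻¹ (io' h * (dB 1 L)⁻¹ ^ B))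
    (hfix : ∀ ρ : OB ≃ₐ[kk] OB, ρ (dB 1 L) = dB 1 L → (∀ x ∈ X, ρ x = x) → ρ (io' h) = io' h) :
    h.order ≤ L * ((tup (dB 1 L) X).ncard * B) := by
  classical
  set t := dB 1 L with ht
  have htr : Transcendental kk t := EX0Aux.trans_D L hL
  have htr' : Transcendental kk t⁻¹ := by
    intro h
    exact htr (by
      have := h.inv
      rwa [inv_inv] at this)
  have hTf := tup_finite hX
  have hCf := conj_finite h1
  set C : Finset OB := hCf.toFinset with hC
  have hmem : ∀ y : OB, y ∈ C ↔ ∃ ρ : OB ≃ₐ[kk] OB, ρ t = t ∧ ρ (io' h) = y := by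
    intro y
    rw [hC, Set.Finite.mem_toFinset]
    rfl
  have hself : io' h ∈ C := (hmem _).2 ⟨AlgEquiv.refl, rfl, rfl⟩
  have hcard : C.card ≤ (tup t X).ncard := by
    choose! F hF1 hF2 using fun (τ : X → OB) (hτ : τ ∈ tup t X) => hτ
    have hsub : (C : Set OB) ⊆ (fun τ => F τ (io' h)) '' tup t X := by
      intro y hy
      rw [Finset.mem_coe, hmem] at hy
      obtain ⟨ρ, h3, rfl⟩ := hy
      have hτ : (fun x : X => ρ (x : OB)) ∈ tup t X := ⟨ρ, h3, fun x => rfl⟩
      refine ⟨_, hτ, ?_⟩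
      set ρ' := F (fun x : X => ρ (x : OB)) with hρ'
      have h4 := hF1 _ hτ
      have h5 := hF2 _ hτ
      rw [← hρ'] at h4 h5
      have h6 := hfix (ρ'⁻¹ * ρ) (by
        rw [AlgEquiv.mul_apply, h3]
        apply ρ'.injective
        rw [← AlgEquiv.mul_apply, mul_inv_cancel, AlgEquiv.one_apply, h4]) (by
        intro x hx
        rw [AlgEquiv.mul_apply]
        apply ρ'.injective
        rw [← AlgEquiv.mul_apply, mul_inv_cancel, AlgEquiv.one_apply]
        exact (h5 ⟨x, hx⟩).symm)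
      have h7 := congrArg ρ' h6
      rw [← AlgEquiv.mul_apply, ← mul_assoc, mul_inv_cancel, one_mul] at h7
      exact h7.symm
    calc C.card = (C : Set OB).ncard := (Set.ncard_coe_finset C).symm
      _ ≤ ((fun τ => F τ (io' h)) '' tup t X).ncard :=
          Set.ncard_le_ncard hsub (hTf.image _)
      _ ≤ (tup t X).ncard := Set.ncard_image_le hTf
  set β : OB := ∏ y ∈ C, y with hβ
  have hio : io' h ≠ 0 := by
    rw [Ne, _root_.map_eq_zero]
    exact hh
  have hβ0 : β ≠ 0 := by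
    rw [hβ, Finset.prod_ne_zero_iff]
    intro y hy
    obtain ⟨ρ, -, rfl⟩ := (hmem y).1 hy
    rw [Ne, map_eq_zero_iff ρ ρ.injective]
    exact hio
  have hperm : ∀ ρ : OB ≃ₐ[kk] OB, ρ t = t → ρ β = β := by
    intro ρ hρ
    have himg : C.image ρ = C := by
      apply Finset.eq_of_subset_of_card_le
      · intro y hy
        rw [Finset.mem_image] at hy
        obtain ⟨z, hz, rfl⟩ := hy
        obtain ⟨ρ', h3, rfl⟩ := (hmem z).1 hz
        exact (hmem _).2 ⟨ρ * ρ', by rw [AlgEquiv.mul_apply, h3, hρ], rfl⟩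
      · rw [Finset.card_image_of_injective _ ρ.injective]
    rw [hβ, map_prod]
    conv_rhs => rw [← himg]
    rw [Finset.prod_image fun x _ y _ h => ρ.injective h]
  have hint : ∀ y ∈ C, Ie t y := by
    intro y hy
    obtain ⟨ρ, h3, rfl⟩ := (hmem y).1 hy
    have := h1.map ρ
    rwa [h3] at this
  have hint' : ∀ y ∈ C, Ie t⁻¹ (y * t⁻¹ ^ B) := by
    intro y hy
    obtain ⟨ρ, h3, rfl⟩ := (hmem y).1 hy
    have := h2.map ρ
    rwa [map_mul, map_pow, map_inv₀, h3] at this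
  have hI1 : Ie t β := Ie.prod _ _ hint
  have hI2 : Ie t⁻¹ (β * t⁻¹ ^ (C.card * B)) := by
    have e1 : β * t⁻¹ ^ (C.card * B) = ∏ y ∈ C, (y * t⁻¹ ^ B) := by
      rw [Finset.prod_mul_distrib, Finset.prod_const, ← pow_mul, mul_comm B]
    rw [e1]
    exact Ie.prod _ _ hint'
  obtain ⟨e, he, Q, hQ⟩ := fixed_pow htr hI1 hperm
  obtain ⟨e', he', Q', hQ'⟩ := fixed_pow htr' hI2 (by
    intro ρ hρ
    have h1 : ρ t = t := by
      rw [map_inv₀] at hρ
      exact inv_injective hρ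
    rw [map_mul, map_pow, hρ, hperm ρ h1])
  obtain ⟨hQ0, hdeg⟩ := deg_le htr hβ0 he' hQ hQ'
  set p : OB := ∏ y ∈ C.erase (io' h), y with hp
  have hβp : β = io' h * p := by
    rw [hβ, hp, Finset.mul_prod_erase C (fun y => y) hself]
  set g : Om := Polynomial.aeval (dO 1 L) Q with hg
  have hgio : io' g = β ^ e := by
    rw [hQ, hg, ht]
    exact (Polynomial.aeval_algebraMap_apply OB (dO 1 L) Q).symm
  have hg0 : g ≠ 0 := by
    intro h0
    rw [h0, map_zero] at hgio
    exact pow_ne_zero e hβ0 hgio.symm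
  have hq : Ie t (io' (g / h ^ e)) := by
    have e1 : io' (g / h ^ e) = p ^ e := by
      rw [map_div₀, map_pow, hgio, hβp, mul_pow, mul_comm, mul_div_assoc,
        div_self (pow_ne_zero _ hio), mul_one]
    rw [e1]
    exact (Ie.prod _ _ fun y hy => hint y (Finset.mem_of_mem_erase hy)).pow e
  have h3 := order_nonneg hq
  have h4 := order_le hL hg0 (e := 1) hQ0 (by rw [pow_one, hgio, hQ])
  have hl1 : Lead h h.order := ⟨hh, rfl⟩
  have hl2 := Lead_pow hl1 e
  have hl3 := Lead.div (⟨hg0, rfl⟩ : Lead g g.order) hl2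
  rw [hl3.2] at h3
  have h5 : (Q.natDegree : ℤ) ≤ C.card * B * e := by exact_mod_cast hdeg
  have h6 : (C.card : ℤ) ≤ (tup t X).ncard := by exact_mod_cast hcard
  have h7 : (e : ℤ) * h.order ≤ e * (L * ((tup t X).ncard * B)) := by
    have h8 : (e : ℤ) * h.order ≤ g.order := by linarith
    have h9 : g.order ≤ L * Q.natDegree := by
      have := h4
      rw [Nat.cast_one, one_mul] at this
      exact this
    refine h8.trans (h9.trans ?_)
    calc (L : ℤ) * Q.natDegree ≤ L * (C.card * B * e) := by gcongr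
      _ ≤ L * ((tup t X).ncard * B * e) := by gcongr
      _ = e * (L * ((tup t X).ncard * B)) := by ring
  exact le_of_mul_le_mul_left h7 (by exact_mod_cast he)

end Pool.Agent.K7.H91.SQ
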