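import Pool.Agent.K7.H91.SQ.Deg
import Pool.Agent.R836.RD.FINB

set_option autoImplicit false

/-!
# The orders of the parts of a power of `D`
-/

namespace Pool.Agent.K7.H91.SQ

open PowerSeries Pool.Agent.TH693.QQ Pool.Agent.H397R2.PP
open Pool.Agent.TH693.PP (S)
open Pool.Agent.R836.RD Pool.Agent.R836.RD.FINBaux

theorem coeff_Db_pow (i j : ℕ) : coeff j (Db ^ i : S) = if i ≤ j then
    coeff (j - i) (((pentagonalSeries (ZMod 2)) ^ 24) ^ i) else 0 := by
  unfold Db
  rw [mul_pow, coeff_X_pow_mul']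

theorem coeff_Db_self (i : ℕ) : coeff i (Db ^ i : S) = 1 := by
  have h1 : coeff 1 (Db ^ 1 : S) = 1 := by
    rw [pow_one]
    exact EX0Aux.coeff_one_Db
  rw [coeff_Db_pow, if_pos le_rfl, Nat.sub_self, coeff_zero_eq_constantCoeff_apply, pow_one] at h1
  rw [coeff_Db_pow, if_pos le_rfl, Nat.sub_self, coeff_zero_eq_constantCoeff_apply, map_pow, h1,
    one_pow]

/-- the order of a polynomial in `D(w ^ L)` -/
theorem order_le {L : ℕ} (hL : L ≠ 0) {h : Om} (hh : h ≠ 0) {e : ℕ} {Q : Polynomial kk}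
    (hQ : Q ≠ 0) (heq : io' h ^ e = Polynomial.aeval (dB 1 L) Q) :
    (e : ℤ) * h.order ≤ L * Q.natDegree := by
  have h1 : h ^ e = Polynomial.aeval (dO 1 L) Q := by
    apply (algebraMap Om OB).injective
    rw [← Polynomial.aeval_algebraMap_apply, map_pow]
    exact heq
  have h2 : (h ^ e).order = e * h.order := by
    clear heq h1
    induction e with
    | zero => rw [pow_zero, HahnSeries.order_one]; simp
    | succ e ih =>
      rw [pow_succ, HahnSeries.order_mul (pow_ne_zero _ hh) hh, ih]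
      push_cast
      ring
  rw [← h2]
  have h3 : (h ^ e).coeff ((L * Q.natTrailingDegree : ℕ) : ℤ) ≠ 0 := by
    rw [h1, Polynomial.aeval_eq_sum_range, HahnSeries.coeff_sum]
    simp only [Algebra.smul_def]
    have h4 : ∀ i ∈ Finset.range (Q.natDegree + 1),
        (algebraMap kk Om (Q.coeff i) * dO 1 L ^ i).coeff ((L * Q.natTrailingDegree : ℕ) : ℤ) =
          if i = Q.natTrailingDegree then Q.coeff i else 0 := by
      intro i _
      have e1 : (algebraMap kk Om (Q.coeff i) * dO 1 L ^ i).coeff ((L * Q.natTrailingDegree : ℕ) : ℤ) =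
          Q.coeff i * (dO 1 L ^ i).coeff ((L * Q.natTrailingDegree : ℕ) : ℤ) := by
        rw [EX0Aux.algMap_Om, HahnSeries.coeff_single_zero_mul]
      have e2 : dO 1 L ^ i = ev 1 L (Db ^ i) := by rw [map_pow]; rfl
      rw [e1, e2, ev_coeff' 1 hL, if_neg (by omega), if_pos (by
        rw [Int.natAbs_natCast]; exact Dvd.intro _ rfl), Int.natAbs_natCast,
        Nat.mul_div_cancel_left _ (Nat.pos_of_ne_zero hL), one_pow, one_mul]
      rcases lt_trichotomy i Q.natTrailingDegree with h5 | h5 | h5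
      · rw [Polynomial.coeff_eq_zero_of_lt_natTrailingDegree h5, zero_mul, if_neg (by omega)]
      · rw [h5, coeff_Db_self, map_one, mul_one, if_pos rfl]
      · rw [coeff_Db_pow, if_neg (by omega), map_zero, mul_zero, if_neg (by omega)]
    rw [Finset.sum_congr rfl h4, Finset.sum_ite_eq', if_pos]
    · rw [Ne, ← Polynomial.trailingCoeff, Polynomial.trailingCoeff_eq_zero]
      exact hQ
    · rw [Finset.mem_range]
      have := Polynomial.natTrailingDegree_le_natDegree Q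
      omega
  have h5 := HahnSeries.order_le_of_coeff_ne_zero h3
  refine h5.trans ?_
  have := Polynomial.natTrailingDegree_le_natDegree Q
  push_cast
  gcongr

/-- the main inequality for a power of `D` -/
theorem ineq_D {L : ℕ} (hL : L ≠ 0) (n b : ℕ) (Γ : Finset (ZMod (2 ^ (b + 3))))
    (hΓ : ∀ g : ℤ, Odd g → ∀ γ ∈ Γ, (g : ZMod (2 ^ (b + 3))) ^ 2 * γ ∈ Γ)
    (hne : ∀ γ ∈ Γ, prO (b + 3) γ (dO 1 L ^ n) ≠ 0) :
    ∑ γ ∈ Γ, ((prO (b + 3) γ (dO 1 L ^ n)).order - (dO 1 L ^ n).order) ≤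
      L * (Γ.card * dl qq (b + 3)) := by
  classical
  set t := dB 1 L with ht
  have ht0 : t ≠ 0 := dB_ne L hL
  set f : Om := dO 1 L ^ n with hf
  have hf0 : dO 1 L ≠ 0 := by
    intro h
    apply ht0
    rw [ht]
    unfold dB
    rw [h, map_zero]
  have hfn : f ≠ 0 := pow_ne_zero _ hf0
  set α : OB := ∏ γ ∈ Γ, Xn (b + 3) γ f with hα
  set h : Om := ∏ γ ∈ Γ, (prO (b + 3) γ f / f) with hh
  have hαh : io' h = α := by
    rw [hh, hα, map_prod]
    refine Finset.prod_congr rfl fun γ _ => ?_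
    rw [map_div₀]
    rfl
  have hlead : Lead h (∑ γ ∈ Γ, ((prO (b + 3) γ f).order - f.order)) := by
    rw [hh]
    clear_value α
    clear hαh hα hh hΓ
    induction Γ using Finset.induction_on with
    | empty =>
      rw [Finset.prod_empty, Finset.sum_empty]
      exact ⟨one_ne_zero, HahnSeries.order_one⟩
    | insert a s ha ih =>
      rw [Finset.prod_insert ha, Finset.sum_insert ha]
      refine Lead.mul (Lead.div ⟨hne a (Finset.mem_insert_self _ _), rfl⟩ ⟨hfn, rfl⟩) ?_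
      exact ih (fun γ hγ => hne γ (Finset.mem_insert_of_mem hγ))
  have hα0 : α ≠ 0 := by
    rw [← hαh, Ne, _root_.map_eq_zero]
    exact hlead.1
  have hfix : ∀ ρ : OB ≃ₐ[kk] OB, ρ t = t → ρ α = α := by
    intro ρ hρ
    obtain ⟨g, hg, hact⟩ := act_part 1 hL 1 b ρ one_ne_zero hρ
    obtain ⟨u, hu⟩ := (isUnit_odd (b + 3) hg).pow 2
    rw [← hu] at hact
    have h1 := hact.pow n
    have h2 : ρ (io' f) = io' f := by
      have : io' f = t ^ n := by rw [hf, map_pow]; rfl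
      rw [this, map_pow, hρ]
    have h3 : ∀ γ : ZMod (2 ^ (b + 3)), ρ (Xn (b + 3) γ f) = Xn (b + 3) (u * γ) f := by
      intro γ
      unfold Xn
      rw [map_div₀, h2, h1 γ]
    rw [hα, map_prod]
    simp only [h3]
    have hmaps : ∀ γ ∈ Γ, (u : ZMod (2 ^ (b + 3))) * γ ∈ Γ := by
      intro γ hγ
      rw [hu]
      exact hΓ g hg γ hγ
    have hinj : Set.InjOn (fun γ : ZMod (2 ^ (b + 3)) => (u : ZMod (2 ^ (b + 3))) * γ) Γ := by
      intro x _ y _ hxy
      exact u.isUnit.mul_left_cancel hxy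
    have himg : Γ.image (fun γ : ZMod (2 ^ (b + 3)) => (u : ZMod (2 ^ (b + 3))) * γ) = Γ := by
      apply Finset.eq_of_subset_of_card_le
      · intro x hx
        rw [Finset.mem_image] at hx
        obtain ⟨y, hy, rfl⟩ := hx
        exact hmaps y hy
      · rw [Finset.card_image_of_injOn hinj]
    conv_rhs => rw [← himg]
    rw [Finset.prod_image hinj]
  have hG := gdd_pow hf0 qq (gdd_D L hL) (b + 3) n
  set B := Γ.card * dl qq (b + 3) with hB
  have hint : Ie t α := Ie.prod _ _ fun γ _ => (hG γ).1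
  have hint' : Ie t⁻¹ (α * t⁻¹ ^ B) := by
    have e1 : α * t⁻¹ ^ B = ∏ γ ∈ Γ, (Xn (b + 3) γ f * t⁻¹ ^ dl qq (b + 3)) := by
      rw [Finset.prod_mul_distrib, Finset.prod_const, ← pow_mul, hB, mul_comm (dl qq (b + 3))]
    rw [e1]
    exact Ie.prod _ _ fun γ _ => (hG γ).2
  have htr : Transcendental kk t := EX0Aux.trans_D L hL
  have htr' : Transcendental kk t⁻¹ := by
    intro h
    exact htr (by
      have := h.inv
      rwa [inv_inv] at this)
  obtain ⟨e, he, Q, hQ⟩ := fixed_pow htr hint hfix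
  obtain ⟨e', he', Q', hQ'⟩ := fixed_pow htr' hint' (by
    intro ρ hρ
    have h1 : ρ t = t := by
      rw [map_inv₀] at hρ
      exact inv_injective hρ
    rw [map_mul, map_pow, hρ, hfix ρ h1])
  obtain ⟨hQ0, hdeg⟩ := deg_le htr hα0 he' hQ hQ'
  rw [← hαh] at hQ
  have h4 := order_le hL hlead.1 hQ0 hQ
  rw [hlead.2] at h4
  have h5 : (Q.natDegree : ℤ) ≤ B * e := by exact_mod_cast hdeg
  have h6 : (e : ℤ) * ∑ γ ∈ Γ, ((prO (b + 3) γ f).order - f.order) ≤ e * (L * B) := by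
    refine h4.trans ?_
    calc (L : ℤ) * Q.natDegree ≤ L * (B * e) := by gcongr
      _ = e * (L * B) := by ring
  have h7 := le_of_mul_le_mul_left h6 (by exact_mod_cast he)
  rw [hB] at h7
  push_cast at h7 ⊢
  exact h7

theorem coeff_pow_two (g : Om) (κ : ℕ) : ∀ n : ℤ, (g ^ 2 ^ κ).coeff n ≠ 0 → (2 ^ κ : ℤ) ∣ n := by
  induction κ with
  | zero => intro n _; simp
  | succ κ ih =>
    intro n hn
    rw [pow_succ, pow_mul, coeff_sq] at hn
    split_ifs at hn with h
    · obtain ⟨m, rfl⟩ := h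
      rw [Int.mul_ediv_cancel_left _ (by norm_num)] at hn
      obtain ⟨c, hc⟩ := ih m (fun h0 => hn (by rw [h0, zero_pow (by norm_num)]))
      exact ⟨c, by rw [hc]; ring⟩
    · exact absurd rfl hn

/-- multiplication by a `2 ^ κ`-th power -/
theorem prO_mul_pow (κ : ℕ) (γ : ZMod (2 ^ κ)) (f g : Om) :
    prO κ γ (f * g ^ 2 ^ κ) = prO κ γ f * g ^ 2 ^ κ := by
  rw [DEL813.prO_mul]
  have h1 : ∀ β : ZMod (2 ^ κ), prO κ β (g ^ 2 ^ κ) = if 0 = β then g ^ 2 ^ κ else 0 := by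
    intro β
    apply prO_single_class
    intro n hn
    have := coeff_pow_two g κ n hn
    have h2 : ((n : ℤ) : ZMod (2 ^ κ)) = ((0 : ℤ) : ZMod (2 ^ κ)) := by
      rw [cast_eq_iff, zero_sub, dvd_neg]
      exact this
    rw [h2, Int.cast_zero]
  simp only [h1]
  rw [Finset.sum_eq_single γ]
  · rw [Finset.sum_eq_single 0]
    · rw [if_pos (add_zero γ), if_pos rfl]
    · intro β _ hβ
      rw [if_neg (Ne.symm hβ), mul_zero, ite_self]
    · intro h
      exact absurd (Finset.mem_univ _) h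
  · intro α _ hα
    apply Finset.sum_eq_zero
    intro β _
    by_cases hβ : 0 = β
    · rw [if_neg]
      rw [← hβ, add_zero]
      exact hα
    · rw [if_neg hβ, mul_zero, ite_self]
  · intro h
    exact absurd (Finset.mem_univ _) h

/-- the main inequality -/
theorem ineq {L : ℕ} (hL : L ≠ 0) (n b : ℕ) (g : Om) (hg : g ≠ 0) (W : Om)
    (hW : W = dO 1 L ^ n * g ^ 2 ^ (b + 3)) (Γ : Finset (ZMod (2 ^ (b + 3))))
    (hΓ : ∀ g : ℤ, Odd g → ∀ γ ∈ Γ, (g : ZMod (2 ^ (b + 3))) ^ 2 * γ ∈ Γ)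
    (hne : ∀ γ ∈ Γ, prO (b + 3) γ W ≠ 0) :
    ∑ γ ∈ Γ, ((prO (b + 3) γ W).order - W.order) ≤ L * (Γ.card * dl qq (b + 3)) := by
  have hgn : g ^ 2 ^ (b + 3) ≠ 0 := pow_ne_zero _ hg
  have hf0 : dO 1 L ≠ 0 := by
    intro h
    apply dB_ne L hL
    unfold dB
    rw [h, map_zero]
  have hpr : ∀ γ : ZMod (2 ^ (b + 3)), prO (b + 3) γ W = prO (b + 3) γ (dO 1 L ^ n) * g ^ 2 ^ (b + 3) := by
    intro γ
    rw [hW, prO_mul_pow]
  have hne' : ∀ γ ∈ Γ, prO (b + 3) γ (dO 1 L ^ n) ≠ 0 := by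
    intro γ hγ h0
    apply hne γ hγ
    rw [hpr, h0, zero_mul]
  refine le_trans (le_of_eq ?_) (ineq_D hL n b Γ hΓ hne')
  refine Finset.sum_congr rfl fun γ hγ => ?_
  rw [hpr, hW, HahnSeries.order_mul (hne' γ hγ) hgn, HahnSeries.order_mul (pow_ne_zero _ hf0) hgn]
  ring

end Pool.Agent.K7.H91.SQ
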