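import Pool.Agent.K7.H91.SQ.Step2

set_option autoImplicit false

/-!
# The values of `D` at the vertices below `(1, L)` are integral over `kk[D(w ^ L)]`
-/

namespace Pool.Agent.K7.H91.SQ

open PowerSeries Pool.Agent.TH693.QQ Pool.Agent.H397R2.PP
open Pool.Agent.TH693.PP (S)
open Pool.Agent.R836.RD

/-- transitivity -/
theorem Ie.trans {t y x : OB} (hy : Ie t y) (hx : Ie y x) : Ie t x := by
  letI i1 : Algebra (Polynomial kk) OB := ((Polynomial.aeval t : Polynomial kk →ₐ[kk] OB) :
    Polynomial kk →+* OB).toAlgebra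
  have hy' : IsIntegral (Polynomial kk) y := hy
  obtain ⟨p, hp, h0⟩ := hx
  have h1 : IsIntegral (integralClosure (Polynomial kk) OB) x := by
    -- the coefficients of `p` are polynomials in `y`
    have hmem : ∀ q : Polynomial kk, IsIntegral (Polynomial kk) (Polynomial.aeval y q) := by
      intro q
      have : Ie t (Polynomial.aeval y q) := by
        rw [Polynomial.aeval_eq_sum_range]
        refine Ie.sum _ _ fun i _ => ?_
        rw [Algebra.smul_def]
        refine Ie.mul ?_ ((show Ie t y from hy).pow i)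
        have h2 := ie_aeval t (Polynomial.C (q.coeff i))
        rwa [Polynomial.aeval_C] at h2
      exact this
    let f : Polynomial kk →+* integralClosure (Polynomial kk) OB :=
      ((Polynomial.aeval y : Polynomial kk →ₐ[kk] OB) : Polynomial kk →+* OB).codRestrict
        (integralClosure (Polynomial kk) OB).toSubring hmem
    refine ⟨p.map f, hp.map f, ?_⟩
    rw [Polynomial.eval₂_map]
    exact h0
  exact isIntegral_trans x h1

/-- integrality from power sums -/
theorem ie_of_sums {t : OB} {r : ℕ} (x : Fin r → OB) (hx : Function.Injective x)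
    (h : ∀ n : ℕ, ∃ Q : Polynomial kk, ∑ i, x i ^ n = Polynomial.aeval t Q) (i0 : Fin r) :
    Ie t (x i0) := by
  letI i1 : Algebra (Polynomial kk) OB := ((Polynomial.aeval t : Polynomial kk →ₐ[kk] OB) :
    Polynomial kk →+* OB).toAlgebra
  classical
  set H : Polynomial OB := ∏ i ∈ Finset.univ.erase i0, (Polynomial.X - Polynomial.C (x i)) with hH
  have hH0 : H.eval (x i0) ≠ 0 := by
    rw [hH, Polynomial.eval_prod, Finset.prod_ne_zero_iff]
    intro i hi
    rw [Polynomial.eval_sub, Polynomial.eval_X, Polynomial.eval_C, sub_ne_zero]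
    intro h1
    exact (Finset.ne_of_mem_erase hi) (hx h1).symm
  have hHi : ∀ i, i ≠ i0 → H.eval (x i) = 0 := by
    intro i hi
    rw [hH, Polynomial.eval_prod]
    exact Finset.prod_eq_zero (Finset.mem_erase.2 ⟨hi, Finset.mem_univ i⟩) (by simp)
  set N : Submodule (Polynomial kk) OB :=
    Submodule.span (Polynomial kk) (Set.range fun j : Fin (H.natDegree + 1) =>
      H.coeff j / H.eval (x i0)) with hN
  have hpow : ∀ n : ℕ, x i0 ^ n ∈ N := by
    intro n
    have h1 : ∑ i, H.eval (x i) * x i ^ n = H.eval (x i0) * x i0 ^ n := by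
      rw [Finset.sum_eq_single i0]
      · intro i _ hi
        rw [hHi i hi, zero_mul]
      · intro h2
        exact absurd (Finset.mem_univ _) h2
    have h3 : ∑ i, H.eval (x i) * x i ^ n =
        ∑ j ∈ Finset.range (H.natDegree + 1), H.coeff j * ∑ i, x i ^ (j + n) := by
      simp only [Polynomial.eval_eq_sum_range, Finset.sum_mul]
      rw [Finset.sum_comm]
      refine Finset.sum_congr rfl fun j _ => ?_
      rw [Finset.mul_sum]
      refine Finset.sum_congr rfl fun i _ => ?_
      rw [pow_add]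
      ring
    have h2 : x i0 ^ n = ∑ j ∈ Finset.range (H.natDegree + 1),
        (H.coeff j / H.eval (x i0)) * ∑ i, x i ^ (j + n) := by
      have h4 : x i0 ^ n = (H.eval (x i0) * x i0 ^ n) / H.eval (x i0) := by
        rw [mul_div_cancel_left₀ _ hH0]
      rw [h4, ← h1, h3, Finset.sum_div]
      refine Finset.sum_congr rfl fun j _ => ?_
      ring
    rw [h2]
    refine Submodule.sum_mem _ fun j hj => ?_
    obtain ⟨Q, hQ⟩ := h (j + n)
    rw [hQ, mul_comm]
    rw [Finset.mem_range] at hj
    have h5 : (H.coeff j / H.eval (x i0)) ∈ N := Submodule.subset_span ⟨⟨j, hj⟩, rfl⟩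
    have h6 := N.smul_mem Q h5
    rw [Algebra.smul_def] at h6
    exact h6
  have hfg : IsNoetherian (Polynomial kk) N :=
    isNoetherian_span_of_finite _ (Set.finite_range _)
  have hle : Subalgebra.toSubmodule (Algebra.adjoin (Polynomial kk) {x i0}) ≤ N := by
    intro z hz
    rw [Subalgebra.mem_toSubmodule, Algebra.adjoin_singleton_eq_range_aeval] at hz
    obtain ⟨q, rfl⟩ := hz
    change Polynomial.aeval (x i0) q ∈ N
    rw [Polynomial.aeval_eq_sum_range]
    exact Submodule.sum_mem _ fun j _ => Submodule.smul_mem _ _ (hpow j)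
  have hno : IsNoetherian (Polynomial kk)
      (Subalgebra.toSubmodule (Algebra.adjoin (Polynomial kk) {x i0})) :=
    isNoetherian_of_le hle
  exact isIntegral_of_submodule_noetherian _ hno _ (Algebra.self_mem_adjoin_singleton _ _)

/-- a neighbour above makes the value of `D` integral -/
theorem ie_nb {l : ℕ} (hl : l.Prime) (hl2 : l ≠ 2) {c : kk} (hc : c ≠ 0) {j : ℕ} (hj : 0 < j) :
    Ie (dB (c ^ l) (j * l)) (dB c j) := by
  have hl0 : l ≠ 0 := hl.ne_zero
  haveI : NeZero l := ⟨hl0⟩
  have hlk : ((l : ℕ) : kk) ≠ 0 := by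
    intro h
    have h2 : ringChar kk ∣ l := (ringChar.spec kk l).1 h
    have h3 : ringChar kk = 2 := ringChar.eq kk 2 |>.symm ▸ rfl
    rw [h3] at h2
    exact hl2 ((Nat.prime_dvd_prime_iff_eq Nat.prime_two hl).1 h2).symm
  haveI : NeZero ((l : ℕ) : kk) := ⟨hlk⟩
  obtain ⟨ζ, hζ⟩ : ∃ ζ : kk, IsPrimitiveRoot ζ l := HasEnoughRootsOfUnity.exists_primitiveRoot kk l
  have hζ0 : ζ ≠ 0 := hζ.ne_zero hl0
  let V : Fin (l + 1) → kk × ℕ := fun s =>
    Fin.cases (motive := fun _ => kk × ℕ) (c ^ (l * l), j * l * l)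
      (fun s : Fin l => (c * ζ ^ (s : ℕ), j)) s
  have hV0 : ∀ s : Fin (l + 1), (V s).1 ≠ 0 ∧ 0 < (V s).2 := by
    intro s
    refine Fin.cases ?_ (fun s => ?_) s
    · exact ⟨pow_ne_zero _ hc, Nat.mul_pos (Nat.mul_pos hj hl.pos) hl.pos⟩
    · exact ⟨mul_ne_zero hc (pow_ne_zero _ hζ0), hj⟩
  have hVinj : Function.Injective fun s => dB (V s).1 (V s).2 := by
    intro s t hd
    by_contra hst
    have hd' := (algebraMap Om OB).injective hd
    obtain ⟨h1, h2⟩ := inj _ _ _ _ (hV0 s).1 (hV0 t).1 (hV0 s).2 (hV0 t).2 hd'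
    have hne : j ≠ j * l * l := by
      intro h
      have : j * 1 < j * (l * l) := Nat.mul_lt_mul_of_pos_left (by nlinarith [hl.two_le]) hj
      rw [mul_one, ← mul_assoc] at this
      omega
    revert hst h1 h2
    refine Fin.cases ?_ (fun s => ?_) s
    · refine Fin.cases ?_ (fun t => ?_) t
      · intro h _ _
        exact h rfl
      · intro _ _ h2
        exact hne h2.symm
    · refine Fin.cases ?_ (fun t => ?_) t
      · intro _ _ h2
        exact hne h2
      · intro hst h1 _
        apply hst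
        have h3 : c * ζ ^ (s : ℕ) = c * ζ ^ (t : ℕ) := h1
        have h4 := mul_left_cancel₀ hc h3
        have h5 := hζ.pow_inj s.2 t.2 h4
        rw [Fin.ext h5]
  have hsum : ∀ n : ℕ, ∃ Q : Polynomial kk, ∑ s, (dB (V s).1 (V s).2) ^ n =
      Polynomial.aeval (dB (c ^ l) (j * l)) Q := by
    intro n
    obtain ⟨G, -, hG⟩ := hk l hl hl2 n
    have h1 := hG ζ c j hζ hc hj
    refine ⟨G.map (algebraMap (ZMod 2) kk), ?_⟩
    have h2 := congrArg io' h1
    rw [map_add, map_pow, map_sum] at h2
    rw [Fin.sum_univ_succ]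
    have h3 : ∑ i : Fin l, dB (V i.succ).1 (V i.succ).2 ^ n =
        ∑ s ∈ Finset.range l, io' (dO (c * ζ ^ s) j ^ n) := by
      rw [Finset.sum_range]
      refine Finset.sum_congr rfl fun i _ => ?_
      rw [map_pow]
      rfl
    rw [h3]
    refine h2.trans ?_
    change (io'.comp (ev (c ^ l) (j * l))) (Polynomial.aeval Db G) = _
    rw [Polynomial.aeval_def, Polynomial.hom_eval₂, Polynomial.aeval_map_algebraMap,
      Polynomial.aeval_def]
    congr 1
    exact Subsingleton.elim _ _
  have key := ie_of_sums (fun s => dB (V s).1 (V s).2) hVinj hsum ((⟨0, hl.pos⟩ : Fin l).succ)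
  have e1 : dB (V ((⟨0, hl.pos⟩ : Fin l).succ)).1 (V ((⟨0, hl.pos⟩ : Fin l).succ)).2 = dB c j := by
    change dB (c * ζ ^ 0) j = dB c j
    rw [pow_zero, mul_one]
  rw [← e1]
  exact key

/-- all vertices below `(1, L)` -/
theorem ie_vertex {L : ℕ} (hL : Odd L) : ∀ (k : ℕ) (c : kk) (j : ℕ), c ≠ 0 → j * k = L → c ^ k = 1 →
    Ie (dB 1 L) (dB c j) := by
  intro k
  induction k using Nat.strong_induction_on with
  | _ k ih =>
    intro c j hc hjk hck
    have hL0 : 0 < L := hL.pos
    rcases Nat.lt_or_ge 1 k with hk | hk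
    · obtain ⟨l, hl, hlk⟩ := Nat.exists_prime_and_dvd (show k ≠ 1 by omega)
      obtain ⟨k', rfl⟩ := hlk
      have hl2 : l ≠ 2 := by
        rintro rfl
        rw [← hjk] at hL
        exact absurd hL (by rw [Nat.not_odd_iff_even]; exact ⟨j * k', by ring⟩)
      have hj : 0 < j := by
        rcases Nat.eq_zero_or_pos j with h | h
        · rw [h, zero_mul] at hjk
          omega
        · exact h
      have hk' : 0 < k' := by
        rcases Nat.eq_zero_or_pos k' with h | h
        · rw [h, mul_zero, mul_zero] at hjk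
          omega
        · exact h
      have h1 : k' < l * k' := by
        have := hl.two_le
        nlinarith
      have h2 := ih k' h1 (c ^ l) (j * l) (pow_ne_zero _ hc) (by rw [← hjk]; ring)
        (by rw [← pow_mul]; exact hck)
      exact h2.trans (ie_nb hl hl2 hc hj)
    · have hk1 : k = 1 := by
        rcases Nat.eq_zero_or_pos k with h | h
        · rw [h, mul_zero] at hjk
          omega
        · omega
      rw [hk1, mul_one] at hjk
      rw [hk1, pow_one] at hck
      rw [hjk, hck]
      exact ie_self _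

end Pool.Agent.K7.H91.SQ
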