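import Pool.Agent.K7.H91.SQ.Int

set_option autoImplicit false

/-!
# Automorphisms that fix the values at the vertices act on all of them with one multiplier
-/

namespace Pool.Agent.K7.H91.SQ

open PowerSeries Pool.Agent.TH693.QQ Pool.Agent.H397R2.PP
open Pool.Agent.TH693.PP (S)
open Pool.Agent.R836.RD

theorem CompT.val {κ : ℕ} {ρ : OB ≃ₐ[kk] OB} {u : (ZMod (2 ^ κ))ˣ} {f f' : Om}
    (h : CompT κ ρ u f f') : ρ (io' f) = io' f' := by
  obtain ⟨Δ, hΔ, hr⟩ := del κ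
  rw [compT_iff Δ hΔ] at h
  rw [← hr, ← hr, ← h, res_mg]

theorem CompT.inv {κ : ℕ} {ρ : OB ≃ₐ[kk] OB} {u : (ZMod (2 ^ κ))ˣ} {f f' : Om}
    (h : CompT κ ρ u f f') (hf : f ≠ 0) : CompT κ ρ u f⁻¹ f'⁻¹ := by
  have hf' : f' ≠ 0 := by
    rintro rfl
    have := h.val
    rw [map_zero, map_eq_zero_iff ρ ρ.injective, _root_.map_eq_zero] at this
    exact hf this
  obtain ⟨Δ, hΔ, -⟩ := del κ
  rw [compT_iff Δ hΔ] at h ⊢
  have h1 : mg κ ρ u (Δ f⁻¹) * Δ f' = 1 := by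
    rw [← h, ← map_mul, ← map_mul, inv_mul_cancel₀ hf, map_one, map_one]
  have h2 : Δ f'⁻¹ * Δ f' = 1 := by
    rw [← map_mul, inv_mul_cancel₀ hf', map_one]
  calc mg κ ρ u (Δ f⁻¹) = mg κ ρ u (Δ f⁻¹) * (Δ f'⁻¹ * Δ f') := by rw [h2, mul_one]
    _ = Δ f'⁻¹ * (mg κ ρ u (Δ f⁻¹) * Δ f') := by ring
    _ = Δ f'⁻¹ := by rw [h1, mul_one]

theorem CompT.zpow {κ : ℕ} {ρ : OB ≃ₐ[kk] OB} {u : (ZMod (2 ^ κ))ˣ} {f f' : Om}
    (h : CompT κ ρ u f f') (hf : f ≠ 0) (z : ℤ) : CompT κ ρ u (f ^ z) (f' ^ z) := by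
  cases z with
  | ofNat n => rw [Int.ofNat_eq_natCast, zpow_natCast, zpow_natCast]; exact h.pow n
  | negSucc n =>
    rw [zpow_negSucc, zpow_negSucc]
    exact (h.pow (n + 1)).inv (pow_ne_zero _ hf)

theorem CompT.prod {κ : ℕ} {ρ : OB ≃ₐ[kk] OB} {u : (ZMod (2 ^ κ))ˣ} {ι : Type*} (s : Finset ι)
    (f f' : ι → Om) (h : ∀ i ∈ s, CompT κ ρ u (f i) (f' i)) :
    CompT κ ρ u (∏ i ∈ s, f i) (∏ i ∈ s, f' i) := by
  classical
  induction s using Finset.induction_on with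
  | empty => rw [Finset.prod_empty, Finset.prod_empty]; exact compT_one κ ρ u
  | insert a s ha ih =>
    rw [Finset.prod_insert ha, Finset.prod_insert ha]
    exact (h a (Finset.mem_insert_self _ _)).mul (ih fun i hi => h i (Finset.mem_insert_of_mem hi))

theorem compT_rpow {κ : ℕ} {ρ : OB ≃ₐ[kk] OB} {u : ZMod (2 ^ κ)} {f : Om}
    (h : CompT κ ρ u f f) (n : ℕ) : CompT κ (ρ ^ n) (u ^ n) f f := by
  induction n with
  | zero => intro γ; rw [pow_zero, pow_zero, one_mul]; rfl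
  | succ n ih =>
    intro γ
    rw [pow_succ ρ n, AlgEquiv.mul_apply, h γ, ih (u * γ), pow_succ]
    congr 2
    ring

/-- coarser classes -/
theorem prO_coarse {κ κ' : ℕ} (h : κ' ≤ κ) (γ' : ZMod (2 ^ κ')) (f : Om) :
    prO κ' γ' f = ∑ γ : ZMod (2 ^ κ),
      if ZMod.castHom (pow_dvd_pow 2 h) (ZMod (2 ^ κ')) γ = γ' then prO κ γ f else 0 := by
  classical
  ext n
  rw [HahnSeries.coeff_sum, DEL813.prO_coeff]
  have h1 : ∀ γ : ZMod (2 ^ κ),
      (if ZMod.castHom (pow_dvd_pow 2 h) (ZMod (2 ^ κ')) γ = γ' then prO κ γ f else 0).coeff n =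
      if γ = (n : ZMod (2 ^ κ)) then (if (n : ZMod (2 ^ κ')) = γ' then f.coeff n else 0) else 0 := by
    intro γ
    by_cases hγ : γ = (n : ZMod (2 ^ κ))
    · rw [if_pos hγ, hγ, map_intCast]
      split_ifs
      · rw [DEL813.prO_coeff, if_pos rfl]
      · rfl
    · rw [if_neg hγ]
      split_ifs
      · rw [DEL813.prO_coeff, if_neg (fun h => hγ h.symm)]
      · rfl
  rw [Finset.sum_congr rfl fun γ _ => h1 γ, Finset.sum_ite_eq', if_pos (Finset.mem_univ _)]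

theorem CompT.coarse {κ κ' : ℕ} (h : κ' ≤ κ) {ρ : OB ≃ₐ[kk] OB} {u : (ZMod (2 ^ κ))ˣ} {f f' : Om}
    (hc : CompT κ ρ u f f') :
    CompT κ' ρ (ZMod.castHom (pow_dvd_pow 2 h) (ZMod (2 ^ κ')) u) f f' := by
  intro γ'
  set θ := ZMod.castHom (pow_dvd_pow 2 h) (ZMod (2 ^ κ')) with hθ
  have hu : IsUnit (θ u) := u.isUnit.map θ
  rw [prO_coarse h γ' f, prO_coarse h (θ u * γ') f', map_sum, map_sum, map_sum]
  refine Fintype.sum_equiv (Units.mulLeft u) _ _ fun γ => ?_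
  rw [Units.mulLeft_apply, map_mul]
  by_cases hγ : θ γ = γ'
  · rw [if_pos hγ, if_pos (by rw [hγ]), hc γ]
  · rw [if_neg hγ, if_neg (fun h => hγ (hu.mul_left_cancel h)), map_zero, map_zero]

/-- if all parts are fixed, the multiplier is 1 -/
theorem mult_one {κ : ℕ} {ρ : OB ≃ₐ[kk] OB} {u : ZMod (2 ^ κ)} {L : ℕ} (hL : Odd L)
    (h : CompT κ ρ u (dO 1 L) (dO 1 L))
    (hfix : ρ (io' (prO κ (L : ZMod (2 ^ κ)) (dO 1 L))) = io' (prO κ (L : ZMod (2 ^ κ)) (dO 1 L))) :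
    u = 1 := by
  have h1 := h (L : ZMod (2 ^ κ))
  rw [hfix] at h1
  have h2 := EX0Aux.io_inj h1
  have hL0 : L ≠ 0 := hL.pos.ne'
  have h3 := congrArg (fun f : Om => f.coeff (L : ℤ)) h2
  simp only [DEL813.prO_coeff] at h3
  rw [if_pos (by push_cast; rfl), EX0Aux.coeff_self L hL0] at h3
  split_ifs at h3 with h4
  · have hu : IsUnit (L : ZMod (2 ^ κ)) := by
      have := isUnit_odd κ (b := (L : ℤ)) (by exact_mod_cast hL)
      exact_mod_cast this
    have h5 : u * (L : ZMod (2 ^ κ)) = 1 * (L : ZMod (2 ^ κ)) := by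
      rw [one_mul, ← h4]
      push_cast
      rfl
    exact hu.mul_right_cancel h5
  · exact absurd h3 one_ne_zero

/-- the vertices below `(1, L)` -/
theorem link_D {L : ℕ} (hL : Odd L) {κ : ℕ} {ρ : OB ≃ₐ[kk] OB} {u : (ZMod (2 ^ κ))ˣ}
    (h0 : CompT κ ρ u (dO 1 L) (dO 1 L))
    (hfix : ∀ (c : kk) (j k : ℕ), c ≠ 0 → j * k = L → c ^ k = 1 → ρ (dB c j) = dB c j) :
    ∀ (k : ℕ) (c : kk) (j : ℕ), c ≠ 0 → j * k = L → c ^ k = 1 →
      CompT κ ρ u (dO c j) (dO c j) := by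
  intro k
  induction k using Nat.strong_induction_on with
  | _ k ih =>
    intro c j hc hjk hck
    have hL0 : 0 < L := hL.pos
    rcases Nat.lt_or_ge 1 k with hk | hk
    · obtain ⟨l, hl, hlk⟩ := Nat.exists_prime_and_dvd (show k ≠ 1 by omega)
      obtain ⟨k', rfl⟩ := hlk
      have hl2 : l ≠ 2 := by
        rintro rfl
        rw [← hjk] at hL
        exact absurd hL (by rw [Nat.not_odd_iff_even]; exact ⟨j * k', by ring⟩)
      have hj : 0 < j := by
        rcases Nat.eq_zero_or_pos j with h | h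
        · rw [h, zero_mul] at hjk
          omega
        · exact h
      have hk' : 0 < k' := by
        rcases Nat.eq_zero_or_pos k' with h | h
        · rw [h, mul_zero, mul_zero] at hjk
          omega
        · exact h
      have h1 : k' < l * k' := by
        have := hl.two_le
        nlinarith
      have h2 := ih k' h1 (c ^ l) (j * l) (pow_ne_zero _ hc) (by rw [← hjk]; ring)
        (by rw [← pow_mul]; exact hck)
      have hjl : 0 < j * l := Nat.mul_pos hj hl.pos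
      obtain ⟨d', m', hNb, hcomp⟩ := stepT κ ρ u l hl hl2 (c ^ l) (c ^ l) (j * l) (j * l)
        (pow_ne_zero _ hc) (pow_ne_zero _ hc) hjl hjl (Dvd.intro_left _ rfl) (Dvd.intro_left _ rfl)
        h2 c j (Or.inr ⟨rfl, rfl⟩)
      have hv := hcomp.val
      have hfx : ρ (io' (dO c j)) = io' (dO c j) := hfix c j (l * k') hc hjk hck
      rw [hfx] at hv
      have hv' := EX0Aux.io_inj hv
      have hdm : d' ≠ 0 ∧ 0 < m' := by
        rcases hNb with ⟨h3, h4⟩ | ⟨h3, h4⟩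
        · exact ⟨by rw [h3]; exact pow_ne_zero _ (pow_ne_zero _ hc), by
            rw [h4]; exact Nat.mul_pos hjl hl.pos⟩
        · refine ⟨?_, ?_⟩
          · rintro rfl
            rw [zero_pow hl.ne_zero] at h3
            exact pow_ne_zero l hc h3.symm
          · rcases Nat.eq_zero_or_pos m' with h | h
            · rw [h, zero_mul] at h4
              omega
            · exact h
      obtain ⟨h5, h6⟩ := inj c d' j m' hc hdm.1 hj hdm.2 hv'
      rw [← h5, ← h6] at hcomp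
      exact hcomp
    · have hk1 : k = 1 := by
        rcases Nat.eq_zero_or_pos k with h | h
        · rw [h, mul_zero] at hjk
          omega
        · omega
      rw [hk1, mul_one] at hjk
      rw [hk1, pow_one] at hck
      rw [hjk, hck]
      exact h0

/-- the cube roots -/
theorem link_E {κ : ℕ} {ρ : OB ≃ₐ[kk] OB} {u : (ZMod (2 ^ κ))ˣ} {c : kk} (hc : c ≠ 0) {j : ℕ}
    (hj : j ≠ 0) (h : CompT κ ρ u (dO (c ^ 3) (3 * j)) (dO (c ^ 3) (3 * j)))
    (hfix : ρ (io' (eO c j)) = io' (eO c j)) : CompT κ ρ u (eO c j) (eO c j) := by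
  obtain ⟨Δ, hΔ, hr⟩ := del κ
  rw [compT_iff Δ hΔ] at h ⊢
  have hcube := eim_cube ee.1 c j hj
  have he : eO c j ≠ 0 := GabP.eO_ne c hc j hj
  have hio : io' (eO c j) ≠ 0 := by
    rw [Ne, _root_.map_eq_zero]
    exact he
  obtain ⟨ω, -, hω⟩ := cub un κ (mg κ ρ u (Δ (eO c j))) (Δ (eO c j)) (by rw [hr]; exact hio) (by
    rw [← map_pow, ← map_pow, hcube, h])
  have h1 := congrArg (res κ) hω
  rw [res_mg, hr, hfix, map_mul, StepAux.res_single, hr] at h1
  have h2 : io' (HahnSeries.C ω) = 1 := by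
    have h3 : (1 : OB) * io' (eO c j) = io' (HahnSeries.C ω) * io' (eO c j) := by
      rw [one_mul]
      exact h1
    exact (mul_right_cancel₀ hio h3).symm
  rw [hω, h2, ← AddMonoidAlgebra.one_def, one_mul]

end Pool.Agent.K7.H91.SQ
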