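import Pool.Agent.K7.H91.SQ.Act2

set_option autoImplicit false

/-!
# Odd coefficients of an eta-quotient in many classes modulo `2 ^ κ`
-/

namespace Pool.Agent.K7.H91.SQ

open PowerSeries Pool.Agent.TH693.QQ Pool.Agent.H397R2.PP Pool.Agent.Y627.PT
open Pool.Agent.TH693.PP (S E)
open Pool.Agent.R836.RD Pool.Agent.R836.RD.FINBaux

/-- a nonzero part determines its class -/
theorem class_unique {κ : ℕ} {γ γ' : ZMod (2 ^ κ)} {f : Om} (h : prO κ γ f = prO κ γ' f)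
    (hne : prO κ γ f ≠ 0) : γ = γ' := by
  have h1 : (prO κ γ f).coeff (prO κ γ f).order ≠ 0 := HahnSeries.coeff_order_eq_zero.not.2 hne
  have h2 := h1
  rw [DEL813.prO_coeff] at h1
  have h3 : (prO κ γ' f).coeff (prO κ γ f).order ≠ 0 := by rw [← h]; exact h2
  rw [DEL813.prO_coeff] at h3
  split_ifs at h1 with h4
  · split_ifs at h3 with h5
    · rw [← h4, ← h5]
    · exact absurd rfl h3
  · exact absurd rfl h1

theorem mult_unique {κ : ℕ} {ρ : OB ≃ₐ[kk] OB} {u u' : ZMod (2 ^ κ)} {L : ℕ} (hL : Odd L)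
    (h : CompT κ ρ u (dO 1 L) (dO 1 L)) (h' : CompT κ ρ u' (dO 1 L) (dO 1 L)) : u = u' := by
  have hL0 : L ≠ 0 := hL.pos.ne'
  have h1 := h (L : ZMod (2 ^ κ))
  have h2 := h' (L : ZMod (2 ^ κ))
  have h3 := EX0Aux.io_inj (h1.symm.trans h2)
  have hne : prO κ (u * (L : ZMod (2 ^ κ))) (dO 1 L) ≠ 0 := by
    intro h0
    rw [h0, map_zero, map_eq_zero_iff ρ ρ.injective, _root_.map_eq_zero] at h1
    have h4 := congrArg (fun f : Om => f.coeff (L : ℤ)) h1
    simp only [DEL813.prO_coeff] at h4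
    rw [if_pos (by push_cast; rfl), EX0Aux.coeff_self L hL0] at h4
    exact one_ne_zero h4
  have h4 := class_unique h3 hne
  have hu : IsUnit (L : ZMod (2 ^ κ)) := by
    have := isUnit_odd κ (b := (L : ℤ)) (by exact_mod_cast hL)
    exact_mod_cast this
  exact hu.mul_right_cancel h4

/-- the size of the orbit -/
theorem orbit_card {m : ℕ} {q : ℤ} (hq : Odd q) {r : ℕ} (hr : 1 ≤ r) {N0 : ℤ} (hN0 : N0 ≠ 0)
    (Γ : Finset (ZMod (2 ^ (m + 3))))
    (hΓ : ∀ n : ℕ, ((1 + 8 * q : ℤ) : ZMod (2 ^ (m + 3))) ^ (r * n) * (N0 : ZMod (2 ^ (m + 3))) ∈ Γ) :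
    2 ^ (m + 3) ≤ 16 * r * N0.natAbs * Γ.card := by
  classical
  have hN : 0 < N0.natAbs := Int.natAbs_pos.2 hN0
  set a := 8 * r * N0.natAbs with ha
  have ha0 : 0 < a := by positivity
  set K := 2 ^ (m + 3) / a with hK
  have hinj : Set.InjOn (fun n : ℕ => ((1 + 8 * q : ℤ) : ZMod (2 ^ (m + 3))) ^ (r * n) *
      (N0 : ZMod (2 ^ (m + 3)))) (Finset.range K) := by
    have key : ∀ i j : ℕ, i < j → j < K →
        ((1 + 8 * q : ℤ) : ZMod (2 ^ (m + 3))) ^ (r * i) * (N0 : ZMod (2 ^ (m + 3))) =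
        ((1 + 8 * q : ℤ) : ZMod (2 ^ (m + 3))) ^ (r * j) * (N0 : ZMod (2 ^ (m + 3))) → False := by
      intro i j hij hj h
      have hun : IsUnit (((1 + 8 * q : ℤ) : ZMod (2 ^ (m + 3))) ^ (r * i)) :=
        (isUnit_odd _ ⟨4 * q, by ring⟩).pow _
      have e1 : r * j = r * i + r * (j - i) := by
        rw [← mul_add]
        congr 1
        omega
      rw [e1, pow_add (((1 + 8 * q : ℤ)) : ZMod (2 ^ (m + 3))) (r * i), mul_assoc] at h
      have h1 := hun.mul_left_cancel h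
      have h2 : ((N0 : ℤ) : ZMod (2 ^ (m + 3))) =
          (((1 + 8 * q) ^ (r * (j - i)) * N0 : ℤ) : ZMod (2 ^ (m + 3))) := by
        push_cast at h1 ⊢
        exact h1
      rw [cast_eq_iff] at h2
      have h3 : (2 : ℤ) ^ (m + 3) ∣ N0 * ((1 + 8 * q) ^ (r * (j - i)) - 1) := by
        have : N0 * ((1 + 8 * q) ^ (r * (j - i)) - 1) = (1 + 8 * q) ^ (r * (j - i)) * N0 - N0 := by
          ring
        rw [this]
        exact h2
      have h4 := mult_order (m + 3) q hq (r * (j - i)) N0 h3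
      have h5 : (2 : ℕ) ^ (m + 3) ∣ a * (j - i) := by
        have := Int.natAbs_dvd_natAbs.2 h4
        rw [Int.natAbs_pow, Int.natAbs_mul, Int.natAbs_mul, Int.natAbs_natCast] at this
        have e2 : a * (j - i) = Int.natAbs 8 * N0.natAbs * (r * (j - i)) := by
          rw [ha]
          change 8 * r * N0.natAbs * (j - i) = 8 * N0.natAbs * (r * (j - i))
          ring
        rw [e2]
        exact this
      have h6 : 0 < a * (j - i) := Nat.mul_pos ha0 (by omega)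
      have h7 := Nat.le_of_dvd h6 h5
      have h8 : a * (j - i) < a * K := Nat.mul_lt_mul_of_pos_left (by omega) ha0
      have h9 : a * K ≤ 2 ^ (m + 3) := Nat.mul_div_le _ _
      omega
    intro i hi j hj h
    rw [Finset.coe_range, Set.mem_Iio] at hi hj
    by_contra hne
    rcases Nat.lt_or_gt_of_ne hne with h' | h'
    · exact key i j h' hj h
    · exact key j i h' hi h.symm
  have hcard : K ≤ Γ.card := by
    have h1 := Finset.card_image_of_injOn hinj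
    rw [Finset.card_range] at h1
    rw [← h1]
    apply Finset.card_le_card
    intro x hx
    rw [Finset.mem_image] at hx
    obtain ⟨n, -, rfl⟩ := hx
    exact hΓ n
  have hpos : 1 ≤ Γ.card := Finset.card_pos.2 ⟨_, hΓ 0⟩
  have h1 : 2 ^ (m + 3) < a * (K + 1) := by
    rw [mul_add, mul_one]
    exact Nat.lt_mul_div_succ _ ha0 |>.trans_eq (by ring)
  calc 2 ^ (m + 3) ≤ a * (K + 1) := h1.le
    _ ≤ a * (2 * Γ.card) := Nat.mul_le_mul_left _ (by omega)
    _ = 16 * r * N0.natAbs * Γ.card := by rw [ha]; ring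

theorem lead_prod {ι : Type*} (s : Finset ι) (f : ι → Om) (n : ι → ℤ) (h : ∀ i ∈ s, Lead (f i) (n i)) :
    Lead (∏ i ∈ s, f i) (∑ i ∈ s, n i) := by
  classical
  induction s using Finset.induction_on with
  | empty => rw [Finset.prod_empty, Finset.sum_empty]; exact ⟨one_ne_zero, HahnSeries.order_one⟩
  | insert a s ha ih =>
    rw [Finset.prod_insert ha, Finset.sum_insert ha]
    exact (h a (Finset.mem_insert_self _ _)).mul (ih fun i hi => h i (Finset.mem_insert_of_mem hi))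

theorem main_eta (D : Finset ℕ) (u v : ℕ → ℕ) (hD : 0 ∉ D) (F : ℤ⟦X⟧)
    (hF : F * ∏ d ∈ D, eul d ^ v d = ∏ d ∈ D, eul d ^ u d) (s : ℤ)
    (hs : s = ∑ d ∈ D, (d : ℤ) * ((u d : ℤ) - v d)) (M n0 : ℕ) (hM : 0 < M)
    (hodd : Odd (coeff n0 F)) (hne : 24 * (n0 : ℤ) + s ≠ 0) :
    ∃ c1 c2 κ0 : ℕ, ∀ κ, κ0 ≤ κ → ∃ T : Finset ℕ, (∀ n ∈ T, n ≡ n0 [MOD M] ∧ Odd (coeff n F)) ∧
      2 ^ κ ≤ c1 * T.card ∧ ∑ n ∈ T, n ≤ c2 * 4 ^ κ * T.card := by
  classical
  obtain ⟨b, M0, hM0, rfl⟩ := Nat.exists_eq_two_pow_mul_odd hM.ne'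
  have hne' : ∀ d ∈ D, d ≠ 0 := fun d hd h => hD (h ▸ hd)
  choose! a j hjodd haj using fun (d : ℕ) (hd : d ∈ D) => Nat.exists_eq_two_pow_mul_odd (hne' d hd)
  have hj0 : ∀ d ∈ D, j d ≠ 0 := fun d hd => (hjodd d hd).pos.ne'
  set m0 := 3 * M0 with hm0
  have hm0odd : Odd m0 := (by decide : Odd 3).mul hM0
  obtain ⟨ζ, hζ⟩ := exists_root m0 hm0odd
  have hζ0 : ζ ≠ 0 := hζ.ne_zero hm0odd.pos.ne'
  set L := 3 * m0 * ∏ d ∈ D, j d with hL'
  have hL : Odd L := by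
    rw [hL']
    refine ((by decide : Odd 3).mul hm0odd).mul ?_
    exact Finset.prod_induction j Odd (fun _ _ h h' => h.mul h') odd_one hjodd
  have hL0 : L ≠ 0 := hL.pos.ne'
  set z : ℕ → ℤ := fun d => 2 ^ a d * ((u d : ℤ) - v d) with hz
  set N0 : ℤ := 24 * n0 + s with hN0
  set V := Vf D j z ζ m0 N0 with hV
  set W := Wf D j z 1 with hW
  set t := dB 1 L with ht
  have ht0 : t ≠ 0 := dB_ne L hL0
  have htr : Transcendental kk t := EX0Aux.trans_D L hL0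
  set X := (X_finite hL.pos b).toFinset with hX
  have hXmem : ∀ x, x ∈ X ↔ x ∈ XV L ∪ XE L ∪ XP L b := by
    intro x
    rw [hX, Set.Finite.mem_toFinset]
  have hXie : ∀ x ∈ X, Ie t x := by
    intro x hx
    rcases (hXmem x).1 hx with (h | h) | h
    · exact XV_ie hL h
    · exact XE_ie hL h
    · exact XP_ie hL h
  set R := (tup t X).ncard with hR
  obtain ⟨σ, hσt, hσa⟩ := sig hL
  obtain ⟨r, hr1, hrR, hrt, hrX⟩ := exists_power hXie hσt
  obtain ⟨A, C, hA0, hdeg⟩ := deg_V hL hj0 z hL' hζ0 hζ.pow_eq_one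
  set G := F.map (Int.castRingHom (ZMod 2)) with hG
  have hVc : ∀ n : ℤ, V.coeff n = if (m0 : ℤ) ∣ n - N0 then W.coeff n else 0 := fun n =>
    Vf_coeff D u v hD F hF a j haj s hs hm0odd hζ N0 n
  have hWc : ∀ n : ℤ, W.coeff n = if 24 ∣ n - s ∧ s ≤ n then
      algebraMap (ZMod 2) kk (coeff ((n - s) / 24).toNat G) else 0 := by
    intro n
    have := Wf_coeff D u v hD F hF a j haj 1 one_ne_zero s hs n
    rw [one_zpow, one_mul] at this
    exact this
  have hWN0 : W.coeff N0 ≠ 0 := by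
    rw [hWc, if_pos ⟨⟨n0, by rw [hN0]; ring⟩, by rw [hN0]; omega⟩]
    have e1 : ((N0 - s) / 24).toNat = n0 := by rw [hN0]; omega
    rw [e1, Ne, _root_.map_eq_zero, hG, PowerSeries.coeff_map]
    intro h0
    have h4 : ((coeff n0 F : ℤ) : ZMod 2) = 0 := h0
    rw [ZMod.intCast_eq_zero_iff_even] at h4
    exact (Int.not_even_iff_odd.2 hodd) h4
  have hW0 : W ≠ 0 := by
    intro h0
    rw [h0] at hWN0
    exact hWN0 rfl
  have hVN0 : V.coeff N0 ≠ 0 := by
    rw [hVc, if_pos (by rw [sub_self]; exact dvd_zero _)]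
    exact hWN0
  refine ⟨16 * r * N0.natAbs, L * R * C + 24 * n0, b + 4, fun κ hκ => ?_⟩
  obtain ⟨m, rfl⟩ : ∃ m, κ = m + 3 := ⟨κ - 3, by omega⟩
  have hbm : b ≤ m := by omega
  set γ0 : ZMod (2 ^ (m + 3)) := (N0 : ZMod (2 ^ (m + 3))) with hγ0
  set Pr : ZMod (2 ^ (m + 3)) → Om := fun γ => prO (m + 3) γ V with hPr
  set Γ : Finset (ZMod (2 ^ (m + 3))) := Finset.univ.filter fun γ =>
    ∃ ρ : OB ≃ₐ[kk] OB, ρ t = t ∧ (∀ x ∈ X, ρ x = x) ∧ ρ (io' (Pr γ0)) = io' (Pr γ) with hΓ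
  have hΓmem : ∀ γ, γ ∈ Γ ↔ ∃ ρ : OB ≃ₐ[kk] OB, ρ t = t ∧ (∀ x ∈ X, ρ x = x) ∧
      ρ (io' (Pr γ0)) = io' (Pr γ) := by
    intro γ
    rw [hΓ, Finset.mem_filter]
    exact ⟨fun h => h.2, fun h => ⟨Finset.mem_univ _, h⟩⟩
  have hγ0mem : γ0 ∈ Γ := (hΓmem _).2 ⟨AlgEquiv.refl, rfl, fun _ _ => rfl, rfl⟩
  have hPr0 : Pr γ0 ≠ 0 := by
    intro h0
    have h1 := congrArg (fun f : Om => f.coeff N0) h0
    simp only [hPr, DEL813.prO_coeff] at h1
    rw [if_pos rfl] at h1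
    exact hVN0 h1
  have hPrne : ∀ γ ∈ Γ, Pr γ ≠ 0 := by
    intro γ hγ h0
    obtain ⟨ρ, -, -, h1⟩ := (hΓmem γ).1 hγ
    rw [h0, map_zero, map_eq_zero_iff ρ ρ.injective, _root_.map_eq_zero] at h1
    exact hPr0 h1
  -- the action
  have hact : ∀ ρ : OB ≃ₐ[kk] OB, ρ t = t → (∀ x ∈ X, ρ x = x) →
      ∃ (g : ℤ) (w : (ZMod (2 ^ (m + 3)))ˣ), Odd g ∧
        (w : ZMod (2 ^ (m + 3))) = (g : ZMod (2 ^ (m + 3))) ^ 2 ∧
        CompT (m + 3) ρ w (dO 1 L) (dO 1 L) ∧ CompT (m + 3) ρ w V V ∧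
        ρ (io' W) = io' W ∧ ∀ x : ℤ, (2 : ℤ) ^ (b + 3) ∣ g ^ 2 * x - x := by
    intro ρ h1 h2
    obtain ⟨g, w, hg, hw, hD1, hE, hlast⟩ := act_all hL hbm h1 (fun x hx => h2 x ((hXmem x).2 hx))
    refine ⟨g, w, hg, hw, hD1, comp_V hj0 hE z hL' hζ0 hζ.pow_eq_one N0, ?_, hlast⟩
    exact (comp_W hj0 hE z hL' one_ne_zero (one_pow _)).val
  have hstab : ∀ (ρ : OB ≃ₐ[kk] OB) (w : ZMod (2 ^ (m + 3))), ρ t = t → (∀ x ∈ X, ρ x = x) →
      CompT (m + 3) ρ w V V → ∀ γ ∈ Γ, w * γ ∈ Γ := by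
    intro ρ w h1 h2 h3 γ hγ
    obtain ⟨ρ', h4, h5, h6⟩ := (hΓmem γ).1 hγ
    refine (hΓmem _).2 ⟨ρ * ρ', by rw [AlgEquiv.mul_apply, h4, h1], fun x hx => by
      rw [AlgEquiv.mul_apply, h5 x hx, h2 x hx], ?_⟩
    rw [AlgEquiv.mul_apply, h6]
    exact h3 γ
  -- the size of the orbit
  have hcardΓ : 2 ^ (m + 3) ≤ 16 * r * N0.natAbs * Γ.card := by
    obtain ⟨g, hg, hσact⟩ := act_part 1 hL0 1 m σ one_ne_zero hσt
    obtain ⟨q, hq, hgq⟩ := sig_mult hσa (show 1 ≤ m by omega) hg hσact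
    obtain ⟨g', w, -, -, hw1, hw2, -, -⟩ := hact (σ ^ r) hrt hrX
    have h1 := compT_rpow hσact r
    have h2 := mult_unique hL hw1 h1
    have h3 : (g : ZMod (2 ^ (m + 3))) ^ 2 = ((1 + 8 * q : ℤ) : ZMod (2 ^ (m + 3))) := by
      rw [← hgq]
      push_cast
      rfl
    rw [h3] at h2
    refine orbit_card hq hr1 hne Γ fun n => ?_
    rw [pow_mul, ← h2]
    induction n with
    | zero => rw [pow_zero, one_mul]; exact hγ0mem
    | succ n ih =>
      rw [pow_succ' (w : ZMod (2 ^ (m + 3))) n, mul_assoc]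
      exact hstab (σ ^ r) _ hrt hrX hw2 _ ih
  -- the norm
  set P : Om := Polynomial.aeval (dO 1 L) A with hP
  have hPio : io' P = Polynomial.aeval t A :=
    (Polynomial.aeval_algebraMap_apply OB (dO 1 L) A).symm
  have hP0 : P ≠ 0 := by
    intro h0
    rw [h0, map_zero] at hPio
    exact hA0 ((transcendental_iff_injective.1 htr) (by rw [← hPio, map_zero]))
  have hPord : 0 ≤ P.order := order_nonneg (L := L) (by rw [hPio]; exact ie_aeval _ _)
  set h : Om := ∏ γ ∈ Γ, (Pr γ / W * P) with hh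
  have hlead : Lead h (∑ γ ∈ Γ, ((Pr γ).order - W.order + P.order)) :=
    lead_prod _ _ _ fun γ hγ =>
      Lead.mul (Lead.div ⟨hPrne γ hγ, rfl⟩ ⟨hW0, rfl⟩) ⟨hP0, rfl⟩
  have hio : io' h = ∏ γ ∈ Γ, (io' (Pr γ) / io' W * Polynomial.aeval t A) := by
    rw [hh, map_prod]
    refine Finset.prod_congr rfl fun γ _ => ?_
    rw [map_mul, map_div₀, hPio]
  have hbound := order_bound hL0 hXie (B := Γ.card * (C * 4 ^ (m + 3))) hlead.1
    (by
      rw [hio]
      exact Ie.prod _ _ fun γ _ => (hdeg N0 (m + 3) γ).1)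
    (by
      have e1 : io' h * t⁻¹ ^ (Γ.card * (C * 4 ^ (m + 3))) =
          ∏ γ ∈ Γ, (io' (Pr γ) / io' W * Polynomial.aeval t A * t⁻¹ ^ (C * 4 ^ (m + 3))) := by
        rw [hio]
        conv_rhs => rw [Finset.prod_mul_distrib, Finset.prod_const, ← pow_mul,
          mul_comm (C * 4 ^ (m + 3)) Γ.card]
      rw [e1]
      exact Ie.prod _ _ fun γ _ => (hdeg N0 (m + 3) γ).2)
    (by
      intro ρ h1 h2
      obtain ⟨g, w, -, -, -, hw2, hw3, -⟩ := hact ρ h1 h2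
      have hAfix : ρ (Polynomial.aeval t A) = Polynomial.aeval t A := by
        have : ρ (Polynomial.aeval t A) = Polynomial.aeval (ρ t) A :=
          (Polynomial.aeval_algHom_apply (ρ : OB →ₐ[kk] OB) t A).symm
        rw [this, h1]
      rw [hio, map_prod]
      have h3 : ∀ γ ∈ Γ, ρ (io' (Pr γ) / io' W * Polynomial.aeval t A) =
          io' (Pr (w * γ)) / io' W * Polynomial.aeval t A := by
        intro γ _
        rw [map_mul, map_div₀, hw3, hAfix]
        congr 2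
        exact hw2 γ
      rw [Finset.prod_congr rfl h3]
      have hinj : Set.InjOn (fun γ : ZMod (2 ^ (m + 3)) => (w : ZMod (2 ^ (m + 3))) * γ) Γ := by
        intro x _ y _ hxy
        exact w.isUnit.mul_left_cancel hxy
      have himg : Γ.image (fun γ : ZMod (2 ^ (m + 3)) => (w : ZMod (2 ^ (m + 3))) * γ) = Γ := by
        apply Finset.eq_of_subset_of_card_le
        · intro x hx
          rw [Finset.mem_image] at hx
          obtain ⟨y, hy, rfl⟩ := hx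
          exact hstab ρ w h1 h2 hw2 y hy
        · rw [Finset.card_image_of_injOn hinj]
      conv_rhs => rw [← himg]
      rw [Finset.prod_image hinj])
  rw [hlead.2] at hbound
  -- the places
  set nn : ZMod (2 ^ (m + 3)) → ℕ := fun γ => (((Pr γ).order - s) / 24).toNat with hnn
  have hplace : ∀ γ ∈ Γ, (Pr γ).order = 24 * (nn γ : ℤ) + s ∧ Odd (coeff (nn γ) F) ∧
      (((Pr γ).order : ℤ) : ZMod (2 ^ (m + 3))) = γ ∧ (m0 : ℤ) ∣ (Pr γ).order - N0 := by
    intro γ hγ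
    have h1 : (Pr γ).coeff (Pr γ).order ≠ 0 := HahnSeries.coeff_order_eq_zero.not.2 (hPrne γ hγ)
    set N := (Pr γ).order with hN
    have h2 : (if ((N : ℤ) : ZMod (2 ^ (m + 3))) = γ then V.coeff N else 0) ≠ 0 := h1
    split_ifs at h2 with h3
    · rw [hVc] at h2
      split_ifs at h2 with h4
      · rw [hWc] at h2
        split_ifs at h2 with h5
        · have e1 : N = 24 * (nn γ : ℤ) + s := by
            rw [hnn]
            simp only
            rw [← hN]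
            omega
          refine ⟨e1, ?_, h3, h4⟩
          rw [Ne, _root_.map_eq_zero, hG, PowerSeries.coeff_map] at h2
          rw [← Int.not_even_iff_odd]
          intro hev
          apply h2
          change ((coeff (nn γ) F : ℤ) : ZMod 2) = 0
          rwa [ZMod.intCast_eq_zero_iff_even]
        · exact absurd rfl h2
      · exact absurd rfl h2
    · exact absurd rfl h2
  have hinjn : Set.InjOn nn Γ := by
    intro x hx y hy hxy
    obtain ⟨h1, -, h2, -⟩ := hplace x hx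
    obtain ⟨h3, -, h4, -⟩ := hplace y hy
    rw [← h2, ← h4, h1, h3, hxy]
  refine ⟨Γ.image nn, ?_, ?_, ?_⟩
  · intro n hn
    rw [Finset.mem_image] at hn
    obtain ⟨γ, hγ, rfl⟩ := hn
    obtain ⟨h1, h2, h3, h4⟩ := hplace γ hγ
    refine ⟨?_, h2⟩
    obtain ⟨ρ, h5, h6, h7⟩ := (hΓmem γ).1 hγ
    obtain ⟨g, w, -, hwg, -, hw2, -, hlast⟩ := hact ρ h5 h6
    have h8 := hw2 γ0
    have h9 := EX0Aux.io_inj (h7.symm.trans h8)
    have h10 := class_unique h9 (hPrne γ hγ)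
    rw [← h3, hwg, hγ0] at h10
    have h11 : ((g ^ 2 * N0 : ℤ) : ZMod (2 ^ (m + 3))) = (((Pr γ).order : ℤ) : ZMod (2 ^ (m + 3))) := by
      push_cast at h10 ⊢
      exact h10.symm
    rw [cast_eq_iff] at h11
    have h12 : (2 : ℤ) ^ (b + 3) ∣ (Pr γ).order - N0 := by
      have h13 := (pow_dvd_pow (2 : ℤ) (show b + 3 ≤ m + 3 by omega)).trans h11
      have h14 := dvd_add h13 (hlast N0)
      have e1 : (Pr γ).order - g ^ 2 * N0 + (g ^ 2 * N0 - N0) = (Pr γ).order - N0 := by ring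
      rwa [e1] at h14
    have e2 : (Pr γ).order - N0 = 24 * ((nn γ : ℤ) - n0) := by rw [h1, hN0]; ring
    rw [e2] at h12 h4
    have h13 : (2 : ℤ) ^ b ∣ (nn γ : ℤ) - n0 := by
      have e3 : (2 : ℤ) ^ (b + 3) = 8 * 2 ^ b := by ring
      have e4 : 24 * ((nn γ : ℤ) - n0) = 8 * (3 * ((nn γ : ℤ) - n0)) := by ring
      rw [e3, e4, mul_dvd_mul_iff_left (by norm_num)] at h12
      have hco : IsCoprime ((2 : ℤ) ^ b) 3 := IsCoprime.pow_left ⟨-1, 1, by norm_num⟩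
      exact hco.dvd_of_dvd_mul_left h12
    have h14 : (M0 : ℤ) ∣ (nn γ : ℤ) - n0 := by
      rw [hm0] at h4
      push_cast at h4
      have e4 : 24 * ((nn γ : ℤ) - n0) = 3 * (8 * ((nn γ : ℤ) - n0)) := by ring
      rw [e4, mul_dvd_mul_iff_left (by norm_num)] at h4
      have hco : IsCoprime (M0 : ℤ) 8 := by
        have h3 : Nat.Coprime M0 8 := by
          have h4 : Nat.Coprime M0 2 := (Nat.coprime_two_right).2 hM0
          have h5 := Nat.Coprime.pow_right 3 h4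
          simpa using h5
        exact_mod_cast Nat.isCoprime_iff_coprime.2 h3
      exact hco.dvd_of_dvd_mul_left h4
    have h15 : ((2 ^ b * M0 : ℕ) : ℤ) ∣ (nn γ : ℤ) - n0 := by
      push_cast
      refine IsCoprime.mul_dvd ?_ h13 h14
      obtain ⟨d, hd⟩ := hM0
      apply IsCoprime.pow_left
      rw [hd]
      push_cast
      exact ⟨-d, 1, by ring⟩
    exact ((Nat.modEq_iff_dvd).2 h15).symm
  · rw [Finset.card_image_of_injOn hinjn]
    exact hcardΓ
  · rw [Finset.card_image_of_injOn hinjn, Finset.sum_image hinjn]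
    have hWord : W.order ≤ N0 := HahnSeries.order_le_of_coeff_ne_zero hWN0
    have h1 : ∑ γ ∈ Γ, ((Pr γ).order - W.order + P.order) ≥ ∑ γ ∈ Γ, (24 * (nn γ : ℤ) - 24 * n0) := by
      refine Finset.sum_le_sum fun γ hγ => ?_
      rw [(hplace γ hγ).1]
      have : N0 = 24 * n0 + s := hN0
      linarith
    have h2 : ∑ γ ∈ Γ, (24 * (nn γ : ℤ) - 24 * n0) =
        24 * ((∑ γ ∈ Γ, nn γ : ℕ) : ℤ) - 24 * n0 * Γ.card := by
      rw [Finset.sum_sub_distrib, ← Finset.mul_sum, Finset.sum_const]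
      push_cast
      rw [nsmul_eq_mul]
      ring
    have h3 : 24 * ((∑ γ ∈ Γ, nn γ : ℕ) : ℤ) ≤
        L * (R * (Γ.card * (C * 4 ^ (m + 3)))) + 24 * n0 * Γ.card := by
      have : ((Γ.card * (C * 4 ^ (m + 3)) : ℕ) : ℤ) = Γ.card * (C * 4 ^ (m + 3)) := by push_cast; rfl
      rw [this] at hbound
      rw [h2] at h1
      linarith
    have h4 : 24 * (∑ γ ∈ Γ, nn γ) ≤ L * (R * (Γ.card * (C * 4 ^ (m + 3)))) + 24 * n0 * Γ.card := by
      exact_mod_cast h3
    have h5 : 24 * n0 * Γ.card ≤ 24 * n0 * 4 ^ (m + 3) * Γ.card :=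
      Nat.mul_le_mul_right _ (Nat.le_mul_of_pos_right _ (by positivity))
    calc ∑ γ ∈ Γ, nn γ ≤ 24 * (∑ γ ∈ Γ, nn γ) := Nat.le_mul_of_pos_left _ (by norm_num)
      _ ≤ L * (R * (Γ.card * (C * 4 ^ (m + 3)))) + 24 * n0 * 4 ^ (m + 3) * Γ.card :=
        h4.trans (Nat.add_le_add_left h5 _)
      _ = (L * R * C + 24 * n0) * 4 ^ (m + 3) * Γ.card := by ring

end Pool.Agent.K7.H91.SQ
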