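import Pool.Agent.K7.H91.SQ.Part
import Pool.Agent.R836.RD.AUT

set_option autoImplicit false

/-!
# Elements fixed by the automorphisms, integral at 0 and of bounded degree at infinity
-/

namespace Pool.Agent.K7.H91.SQ

open PowerSeries Pool.Agent.TH693.QQ Pool.Agent.H397R2.PP
open Pool.Agent.TH693.PP (S)
open Pool.Agent.R836.RD

/-- `x` is integral over `kk[t]` -/
def Ie (t x : OB) : Prop :=
  ((Polynomial.aeval t : Polynomial kk →ₐ[kk] OB) : Polynomial kk →+* OB).IsIntegralElem x

theorem Ie.add {t x y : OB} (hx : Ie t x) (hy : Ie t y) : Ie t (x + y) :=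
  RingHom.IsIntegralElem.add _ hx hy

theorem Ie.mul {t x y : OB} (hx : Ie t x) (hy : Ie t y) : Ie t (x * y) :=
  RingHom.IsIntegralElem.mul _ hx hy

theorem ie_aeval (t : OB) (Q : Polynomial kk) : Ie t (Polynomial.aeval t Q) :=
  RingHom.isIntegralElem_map _

theorem ie_one (t : OB) : Ie t 1 := by
  have := ie_aeval t 1
  rwa [map_one] at this

theorem ie_zero (t : OB) : Ie t 0 := by
  have := ie_aeval t 0
  rwa [map_zero] at this

theorem ie_self (t : OB) : Ie t t := by
  have := ie_aeval t Polynomial.X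
  rwa [Polynomial.aeval_X] at this

theorem Ie.pow {t x : OB} (hx : Ie t x) (n : ℕ) : Ie t (x ^ n) := by
  induction n with
  | zero => rw [pow_zero]; exact ie_one t
  | succ n ih => rw [pow_succ]; exact ih.mul hx

theorem Ie.sum {t : OB} {ι : Type*} (s : Finset ι) (f : ι → OB) (h : ∀ i ∈ s, Ie t (f i)) :
    Ie t (∑ i ∈ s, f i) := by
  classical
  induction s using Finset.induction_on with
  | empty => rw [Finset.sum_empty]; exact ie_zero t
  | insert a s ha ih =>
    rw [Finset.sum_insert ha]
    exact (h a (Finset.mem_insert_self _ _)).add (ih fun i hi => h i (Finset.mem_insert_of_mem hi))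

theorem Ie.prod {t : OB} {ι : Type*} (s : Finset ι) (f : ι → OB) (h : ∀ i ∈ s, Ie t (f i)) :
    Ie t (∏ i ∈ s, f i) := by
  classical
  induction s using Finset.induction_on with
  | empty => rw [Finset.prod_empty]; exact ie_one t
  | insert a s ha ih =>
    rw [Finset.prod_insert ha]
    exact (h a (Finset.mem_insert_self _ _)).mul (ih fun i hi => h i (Finset.mem_insert_of_mem hi))

/-- roots of monic quadratic polynomials with integral coefficients are integral -/
theorem Ie.quad {t y y' : OB} (hp : Ie t (y + y')) (hq : Ie t (y * y')) : Ie t y := by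
  letI : Algebra (Polynomial kk) OB := ((Polynomial.aeval t : Polynomial kk →ₐ[kk] OB) :
    Polynomial kk →+* OB).toAlgebra
  have hp' : IsIntegral (Polynomial kk) (y + y') := hp
  have hq' : IsIntegral (Polynomial kk) (y * y') := hq
  have h1 : IsIntegral (integralClosure (Polynomial kk) OB) y := by
    let p : integralClosure (Polynomial kk) OB := ⟨y + y', hp'⟩
    let q : integralClosure (Polynomial kk) OB := ⟨y * y', hq'⟩
    refine ⟨Polynomial.X ^ 2 + (Polynomial.C (-p) * Polynomial.X + Polynomial.C q), ?_, ?_⟩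
    · apply Polynomial.monic_X_pow_add
      exact (Polynomial.degree_linear_le).trans_lt (by norm_num)
    · rw [Polynomial.eval₂_add, Polynomial.eval₂_add, Polynomial.eval₂_mul,
        Polynomial.eval₂_pow, Polynomial.eval₂_X, Polynomial.eval₂_C, Polynomial.eval₂_C]
      change y ^ 2 + (-(y + y') * y + y * y') = 0
      ring
  exact isIntegral_trans y h1

/-- elements of `kk(t)` integral over `kk[t]` -/
theorem mem_of_ie {t x : OB} (ht : Transcendental kk t) (hx : x ∈ IntermediateField.adjoin kk {t})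
    (hi : Ie t x) : ∃ Q : Polynomial kk, x = Polynomial.aeval t Q := by
  letI : Algebra (Polynomial kk) OB := ((Polynomial.aeval t : Polynomial kk →ₐ[kk] OB) :
    Polynomial kk →+* OB).toAlgebra
  have hinj : Function.Injective (algebraMap (Polynomial kk) OB) :=
    transcendental_iff_injective.1 ht
  let ψ : FractionRing (Polynomial kk) →ₐ[Polynomial kk] OB :=
    IsFractionRing.liftAlgHom (g := Algebra.ofId (Polynomial kk) OB) hinj
  rw [IntermediateField.mem_adjoin_simple_iff] at hx
  obtain ⟨r, s, hrs⟩ := hx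
  let y : FractionRing (Polynomial kk) := algebraMap _ _ r / algebraMap _ _ s
  have hy : ψ y = x := by
    rw [hrs]
    change ψ (algebraMap _ _ r / algebraMap _ _ s) = _
    rw [map_div₀, AlgHom.commutes, AlgHom.commutes]
    rfl
  have h1 : IsIntegral (Polynomial kk) (ψ y) := by
    rw [hy]
    exact hi
  have h2 : IsIntegral (Polynomial kk) y :=
    (isIntegral_algHom_iff ψ (RingHom.injective ψ.toRingHom)).1 h1
  obtain ⟨Q, hQ⟩ := IsIntegrallyClosed.isIntegral_iff.1 h2
  refine ⟨Q, ?_⟩
  rw [← hy, ← hQ, AlgHom.commutes]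
  rfl

/-- a fixed integral element: a power of it is a polynomial in `t` -/
theorem fixed_pow {t α : OB} (ht : Transcendental kk t) (hα : Ie t α)
    (hfix : ∀ ρ : OB ≃ₐ[kk] OB, ρ t = t → ρ α = α) :
    ∃ e : ℕ, 0 < e ∧ ∃ Q : Polynomial kk, α ^ e = Polynomial.aeval t Q := by
  set F := IntermediateField.adjoin kk {t} with hF
  have htF : t ∈ F := IntermediateField.mem_adjoin_simple_self kk t
  have hint : IsIntegral F α := by
    obtain ⟨p, hp, h0⟩ := hα
    refine ⟨p.map ((Polynomial.aeval (⟨t, htF⟩ : F) : Polynomial kk →ₐ[kk] F) :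
      Polynomial kk →+* F), hp.map _, ?_⟩
    rw [Polynomial.eval₂_map]
    rw [← h0]
    congr 1
    ext x
    · simp
    · simp
  have hroots : ∀ β : OB, β ∈ ((minpoly F α).map (algebraMap F OB)).roots → β = α := by
    intro β hβ
    rw [Polynomial.mem_roots (Polynomial.map_ne_zero (minpoly.ne_zero hint)),
      Polynomial.IsRoot.def, Polynomial.eval_map, ← Polynomial.aeval_def] at hβ
    obtain ⟨ρ, h1, h2⟩ := aut F α β hint hβ
    rw [← h2]
    exact hfix ρ (h1 t htF)
  have hsplit : ((minpoly F α).map (algebraMap F OB)).Splits := IsAlgClosed.splits _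
  have hmon : ((minpoly F α).map (algebraMap F OB)).Monic := (minpoly.monic hint).map _
  set e := (minpoly F α).natDegree with he
  have hcard : Multiset.card ((minpoly F α).map (algebraMap F OB)).roots = e := by
    rw [← hsplit.natDegree_eq_card_roots, Polynomial.natDegree_map]
  have hrep : ((minpoly F α).map (algebraMap F OB)).roots = Multiset.replicate e α := by
    rw [Multiset.eq_replicate]
    exact ⟨hcard, hroots⟩
  have hprod : (minpoly F α).map (algebraMap F OB) = (Polynomial.X - Polynomial.C α) ^ e := by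
    have := hsplit.eq_prod_roots_of_monic hmon
    rw [this, hrep, Multiset.map_replicate, Multiset.prod_replicate]
  have hcoef : algebraMap F OB ((minpoly F α).coeff 0) = (-α) ^ e := by
    have := congrArg (fun P => Polynomial.eval 0 P) hprod
    simp only [Polynomial.eval_pow, Polynomial.eval_sub, Polynomial.eval_X, Polynomial.eval_C,
      zero_sub] at this
    rw [← this, ← Polynomial.coeff_zero_eq_eval_zero, Polynomial.coeff_map]
  have hmem : α ^ e ∈ F := by
    have h1 : (-α) ^ e ∈ F := by
      rw [← hcoef]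
      exact ((minpoly F α).coeff 0).2
    have h2 : α ^ e = (-1) ^ e * (-α) ^ e := by
      rw [← mul_pow]
      congr 1
      ring
    rw [h2]
    exact mul_mem (pow_mem (neg_mem (one_mem F)) e) h1
  obtain ⟨Q, hQ⟩ := mem_of_ie ht hmem (hα.pow e)
  exact ⟨e, minpoly.natDegree_pos hint, Q, hQ⟩

/-- comparison of degrees -/
theorem deg_le {t α : OB} (ht : Transcendental kk t) (hα : α ≠ 0) {e e' B : ℕ} (he' : 0 < e')
    {Q Q' : Polynomial kk} (h : α ^ e = Polynomial.aeval t Q)
    (h' : (α * (t⁻¹) ^ B) ^ e' = Polynomial.aeval t⁻¹ Q') : Q ≠ 0 ∧ Q.natDegree ≤ B * e := by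
  have ht0 : t ≠ 0 := by
    rintro rfl
    exact ht (isAlgebraic_zero)
  have hinj : Function.Injective (Polynomial.aeval t : Polynomial kk →ₐ[kk] OB) :=
    transcendental_iff_injective.1 ht
  have hQ : Q ≠ 0 := by
    rintro rfl
    rw [map_zero] at h
    exact pow_ne_zero e hα h
  letI : Invertible t⁻¹ := invertibleOfNonzero (inv_ne_zero ht0)
  have h1 := Polynomial.eval₂_reverse_mul_pow (algebraMap kk OB) t⁻¹ Q'
  have hinv : ⅟(t⁻¹) = t := by rw [invOf_eq_inv, inv_inv]
  rw [hinv] at h1
  have h2 : Polynomial.aeval t⁻¹ Q' * t ^ Q'.natDegree = Polynomial.aeval t Q'.reverse := by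
    rw [Polynomial.aeval_def, Polynomial.aeval_def, ← h1, mul_assoc, ← mul_pow,
      inv_mul_cancel₀ ht0, one_pow, mul_one]
  have h3 : Polynomial.aeval t (Q ^ e' * Polynomial.X ^ (Q'.natDegree * e)) =
      Polynomial.aeval t (Polynomial.X ^ (B * e * e') * Q'.reverse ^ e) := by
    rw [map_mul, map_pow, map_pow, map_mul, map_pow, map_pow, Polynomial.aeval_X, ← h, ← h2, ← h']
    have : (t⁻¹) ^ B * t ^ B = 1 := by rw [← mul_pow, inv_mul_cancel₀ ht0, one_pow]
    calc (α ^ e) ^ e' * t ^ (Q'.natDegree * e)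
        = (α ^ e) ^ e' * t ^ (Q'.natDegree * e) * ((t⁻¹) ^ B * t ^ B) ^ (e * e') := by
          rw [this, one_pow, mul_one]
      _ = t ^ (B * e * e') * ((α * t⁻¹ ^ B) ^ e' * t ^ Q'.natDegree) ^ e := by
          ring
  have h4 := hinj h3
  have hQ' : Q' ≠ 0 := by
    rintro rfl
    rw [map_zero] at h'
    exact pow_ne_zero e' (mul_ne_zero hα (pow_ne_zero _ (inv_ne_zero ht0))) h'
  have h5 := congrArg Polynomial.natDegree h4
  rw [Polynomial.natDegree_mul (pow_ne_zero _ hQ) (pow_ne_zero _ Polynomial.X_ne_zero),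
    Polynomial.natDegree_pow, Polynomial.natDegree_pow, Polynomial.natDegree_X,
    Polynomial.natDegree_mul (pow_ne_zero _ Polynomial.X_ne_zero)
      (pow_ne_zero _ (by rwa [Ne, Polynomial.reverse_eq_zero])),
    Polynomial.natDegree_pow, Polynomial.natDegree_pow, Polynomial.natDegree_X] at h5
  have h6 := Polynomial.reverse_natDegree_le Q'
  refine ⟨hQ, ?_⟩
  have h7 : e * Q'.reverse.natDegree ≤ e * Q'.natDegree := Nat.mul_le_mul_left _ h6
  have h8 : e' * Q.natDegree ≤ e' * (B * e) := by
    have e1 : B * e * e' * 1 = e' * (B * e) := by ring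
    have e2 : Q'.natDegree * e * 1 = e * Q'.natDegree := by ring
    rw [e1, e2] at h5
    omega
  exact Nat.le_of_mul_le_mul_left h8 he'

end Pool.Agent.K7.H91.SQ
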