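import Pool.Agent.K7.H91.SQ.Act

set_option autoImplicit false

/-!
# The action on parts modulo `2 ^ κ` as a ring homomorphism of the group algebra
-/

namespace Pool.Agent.K7.H91.SQ

open PowerSeries Pool.Agent.TH693.QQ Pool.Agent.H397R2.PP
open Pool.Agent.TH693.PP (S)
open Pool.Agent.R836.RD

/-- `ρ` maps the part of class `γ` of `f` to the part of class `u γ` of `f'` -/
def CompT (κ : ℕ) (ρ : OB ≃ₐ[kk] OB) (u : ZMod (2 ^ κ)) (f f' : Om) : Prop :=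
  ∀ γ : ZMod (2 ^ κ), ρ (io' (prO κ γ f)) = io' (prO κ (u * γ) f')

/-- the twisted action on the group algebra -/
noncomputable def mg (κ : ℕ) (ρ : OB ≃ₐ[kk] OB) (u : ZMod (2 ^ κ)) : Az κ →+* Az κ :=
  (AddMonoidAlgebra.mapDomainRingHom OB (AddMonoidHom.mulLeft u)).comp
    (AddMonoidAlgebra.mapRingHom (ZMod (2 ^ κ)) (ρ : OB →+* OB))

theorem mg_single (κ : ℕ) (ρ : OB ≃ₐ[kk] OB) (u γ : ZMod (2 ^ κ)) (a : OB) :
    mg κ ρ u (AddMonoidAlgebra.single γ a) = AddMonoidAlgebra.single (u * γ) (ρ a) := by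
  unfold mg
  rw [RingHom.comp_apply, AddMonoidAlgebra.mapRingHom_single]
  change AddMonoidAlgebra.mapDomain _ _ = _
  rw [AddMonoidAlgebra.mapDomain_single]
  rfl

theorem dl_sum {κ : ℕ} (Δ : Om →+* Az κ)
    (hΔ : ∀ (f : Om) (γ : ZMod (2 ^ κ)), (Δ f).coeff γ = io' (prO κ γ f)) (f : Om) :
    Δ f = ∑ γ : ZMod (2 ^ κ), AddMonoidAlgebra.single γ (io' (prO κ γ f)) := by
  ext γ
  rw [hΔ, ← DEL813.Dl_coeff]
  rfl

theorem coeff_sum_single {κ : ℕ} (a : ZMod (2 ^ κ) → OB) (γ : ZMod (2 ^ κ)) :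
    (∑ γ : ZMod (2 ^ κ), (AddMonoidAlgebra.single γ (a γ) : Az κ)).coeff γ = a γ := by
  classical
  rw [AddMonoidAlgebra.coeff_sum, Finsupp.finsetSum_apply]
  simp only [AddMonoidAlgebra.coeff_single, Finsupp.single_apply]
  rw [Finset.sum_ite_eq' Finset.univ γ, if_pos (Finset.mem_univ _)]

theorem compT_iff {κ : ℕ} (Δ : Om →+* Az κ)
    (hΔ : ∀ (f : Om) (γ : ZMod (2 ^ κ)), (Δ f).coeff γ = io' (prO κ γ f))
    (ρ : OB ≃ₐ[kk] OB) (u : (ZMod (2 ^ κ))ˣ) (f f' : Om) :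
    CompT κ ρ u f f' ↔ mg κ ρ u (Δ f) = Δ f' := by
  have e1 : mg κ ρ u (Δ f) = ∑ γ : ZMod (2 ^ κ),
      AddMonoidAlgebra.single γ (ρ (io' (prO κ ((u⁻¹ : (ZMod (2 ^ κ))ˣ) * γ) f))) := by
    rw [dl_sum Δ hΔ f, map_sum]
    simp only [mg_single]
    refine Fintype.sum_equiv (Units.mulLeft u) _ _ fun γ => ?_
    rw [Units.mulLeft_apply, Units.inv_mul_cancel_left]
  constructor
  · intro h
    ext γ
    rw [e1, coeff_sum_single, h, Units.mul_inv_cancel_left, hΔ]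
  · intro h γ
    have h1 : (mg κ ρ u (Δ f)).coeff (u * γ) = (Δ f').coeff (u * γ) := by rw [h]
    rw [e1, coeff_sum_single, hΔ, Units.inv_mul_cancel_left] at h1
    exact h1

theorem compT_one (κ : ℕ) (ρ : OB ≃ₐ[kk] OB) (u : (ZMod (2 ^ κ))ˣ) : CompT κ ρ u 1 1 := by
  obtain ⟨Δ, hΔ, -⟩ := del κ
  rw [compT_iff Δ hΔ]
  rw [map_one, map_one]

theorem CompT.mul {κ : ℕ} {ρ : OB ≃ₐ[kk] OB} {u : (ZMod (2 ^ κ))ˣ} {f f' g g' : Om}
    (h : CompT κ ρ u f f') (h' : CompT κ ρ u g g') : CompT κ ρ u (f * g) (f' * g') := by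
  obtain ⟨Δ, hΔ, -⟩ := del κ
  rw [compT_iff Δ hΔ] at h h' ⊢
  rw [map_mul, map_mul, h, h', map_mul]

theorem CompT.pow {κ : ℕ} {ρ : OB ≃ₐ[kk] OB} {u : (ZMod (2 ^ κ))ˣ} {f f' : Om}
    (h : CompT κ ρ u f f') (n : ℕ) : CompT κ ρ u (f ^ n) (f' ^ n) := by
  induction n with
  | zero => rw [pow_zero, pow_zero]; exact compT_one κ ρ u
  | succ n ih => rw [pow_succ, pow_succ]; exact ih.mul h

theorem prO_single_class (κ : ℕ) (γ β : ZMod (2 ^ κ)) (f : Om)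
    (hf : ∀ n : ℤ, f.coeff n ≠ 0 → (n : ZMod (2 ^ κ)) = β) :
    prO κ γ f = if β = γ then f else 0 := by
  ext n
  change (if (n : ZMod (2 ^ κ)) = γ then f.coeff n else 0) = _
  by_cases h0 : f.coeff n = 0
  · rw [h0, ite_self]
    split_ifs
    · exact h0.symm
    · rfl
  · rw [hf n h0]
    split_ifs
    · rfl
    · rfl

theorem ev_coeff' (c : kk) {L : ℕ} (hL : L ≠ 0) (f : (ZMod 2)⟦X⟧) (n : ℤ) : (ev c L f).coeff n =
    if n < 0 then 0 else if L ∣ n.natAbs then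
      c ^ (n.natAbs / L) * algebraMap (ZMod 2) kk (coeff (n.natAbs / L) f) else 0 := by
  have e1 : ev c L f = HahnSeries.ofPowerSeries ℤ kk
      (PowerSeries.expand L hL (PowerSeries.rescale c (ik f))) := by
    unfold ev pt
    rw [dif_pos hL]
    rfl
  rw [e1]
  have e2 := PowerSeries.coeff_coe (R := kk)
    (f := PowerSeries.expand L hL (PowerSeries.rescale c (ik f))) n
  refine e2.trans ?_
  split_ifs with h1 h2
  · rfl
  · rw [PowerSeries.coeff_expand, if_pos h2, PowerSeries.coeff_rescale]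
    unfold ik
    rw [PowerSeries.coeff_map]
  · rw [PowerSeries.coeff_expand, if_neg h2]

/-- the exponents of `th (2 ^ (m + 2)) b` at the vertex -/
theorem ev_th_supp (c : kk) {j : ℕ} (hj : j ≠ 0) (m : ℕ) (b : ℤ) (n : ℤ)
    (h : (ev c j (th (2 ^ (m + 2)) b)).coeff n ≠ 0) :
    (n : ZMod (2 ^ (m + 3))) = (j : ZMod (2 ^ (m + 3))) * (b : ZMod (2 ^ (m + 3))) ^ 2 := by
  rw [ev_coeff' c hj] at h
  split_ifs at h with h1 h2
  · exact absurd rfl h
  · obtain ⟨q, hq⟩ := h2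
    rw [hq, Nat.mul_div_cancel_left _ (Nat.pos_of_ne_zero hj)] at h
    have h3 : coeff q (th (2 ^ (m + 2)) b) ≠ 0 := by
      intro h0
      rw [h0, map_zero, mul_zero] at h
      exact h rfl
    have h4 := D1.supp (m + 2) b q (by omega) h3
    have h5 : ((q : ℤ) - b ^ 2 : ℤ) = ((0 : ℤ) : ZMod (2 ^ (m + 3))) := by
      rw [ZMod.intCast_eq_intCast_iff_dvd_sub]
      have e : ((2 ^ (m + 3) : ℕ) : ℤ) = 2 ^ (m + 2 + 1) := by push_cast; ring
      rw [e, zero_sub, neg_sub]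
      have := (dvd_neg).2 h4
      rw [neg_sub] at this
      exact this
    push_cast at h5
    rw [sub_eq_zero] at h5
    have h6 : n = ((j * q : ℕ) : ℤ) := by omega
    rw [h6]
    push_cast
    rw [h5]
  · exact absurd rfl h

theorem sum_val (n : ℕ) [NeZero n] {A : Type*} [AddCommMonoid A] (f : ℕ → A) :
    ∑ x : ZMod n, f x.val = ∑ i ∈ Finset.range n, f i := by
  refine Finset.sum_nbij ZMod.val (fun x _ => Finset.mem_range.2 (ZMod.val_lt x))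
    (fun x _ y _ h => ZMod.val_injective n h) (fun i hi => ?_) (fun x _ => rfl)
  rw [Finset.mem_coe, Finset.mem_range] at hi
  exact ⟨(i : ZMod n), Finset.mem_coe.2 (Finset.mem_univ _), ZMod.val_cast_of_lt hi⟩

theorem isUnit_odd (k : ℕ) {b : ℤ} (hb : Odd b) : IsUnit ((b : ℤ) : ZMod (2 ^ k)) := by
  rw [ZMod.coe_int_isUnit_iff_isCoprime]
  push_cast
  apply IsCoprime.pow_left
  obtain ⟨d, rfl⟩ := hb
  exact ⟨-d, 1, by ring⟩

/-- reindexing -/
theorem reindex (m : ℕ) {A : Type*} [AddCommMonoid A] (H : ℤ → A)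
    (hH : ∀ b c : ℤ, Odd b → (2 : ℤ) ^ (m + 2) ∣ b - c → H b = H c) (a : ℤ) :
    ∑ i ∈ Finset.range (2 ^ m), H ((1 + 4 * a) * (1 + 4 * (i : ℤ))) =
      ∑ i ∈ Finset.range (2 ^ m), H (1 + 4 * (i : ℤ)) := by
  rw [← sum_val (2 ^ m) (fun i => H ((1 + 4 * a) * (1 + 4 * (i : ℤ)))),
    ← sum_val (2 ^ m) (fun i => H (1 + 4 * (i : ℤ)))]
  have hu : IsUnit (((1 + 4 * a : ℤ)) : ZMod (2 ^ m)) := isUnit_odd m ⟨2 * a, by ring⟩
  obtain ⟨u, hu⟩ := hu
  refine Fintype.sum_equiv ((Units.mulLeft u).trans (Equiv.addRight (a : ZMod (2 ^ m)))) _ _ fun x => ?_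
  have hx : ((((Units.mulLeft u).trans (Equiv.addRight (a : ZMod (2 ^ m)))) x).val : ZMod (2 ^ m)) =
      (((a + (1 + 4 * a) * (x.val : ℤ) : ℤ)) : ZMod (2 ^ m)) := by
    rw [ZMod.natCast_zmod_val]
    simp only [Equiv.trans_apply, Units.mulLeft_apply, Equiv.coe_addRight, hu]
    push_cast
    rw [ZMod.natCast_zmod_val]
    ring
  set y := (((Units.mulLeft u).trans (Equiv.addRight (a : ZMod (2 ^ m)))) x).val with hy
  apply hH
  · exact ⟨2 * (a + (1 + 4 * a) * (x.val : ℤ)), by ring⟩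
  · have h1 : ((y : ℤ) : ZMod (2 ^ m)) = (((a + (1 + 4 * a) * (x.val : ℤ) : ℤ)) : ZMod (2 ^ m)) := by
      rw [← hx]
      push_cast
      rfl
    rw [ZMod.intCast_eq_intCast_iff_dvd_sub] at h1
    obtain ⟨d, hd⟩ := h1
    refine ⟨d, ?_⟩
    push_cast at hd
    linear_combination 4 * hd

/-- an automorphism that fixes the value of `D` at a vertex multiplies the classes by a square -/
theorem act_part (c : kk) {j : ℕ} (hj : j ≠ 0) (c' : kk) (m : ℕ) (ρ : OB ≃ₐ[kk] OB)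
    (hc' : c' ≠ 0) (hρ : ρ (dB c j) = dB c' j) :
    ∃ g : ℤ, Odd g ∧ CompT (m + 3) ρ ((g : ZMod (2 ^ (m + 3))) ^ 2) (dO c j) (dO c' j) := by
  have hinj : Function.Injective (io'.comp (ev c' j)) := by
    rw [injective_iff_map_eq_zero]
    intro f hf
    rw [RingHom.comp_apply, _root_.map_eq_zero] at hf
    ext n
    have h1 : (ev c' j f).coeff ((j * n : ℕ) : ℤ) = 0 := by rw [hf]; rfl
    rw [ev_coeff' c' hj, if_neg (by omega), if_pos (by
      rw [Int.natAbs_natCast]; exact Dvd.intro _ rfl), Int.natAbs_natCast,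
      Nat.mul_div_cancel_left _ (Nat.pos_of_ne_zero hj)] at h1
    rcases mul_eq_zero.1 h1 with h2 | h2
    · exact absurd h2 (pow_ne_zero _ hc')
    · rw [_root_.map_eq_zero] at h2
      rw [h2, map_zero]
  obtain ⟨g0, hg0, hact0⟩ := act_th (io'.comp (ev c j)) (io'.comp (ev c' j)) hinj (ρ : OB →+* OB) hρ m
  -- make `g` congruent to 1 modulo 4
  obtain ⟨a, hact⟩ : ∃ a : ℤ, ∀ c1 : ℤ, Odd c1 → ρ (io' (ev c j (th (2 ^ (m + 2)) c1))) =
      io' (ev c' j (th (2 ^ (m + 2)) ((1 + 4 * a) * c1))) := by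
    obtain ⟨d, hd⟩ := hg0
    rcases Int.even_or_odd' d with ⟨e, he | he⟩
    · refine ⟨e, fun c1 hc1 => ?_⟩
      have h1 := hact0 c1 hc1
      have e1 : g0 = 1 + 4 * e := by omega
      rw [e1] at h1
      exact h1
    · refine ⟨-e - 1, fun c1 hc1 => ?_⟩
      have h1 := hact0 c1 hc1
      have e1 : g0 * c1 = -((1 + 4 * (-e - 1)) * c1) := by
        have : g0 = -(1 + 4 * (-e - 1)) := by omega
        rw [this]
        ring
      rw [e1, th_neg] at h1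
      exact h1
  refine ⟨1 + 4 * a, ⟨2 * a, by ring⟩, fun γ => ?_⟩
  have hsum : ∀ (d : kk) (δ : ZMod (2 ^ (m + 3))), prO (m + 3) δ (dO d j) =
      ∑ i ∈ Finset.range (2 ^ m),
        if (j : ZMod (2 ^ (m + 3))) * ((1 + 4 * (i : ℤ) : ℤ) : ZMod (2 ^ (m + 3))) ^ 2 = δ then
          ev d j (th (2 ^ (m + 2)) (1 + 4 * (i : ℤ))) else 0 := by
    intro d δ
    unfold dO
    rw [QD.Db_sum D1.qd1 m, map_sum, DEL813.prO_sum]
    refine Finset.sum_congr rfl fun i _ => ?_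
    exact prO_single_class _ _ _ _ (ev_th_supp d hj m _)
  rw [hsum, hsum, map_sum, map_sum, map_sum]
  set u : ZMod (2 ^ (m + 3)) := ((1 + 4 * a : ℤ) : ZMod (2 ^ (m + 3))) with hu
  have hun : IsUnit u := isUnit_odd _ ⟨2 * a, by ring⟩
  have hH := reindex m (fun b : ℤ => if (j : ZMod (2 ^ (m + 3))) * ((b : ZMod (2 ^ (m + 3)))) ^ 2 =
      u ^ 2 * γ then io' (ev c' j (th (2 ^ (m + 2)) b)) else 0) (by
    intro b b' hb hbb
    have h1 : (b : ZMod (2 ^ (m + 3))) ^ 2 = (b' : ZMod (2 ^ (m + 3))) ^ 2 := by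
      have : ((b ^ 2 : ℤ) : ZMod (2 ^ (m + 3))) = ((b' ^ 2 : ℤ) : ZMod (2 ^ (m + 3))) := by
        rw [ZMod.intCast_eq_intCast_iff_dvd_sub]
        obtain ⟨q, hq⟩ := hbb
        obtain ⟨s, hs⟩ := hb
        have e1 : b' = b - 2 ^ (m + 2) * q := by linear_combination -hq
        refine ⟨-b * q + 2 ^ (m + 1) * q ^ 2, ?_⟩
        rw [e1]
        push_cast
        ring
      push_cast at this
      exact this
    rw [h1, th_congr (2 ^ (m + 2)) b b' (by push_cast; exact hbb)]) a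
  have e2 : ∀ i ∈ Finset.range (2 ^ m), ρ (io' (if (j : ZMod (2 ^ (m + 3))) *
      ((1 + 4 * (i : ℤ) : ℤ) : ZMod (2 ^ (m + 3))) ^ 2 = γ then
          ev c j (th (2 ^ (m + 2)) (1 + 4 * (i : ℤ))) else 0)) =
      if (j : ZMod (2 ^ (m + 3))) * ((((1 + 4 * a) * (1 + 4 * (i : ℤ)) : ℤ) : ZMod (2 ^ (m + 3)))) ^ 2 =
        u ^ 2 * γ then io' (ev c' j (th (2 ^ (m + 2)) ((1 + 4 * a) * (1 + 4 * (i : ℤ))))) else 0 := by
    intro i _
    have hiff : (j : ZMod (2 ^ (m + 3))) * ((((1 + 4 * a) * (1 + 4 * (i : ℤ)) : ℤ) :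
        ZMod (2 ^ (m + 3)))) ^ 2 = u ^ 2 * γ ↔ (j : ZMod (2 ^ (m + 3))) *
        ((1 + 4 * (i : ℤ) : ℤ) : ZMod (2 ^ (m + 3))) ^ 2 = γ := by
      rw [Int.cast_mul, ← hu]
      constructor
      · intro h
        apply (hun.pow 2).mul_left_cancel
        rw [← h]
        ring
      · intro h
        rw [← h]
        ring
    by_cases h : (j : ZMod (2 ^ (m + 3))) * ((1 + 4 * (i : ℤ) : ℤ) : ZMod (2 ^ (m + 3))) ^ 2 = γ
    · rw [if_pos h, if_pos (hiff.2 h)]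
      exact hact _ ⟨2 * i, by ring⟩
    · rw [if_neg h, if_neg (fun h' => h (hiff.1 h')), map_zero, map_zero]
  rw [Finset.sum_congr rfl e2, hH]
  refine Finset.sum_congr rfl fun i _ => ?_
  split_ifs
  · rfl
  · rw [map_zero]

end Pool.Agent.K7.H91.SQ
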