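import Pool.Agent.K7.H91.SQ.Link

set_option autoImplicit false

/-!
# An automorphism with a multiplier congruent to 9 modulo 16
-/

namespace Pool.Agent.K7.H91.SQ

open PowerSeries Pool.Agent.TH693.QQ Pool.Agent.H397R2.PP
open Pool.Agent.TH693.PP (S)
open Pool.Agent.R836.RD

theorem part_four {L : ℕ} (hL : Odd L) :
    prO 4 (L : ZMod (2 ^ 4)) (dO 1 L) = ev 1 L (th (2 ^ 3) 1) := by
  have hL0 : L ≠ 0 := hL.pos.ne'
  have h1 : dO 1 L = ev 1 L (th (2 ^ (1 + 2)) 1) + ev 1 L (th (2 ^ (1 + 2)) (1 + 4)) := by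
    have h2 := QD.Db_sum D1.qd1 1
    rw [show (2 : ℕ) ^ 1 = 1 + 1 from rfl, Finset.sum_range_succ, Finset.sum_range_succ,
      Finset.sum_range_zero] at h2
    unfold dO
    rw [h2, ← map_add]
    congr 1
    norm_num
  rw [h1, DEL813.prO_add]
  have e1 := prO_single_class (1 + 3) (L : ZMod (2 ^ (1 + 3))) _ _ (ev_th_supp 1 hL0 1 1)
  have e2 := prO_single_class (1 + 3) (L : ZMod (2 ^ (1 + 3))) _ _ (ev_th_supp 1 hL0 1 (1 + 4))
  have h3 : ¬ ((L : ZMod (2 ^ (1 + 3))) * (((1 + 4 : ℤ)) : ZMod (2 ^ (1 + 3))) ^ 2 =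
      (L : ZMod (2 ^ (1 + 3)))) := by
    intro h
    have h4 : (((L : ℤ) * 25 : ℤ) : ZMod (2 ^ (1 + 3))) = (((L : ℤ)) : ZMod (2 ^ (1 + 3))) := by
      refine Eq.trans ?_ (h.trans ?_)
      · push_cast
        norm_num
      · push_cast
        rfl
    rw [cast_eq_iff] at h4
    obtain ⟨d, hd⟩ := hL
    rw [hd] at h4
    push_cast at h4
    omega
  rw [if_neg h3] at e2
  rw [if_pos (by rw [Int.cast_one, one_pow, mul_one])] at e1
  rw [show prO 4 (L : ZMod (2 ^ 4)) (ev 1 L (th (2 ^ (1 + 2)) 1)) = _ from e1,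
    show prO 4 (L : ZMod (2 ^ 4)) (ev 1 L (th (2 ^ (1 + 2)) (1 + 4))) = _ from e2, add_zero]

theorem sig {L : ℕ} (hL : Odd L) : ∃ σ : OB ≃ₐ[kk] OB, σ (dB 1 L) = dB 1 L ∧
    σ (io' (prO 4 (L : ZMod (2 ^ 4)) (dO 1 L))) ≠ io' (prO 4 (L : ZMod (2 ^ 4)) (dO 1 L)) := by
  by_contra hcon
  push Not at hcon
  have hL0 : L ≠ 0 := hL.pos.ne'
  rw [part_four hL] at hcon
  set φ : S →+* OB := io'.comp (ev 1 L) with hφ
  set t := dB 1 L with ht
  have htφ : φ Db = t := rfl
  have ht0 : t ≠ 0 := dB_ne L hL0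
  have htr : Transcendental kk t := EX0Aux.trans_D L hL0
  have two := two_OB
  have hq := D1.qd1
  set a := φ (th (2 ^ 3) 1) with ha
  set a' := φ (th (2 ^ 3) (1 + 4)) with ha'
  have h1 : a + a' = t := by
    have := congrArg φ (hq.split 2 1 odd_one)
    rw [map_add] at this
    have h4 := hq.four 1 odd_one
    norm_num at this h4
    rw [h4] at this
    rw [ha, ha', ← htφ, ← this]
    norm_num
  have h2 : a * a' = t ^ 10 := by
    have := congrArg φ (hq.prod 2 1 (by norm_num) odd_one)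
    rw [map_mul, map_mul, map_pow, map_pow] at this
    have h4 := hq.four 3 (by decide)
    norm_num at this h4
    rw [h4] at this
    rw [ha, ha']
    norm_num
    rw [this, htφ]
    ring
  set s := t ^ 4 + t ^ 2 + t with hs
  set z := a / t + s with hz
  set z' := a' / t + s with hz'
  have h3 : z + z' = 1 := by
    rw [hz, hz']
    have : a / t + a' / t = 1 := by rw [← add_div, h1, div_self ht0]
    linear_combination this + s * two
  have h4 : z * z' = t := by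
    have e1 : a / t + a' / t = 1 := by rw [← add_div, h1, div_self ht0]
    have e2 : a / t * (a' / t) = t ^ 8 := by
      rw [div_mul_div_comm, h2]
      field_simp
    rw [hz, hz']
    have : (a / t + s) * (a' / t + s) = t ^ 8 + s + s ^ 2 := by
      linear_combination e2 + s * e1
    rw [this, hs]
    linear_combination (t ^ 8 + t ^ 4 + t ^ 2 + t ^ 6 + t ^ 5 + t ^ 3) * two
  have hie : Ie t z := Ie.quad (y' := z') (by rw [h3]; exact ie_one t) (by rw [h4]; exact ie_self t)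
  obtain ⟨e, he, Q, hQ⟩ := fixed_pow htr hie (by
    intro ρ hρ
    have h5 : ρ a = a := hcon ρ hρ
    rw [hz, hs]
    simp only [map_add, map_div₀, map_pow, h5, hρ])
  have hz1 : z' = 1 + z := by linear_combination h3 - z * two
  have h6 : t = z + z ^ 2 := by rw [← h4, hz1]; ring
  have htz : Transcendental kk z := by
    intro halg
    apply htr
    rw [h6]
    exact halg.add (halg.pow 2)
  have hinj : Function.Injective (Polynomial.aeval z : Polynomial kk →ₐ[kk] OB) :=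
    transcendental_iff_injective.1 htz
  have h7 : (Polynomial.X ^ e : Polynomial kk) = Q.comp (Polynomial.X + Polynomial.X ^ 2) := by
    apply hinj
    rw [Polynomial.aeval_comp, map_pow, map_add, map_pow, Polynomial.aeval_X, ← h6, hQ]
  have h8 := congrArg (Polynomial.eval 0) h7
  have h9 := congrArg (Polynomial.eval 1) h7
  rw [Polynomial.eval_comp] at h8 h9
  simp only [Polynomial.eval_pow, Polynomial.eval_X, Polynomial.eval_add] at h8 h9
  rw [zero_pow he.ne', zero_pow (by norm_num), add_zero] at h8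
  have h10 : (1 : kk) + 1 ^ 2 = 0 := by
    rw [one_pow]
    exact CharTwo.add_self_eq_zero 1
  rw [h10, ← h8, one_pow] at h9
  exact one_ne_zero h9

/-- the multiplier is congruent to 9 modulo 16 -/
theorem sig_mult {L : ℕ} {σ : OB ≃ₐ[kk] OB}
    (hσ : σ (io' (prO 4 (L : ZMod (2 ^ 4)) (dO 1 L))) ≠ io' (prO 4 (L : ZMod (2 ^ 4)) (dO 1 L)))
    {m : ℕ} (hm : 1 ≤ m) {g : ℤ} (hg : Odd g)
    (h : CompT (m + 3) σ ((g : ZMod (2 ^ (m + 3))) ^ 2) (dO 1 L) (dO 1 L)) :
    ∃ q : ℤ, Odd q ∧ g ^ 2 = 1 + 8 * q := by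
  obtain ⟨q, hq⟩ : ∃ q : ℤ, g ^ 2 = 1 + 8 * q := by
    obtain ⟨d, hd⟩ := hg
    rcases Int.even_or_odd' d with ⟨e, he | he⟩
    · exact ⟨e * (2 * e + 1), by rw [hd, he]; ring⟩
    · exact ⟨(2 * e + 1) * (e + 1), by rw [hd, he]; ring⟩
  refine ⟨q, ?_, hq⟩
  by_contra hodd
  rw [Int.not_odd_iff_even] at hodd
  obtain ⟨r, hr⟩ := hodd
  obtain ⟨u, hu⟩ := (isUnit_odd (m + 3) hg).pow 2
  rw [← hu] at h
  have h1 := h.coarse (show 4 ≤ m + 3 by omega)
  have h2 : ZMod.castHom (pow_dvd_pow 2 (show 4 ≤ m + 3 by omega)) (ZMod (2 ^ 4)) (u : ZMod (2 ^ (m + 3))) = 1 := by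
    rw [hu, map_pow, map_intCast]
    have : ((g ^ 2 : ℤ) : ZMod (2 ^ 4)) = ((1 : ℤ) : ZMod (2 ^ 4)) := by
      rw [cast_eq_iff, hq, hr]
      exact ⟨-r, by ring⟩
    push_cast at this
    exact this
  rw [h2] at h1
  apply hσ
  have h3 := h1 (L : ZMod (2 ^ 4))
  rw [one_mul] at h3
  exact h3

/-- the order of the multiplier -/
theorem mult_order (κ : ℕ) (q : ℤ) (hq : Odd q) (k : ℕ) : ∀ N : ℤ,
    (2 : ℤ) ^ κ ∣ N * ((1 + 8 * q) ^ k - 1) → (2 : ℤ) ^ κ ∣ 8 * N * k := by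
  set v := 1 + 8 * q with hv
  have h8 : ∀ k : ℕ, ∃ r : ℤ, v ^ k = 1 + 8 * r := by
    intro k
    induction k with
    | zero => exact ⟨0, by ring⟩
    | succ k ih =>
      obtain ⟨r, hr⟩ := ih
      exact ⟨r + q + 8 * r * q, by rw [pow_succ, hr, hv]; ring⟩
  have h16 : ∀ k : ℕ, ∃ r : ℤ, v ^ (2 * k) = 1 + 16 * r := by
    intro k
    obtain ⟨r, hr⟩ := h8 k
    exact ⟨r + 4 * r ^ 2, by rw [mul_comm 2 k, pow_mul, hr]; ring⟩
  have hco : ∀ s : ℤ, Odd s → IsCoprime ((2 : ℤ) ^ κ) s := by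
    intro s hs
    apply IsCoprime.pow_left
    obtain ⟨d, rfl⟩ := hs
    exact ⟨-d, 1, by ring⟩
  induction k using Nat.strong_induction_on with
  | _ k ih =>
    intro N hN
    rcases Nat.even_or_odd' k with ⟨k', hk | hk⟩
    · rcases Nat.eq_zero_or_pos k' with h0 | h0
      · rw [hk, h0]
        simp
      · obtain ⟨r, hr⟩ := h8 k'
        have h1 : N * (v ^ k - 1) = (2 * N * (v ^ k' - 1)) * (1 + 4 * r) := by
          rw [hk, mul_comm 2 k', pow_mul, hr]
          ring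
        rw [h1] at hN
        have h2 := (hco (1 + 4 * r) ⟨2 * r, by ring⟩).dvd_of_dvd_mul_right hN
        have h3 := ih k' (by omega) (2 * N) h2
        rw [hk]
        push_cast
        have e1 : 8 * N * (2 * (k' : ℤ)) = 8 * (2 * N) * k' := by ring
        rw [e1]
        exact h3
    · obtain ⟨r, hr⟩ := h16 k'
      have h1 : N * (v ^ k - 1) = (8 * N) * (q + 2 * r * (1 + 8 * q)) := by
        rw [hk, pow_succ, hr, hv]
        ring
      rw [h1] at hN
      have h2 := (hco (q + 2 * r * (1 + 8 * q)) (hq.add_even (by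
        rw [mul_assoc]; exact even_two_mul _))).dvd_of_dvd_mul_right hN
      exact h2.mul_right _

end Pool.Agent.K7.H91.SQ
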