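import Pool.Agent.TH693.QQ.QD
import Pool.Agent.TH693.QQ.QD1

set_option autoImplicit false

/-!
# The triplication relation for theta functions with characteristics modulo 2, and generators of
the odd residues modulo powers of 2
-/

namespace Pool.Agent.K7.H91.SQ

open PowerSeries Pool.Agent.TH693.PP Pool.Agent.H397R2.PP Pool.Agent.TH693.QQ
open Pool.Agent.TH693.QQ.D1

/-- coefficients of `th M b ^ 8` -/
lemma coeff_th_8 (M : ℕ) (b : ℤ) (N n : ℕ) (h : n ≤ N) : coeff n (th M b ^ 8) =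
    ∑ _z ∈ (Finset.Icc (-(N : ℤ)) (N : ℤ)).filter
      (fun z : ℤ => 8 * z ^ 2 = (n : ℤ) ∧ (M : ℤ) ∣ z - b), (1 : ZMod 2) := by
  rw [pow_eq_expand' 8 3 (by norm_num) (by norm_num), coeff_expand]
  split_ifs with h2
  · obtain ⟨m, rfl⟩ := h2
    rw [Nat.mul_div_cancel_left m (by norm_num), coeff_th M b N m (by omega)]
    refine Finset.sum_congr ?_ fun z _ => rfl
    ext z
    simp only [Finset.mem_filter, Finset.mem_Icc]
    push_cast
    constructor
    · rintro ⟨h1, h2, h3⟩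
      exact ⟨h1, by omega, h3⟩
    · rintro ⟨h1, h2, h3⟩
      exact ⟨h1, by omega, h3⟩
  · symm
    apply Finset.sum_eq_zero
    intro z hz
    rw [Finset.mem_filter] at hz
    obtain ⟨-, h3, -⟩ := hz
    exact absurd ⟨(z ^ 2).toNat, by have := sq_nonneg z; omega⟩ h2

/-- coefficients of `th (M) x ^ 8 * th (M') y ^ 2` -/
lemma coeff_th_82 (M M' : ℕ) (x y : ℤ) (N : ℕ) :
    coeff N (th M x ^ 8 * th M' y ^ 2) =
    ∑ _p ∈ ((Finset.Icc (-(N : ℤ)) (N : ℤ)) ×ˢ (Finset.Icc (-(N : ℤ)) (N : ℤ))).filter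
      (fun p : ℤ × ℤ => 8 * p.1 ^ 2 + 2 * p.2 ^ 2 = (N : ℤ) ∧ (M : ℤ) ∣ p.1 - x ∧
        (M' : ℤ) ∣ p.2 - y), (1 : ZMod 2) := by
  classical
  rw [coeff_prod (th M x ^ 8) (th M' y ^ 2) N
      ((Finset.Icc (-(N : ℤ)) (N : ℤ)).filter (fun z : ℤ => (M : ℤ) ∣ z - x))
      ((Finset.Icc (-(N : ℤ)) (N : ℤ)).filter (fun z : ℤ => (M' : ℤ) ∣ z - y))
      (fun z => 8 * z ^ 2) (fun z => 2 * z ^ 2) (fun z _ => by positivity) (fun z _ => by positivity)
      (fun n hn => by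
        rw [coeff_th_8 _ _ N n hn, Finset.filter_filter]
        refine Finset.sum_congr ?_ fun _ _ => rfl
        ext z
        simp only [Finset.mem_filter]
        tauto)
      (fun n hn => by
        rw [coeff_th_sq _ _ N n hn, Finset.filter_filter]
        refine Finset.sum_congr ?_ fun _ _ => rfl
        ext z
        simp only [Finset.mem_filter]
        tauto)]
  refine Finset.sum_congr ?_ fun _ _ => rfl
  ext ⟨z, w⟩
  simp only [Finset.mem_filter, Finset.mem_product]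
  tauto

/-- coefficients of `th M x * th M' y` -/
lemma coeff_th_11 (M M' : ℕ) (x y : ℤ) (N : ℕ) :
    coeff N (th M x * th M' y) =
    ∑ _p ∈ ((Finset.Icc (-(N : ℤ)) (N : ℤ)) ×ˢ (Finset.Icc (-(N : ℤ)) (N : ℤ))).filter
      (fun p : ℤ × ℤ => p.1 ^ 2 + p.2 ^ 2 = (N : ℤ) ∧ (M : ℤ) ∣ p.1 - x ∧
        (M' : ℤ) ∣ p.2 - y), (1 : ZMod 2) := by
  classical
  rw [coeff_prod (th M x) (th M' y) N
      ((Finset.Icc (-(N : ℤ)) (N : ℤ)).filter (fun z : ℤ => (M : ℤ) ∣ z - x))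
      ((Finset.Icc (-(N : ℤ)) (N : ℤ)).filter (fun z : ℤ => (M' : ℤ) ∣ z - y))
      (fun z => z ^ 2) (fun z => z ^ 2) (fun z _ => by positivity) (fun z _ => by positivity)
      (fun n hn => by
        rw [coeff_th _ _ N n hn, Finset.filter_filter]
        refine Finset.sum_congr ?_ fun _ _ => rfl
        ext z
        simp only [Finset.mem_filter]
        tauto)
      (fun n hn => by
        rw [coeff_th _ _ N n hn, Finset.filter_filter]
        refine Finset.sum_congr ?_ fun _ _ => rfl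
        ext z
        simp only [Finset.mem_filter]
        tauto)]
  refine Finset.sum_congr ?_ fun _ _ => rfl
  ext ⟨z, w⟩
  simp only [Finset.mem_filter, Finset.mem_product]
  tauto

/-- the triplication relation -/
theorem triple (k : ℕ) (b : ℤ) (hk : 1 ≤ k) :
    th (2 ^ (k + 1)) b * th (2 ^ (k + 1)) (3 * b) =
      th (2 ^ k) b ^ 8 * th (2 ^ (k + 1)) b ^ 2 +
        th (2 ^ k) (b + 2 ^ (k - 1)) ^ 8 * th (2 ^ (k + 1)) (b + 2 ^ k) ^ 2 := by
  classical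
  ext N
  rw [map_add, coeff_th_11, coeff_th_82, coeff_th_82]
  obtain ⟨j, rfl⟩ : ∃ j, k = j + 1 := ⟨k - 1, by omega⟩
  rw [Nat.add_sub_cancel]
  push_cast
  have e2 : (2 : ℤ) ^ (j + 1 + 1) = 4 * 2 ^ j := by ring
  have e1 : (2 : ℤ) ^ (j + 1) = 2 * 2 ^ j := by ring
  rw [e2, e1]
  have hp : (0 : ℤ) < 2 ^ j := by positivity
  generalize (2 : ℤ) ^ j = h at *
  rw [← Finset.sum_filter_add_sum_filter_not _ (fun p : ℤ × ℤ => 4 * h ∣ (p.2 - p.1) / 2 - b)]
  have key : ∀ z w : ℤ, 4 * h ∣ z - b → 4 * h ∣ w - 3 * b →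
      ∃ x y : ℤ, z = 2 * x - y ∧ w = 2 * x + y ∧
        ((4 * h ∣ y - b ∧ 2 * h ∣ x - b) ∨
          (¬ 4 * h ∣ y - b ∧ 4 * h ∣ y - (b + 2 * h) ∧ 2 * h ∣ x - (b + h))) := by
    rintro z w ⟨l, hl⟩ ⟨m, hm⟩
    refine ⟨b + h * (l + m), b + 2 * h * (m - l), by linear_combination hl, by linear_combination hm, ?_⟩
    rcases Int.even_or_odd' (m - l) with ⟨d, hd | hd⟩
    · left
      refine ⟨⟨d, by rw [hd]; ring⟩, ⟨d + l, ?_⟩⟩
      have : l + m = 2 * d + 2 * l := by omega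
      rw [this]
      ring
    · right
      refine ⟨?_, ⟨d, by rw [hd]; ring⟩, ⟨d + l, ?_⟩⟩
      · rintro ⟨c, hc⟩
        rw [hd] at hc
        have : 2 * h * (2 * (d - c) + 1) = 0 := by linear_combination hc
        rcases mul_eq_zero.1 this with h1 | h1 <;> omega
      · have : l + m = 2 * d + 2 * l + 1 := by omega
        rw [this]
        ring
  congr 1
  · refine Finset.sum_bij' (fun p _ => ((p.1 + p.2) / 4, (p.2 - p.1) / 2))
      (fun p _ => (2 * p.1 - p.2, 2 * p.1 + p.2)) ?_ ?_ ?_ ?_ ?_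
    · rintro ⟨z, w⟩ hx
      simp only [Finset.mem_filter, Finset.mem_product, Finset.mem_Icc] at hx ⊢
      obtain ⟨⟨⟨-, -⟩, h1, h2, h3⟩, h4⟩ := hx
      obtain ⟨x, y, hz, hw, h5⟩ := key z w h2 h3
      have e3 : (w - z) / 2 = y := by omega
      have e4 : (z + w) / 4 = x := by omega
      rw [e3] at h4 ⊢
      rw [e4]
      have e5 : 8 * x ^ 2 + 2 * y ^ 2 = N := by rw [← h1, hz, hw]; ring
      have b1 := bound (z := x) (N := N) (by nlinarith [sq_nonneg y, sq_nonneg x])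
      have b2 := bound (z := y) (N := N) (by nlinarith [sq_nonneg y, sq_nonneg x])
      rcases h5 with ⟨h6, h7⟩ | ⟨h6, -⟩
      · exact ⟨⟨b1, b2⟩, e5, h7, h6⟩
      · exact absurd h4 h6
    · rintro ⟨x, y⟩ hx
      simp only [Finset.mem_filter, Finset.mem_product, Finset.mem_Icc] at hx ⊢
      obtain ⟨⟨-, -⟩, h1, ⟨c, h2⟩, ⟨d, h3⟩⟩ := hx
      have e5 : (2 * x - y) ^ 2 + (2 * x + y) ^ 2 = N := by rw [← h1]; ring
      have b1 := bound (z := 2 * x - y) (N := N) (by nlinarith [sq_nonneg (2 * x + y)])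
      have b2 := bound (z := 2 * x + y) (N := N) (by nlinarith [sq_nonneg (2 * x - y)])
      have e6 : (2 * x + y - (2 * x - y)) / 2 = y := by omega
      rw [e6]
      exact ⟨⟨⟨b1, b2⟩, e5, ⟨c - d, by linear_combination 2 * h2 - h3⟩,
        ⟨c + d, by linear_combination 2 * h2 + h3⟩⟩, ⟨d, h3⟩⟩
    · rintro ⟨z, w⟩ hx
      simp only [Finset.mem_filter, Finset.mem_product, Finset.mem_Icc] at hx ⊢
      obtain ⟨⟨⟨-, -⟩, h1, h2, h3⟩, h4⟩ := hx
      obtain ⟨x, y, hz, hw, h5⟩ := key z w h2 h3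
      have e3 : (w - z) / 2 = y := by omega
      have e4 : (z + w) / 4 = x := by omega
      rw [e3, e4, hz, hw]
    · rintro ⟨x, y⟩ _
      simp only [Prod.mk.injEq]
      exact ⟨by omega, by omega⟩
    · rintro _ _
      rfl
  · refine Finset.sum_bij' (fun p _ => ((p.1 + p.2) / 4, (p.2 - p.1) / 2))
      (fun p _ => (2 * p.1 - p.2, 2 * p.1 + p.2)) ?_ ?_ ?_ ?_ ?_
    · rintro ⟨z, w⟩ hx
      simp only [Finset.mem_filter, Finset.mem_product, Finset.mem_Icc] at hx ⊢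
      obtain ⟨⟨⟨-, -⟩, h1, h2, h3⟩, h4⟩ := hx
      obtain ⟨x, y, hz, hw, h5⟩ := key z w h2 h3
      have e3 : (w - z) / 2 = y := by omega
      have e4 : (z + w) / 4 = x := by omega
      rw [e3] at h4 ⊢
      rw [e4]
      have e5 : 8 * x ^ 2 + 2 * y ^ 2 = N := by rw [← h1, hz, hw]; ring
      have b1 := bound (z := x) (N := N) (by nlinarith [sq_nonneg y, sq_nonneg x])
      have b2 := bound (z := y) (N := N) (by nlinarith [sq_nonneg y, sq_nonneg x])
      rcases h5 with ⟨h6, h7⟩ | ⟨h6, h7, h8⟩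
      · exact absurd h6 h4
      · exact ⟨⟨b1, b2⟩, e5, h8, h7⟩
    · rintro ⟨x, y⟩ hx
      simp only [Finset.mem_filter, Finset.mem_product, Finset.mem_Icc] at hx ⊢
      obtain ⟨⟨-, -⟩, h1, ⟨c, h2⟩, ⟨d, h3⟩⟩ := hx
      have e5 : (2 * x - y) ^ 2 + (2 * x + y) ^ 2 = N := by rw [← h1]; ring
      have b1 := bound (z := 2 * x - y) (N := N) (by nlinarith [sq_nonneg (2 * x + y)])
      have b2 := bound (z := 2 * x + y) (N := N) (by nlinarith [sq_nonneg (2 * x - y)])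
      have e6 : (2 * x + y - (2 * x - y)) / 2 = y := by omega
      rw [e6]
      refine ⟨⟨⟨b1, b2⟩, e5, ⟨c - d, by linear_combination 2 * h2 - h3⟩,
        ⟨c + d + 1, by linear_combination 2 * h2 + h3⟩⟩, ?_⟩
      rintro ⟨c', hc'⟩
      have : 2 * h * (2 * (d - c') + 1) = 0 := by linear_combination hc' - h3
      rcases mul_eq_zero.1 this with h9 | h9 <;> omega
    · rintro ⟨z, w⟩ hx
      simp only [Finset.mem_filter, Finset.mem_product, Finset.mem_Icc] at hx ⊢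
      obtain ⟨⟨⟨-, -⟩, h1, h2, h3⟩, h4⟩ := hx
      obtain ⟨x, y, hz, hw, h5⟩ := key z w h2 h3
      have e3 : (w - z) / 2 = y := by omega
      have e4 : (z + w) / 4 = x := by omega
      rw [e3, e4, hz, hw]
    · rintro ⟨x, y⟩ _
      simp only [Prod.mk.injEq]
      exact ⟨by omega, by omega⟩
    · rintro _ _
      rfl

/-- `th M (-b) = th M b` -/
theorem th_neg (M : ℕ) (b : ℤ) : th M (-b) = th M b := by
  classical
  ext n
  rw [coeff_th _ _ n n le_rfl, coeff_th _ _ n n le_rfl]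
  refine Finset.sum_bij' (fun z _ => -z) (fun z _ => -z) ?_ ?_ ?_ ?_ ?_
  · intro z hz
    simp only [Finset.mem_filter, Finset.mem_Icc] at hz ⊢
    obtain ⟨⟨h1, h2⟩, h3, c, h4⟩ := hz
    exact ⟨⟨by omega, by omega⟩, by rw [neg_sq]; exact h3, ⟨-c, by linear_combination -h4⟩⟩
  · intro z hz
    simp only [Finset.mem_filter, Finset.mem_Icc] at hz ⊢
    obtain ⟨⟨h1, h2⟩, h3, c, h4⟩ := hz
    exact ⟨⟨by omega, by omega⟩, by rw [neg_sq]; exact h3, ⟨-c, by linear_combination -h4⟩⟩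
  · intro z _
    simp
  · intro z _
    simp
  · intro z _
    rfl

/-- periodicity -/
theorem th_congr (M : ℕ) (b c : ℤ) (h : (M : ℤ) ∣ b - c) : th M b = th M c := by
  classical
  ext n
  rw [coeff_th _ _ n n le_rfl, coeff_th _ _ n n le_rfl]
  refine Finset.sum_congr ?_ fun _ _ => rfl
  ext z
  simp only [Finset.mem_filter]
  have : (M : ℤ) ∣ z - b ↔ (M : ℤ) ∣ z - c := by
    have e : z - c = z - b + (b - c) := by ring
    rw [e]
    exact (dvd_add_left h).symm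
  rw [this]

/-- powers of 3 -/
theorem three_pow (n : ℕ) : ∃ q : ℤ, Odd q ∧ (3 : ℤ) ^ 2 ^ (n + 1) = 1 + 2 ^ (n + 3) * q := by
  induction n with
  | zero => exact ⟨1, odd_one, by norm_num⟩
  | succ n ih =>
    obtain ⟨q, hq, h⟩ := ih
    refine ⟨q + 2 ^ (n + 2) * q ^ 2, ?_, ?_⟩
    · apply hq.add_even
      rw [pow_succ 2 (n + 1)]
      exact (even_two.mul_left _).mul_right _
    · rw [pow_succ 2 (n + 1), pow_mul, h]
      ring

/-- every odd integer is `± 3 ^ j` modulo `2 ^ n` -/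
theorem odd_gen (n : ℕ) (c : ℤ) (hc : Odd c) :
    ∃ j : ℕ, (2 ^ n : ℤ) ∣ c - 3 ^ j ∨ (2 ^ n : ℤ) ∣ c + 3 ^ j := by
  induction n with
  | zero => exact ⟨0, Or.inl (by norm_num)⟩
  | succ n ih =>
    rcases Nat.lt_or_ge n 3 with hn | hn
    · obtain ⟨d, rfl⟩ := hc
      have hd : (2 ^ (n + 1) : ℤ) ∣ 8 := by
        have : (8 : ℤ) = 2 ^ 3 := by norm_num
        rw [this]
        exact pow_dvd_pow 2 (by omega)
      have h4 : d % 4 = 0 ∨ d % 4 = 1 ∨ d % 4 = 2 ∨ d % 4 = 3 := by omega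
      rcases h4 with h | h | h | h
      · exact ⟨0, Or.inl (hd.trans ⟨d / 4, by omega⟩)⟩
      · exact ⟨1, Or.inl (hd.trans ⟨d / 4, by omega⟩)⟩
      · exact ⟨1, Or.inr (hd.trans ⟨d / 4 + 1, by omega⟩)⟩
      · exact ⟨0, Or.inr (hd.trans ⟨d / 4 + 1, by omega⟩)⟩
    · obtain ⟨m, rfl⟩ : ∃ m, n = m + 3 := ⟨n - 3, by omega⟩
      obtain ⟨q, hq, h3⟩ := three_pow m
      obtain ⟨j, hj⟩ := ih
      have o3 : Odd ((3 : ℤ) ^ j) := Odd.pow (by decide)
      rcases hj with ⟨z, hz⟩ | ⟨z, hz⟩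
      · rcases Int.even_or_odd z with ⟨y, hy⟩ | hz'
        · exact ⟨j, Or.inl ⟨y, by rw [hz, hy]; ring⟩⟩
        · obtain ⟨y, hy⟩ := hz'.sub_odd (o3.mul hq)
          refine ⟨j + 2 ^ (m + 1), Or.inl ⟨y, ?_⟩⟩
          rw [pow_add 3 j, h3]
          have e : (2 : ℤ) ^ (m + 3 + 1) * y = 2 ^ (m + 3) * (y + y) := by ring
          rw [e, ← hy]
          linear_combination hz
      · rcases Int.even_or_odd z with ⟨y, hy⟩ | hz'
        · exact ⟨j, Or.inr ⟨y, by rw [hz, hy]; ring⟩⟩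
        · obtain ⟨y, hy⟩ := hz'.add_odd (o3.mul hq)
          refine ⟨j + 2 ^ (m + 1), Or.inr ⟨y, ?_⟩⟩
          rw [pow_add 3 j, h3]
          have e : (2 : ℤ) ^ (m + 3 + 1) * y = 2 ^ (m + 3) * (y + y) := by ring
          rw [e, ← hy]
          linear_combination hz

end Pool.Agent.K7.H91.SQ
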